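import Pool.Agent.N245.EulerLoc
import Pool.Agent.H708R2.EulerSign.Uniq

/-!
# The energy of periodic solutions and the local energy
-/

set_option autoImplicit false

open MeasureTheory Set Filter
open scoped ENNReal NNReal Topology Pointwise

namespace Pool.Agent.N245.EulerLoc

open Pool.Agent.H708R2.EulerSign Pool.Agent.H708R2.EulerTypeI Pool.Agent.W786.Dir

lemma mem_Dom' {x : V} : x ∈ Dom ↔ ∀ i, x i ∈ Ico 0 (2 * Real.pi) := by
  unfold Pool.Agent.H708R2.EulerSign.Dom
  rw [ZSpan.mem_fundamentalDomain]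
  have hpi : 0 < 2 * Real.pi := by positivity
  refine forall_congr' fun i => ?_
  have e : bas.repr x i = x i / (2 * Real.pi) := by
    rw [bas, Module.Basis.repr_isUnitSMul]
    simp [Units.smul_def, div_eq_inv_mul]
  rw [e, mem_Ico, mem_Ico, le_div_iff₀ hpi, div_lt_iff₀ hpi, zero_mul, one_mul]

/-- translates of the period cell -/
def cell (c : V) : Set V := Set.pi univ (fun i : Fin 3 => Ico (c i) (c i + 2 * Real.pi))

lemma cell_image (c : V) : ((fun x : V => x + c) '' Dom) = cell c := by
  ext y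
  constructor
  · rintro ⟨x, hx, rfl⟩ i _
    have := mem_Dom'.1 hx i
    simp only [Pi.add_apply, mem_Ico] at this ⊢
    constructor <;> linarith
  · intro hy
    refine ⟨y - c, mem_Dom'.2 fun i => ?_, sub_add_cancel y c⟩
    have := hy i (mem_univ i)
    simp only [Pi.sub_apply, mem_Ico] at this ⊢
    constructor <;> linarith

lemma cell_int (c : V) {f : V → ℝ} (hp : Periodic3 f) : ∫ x in cell c, f x = ∫ x in Dom, f x := by
  have h : IsAddFundamentalDomain Pool.Agent.H708R2.EulerSign.Lat ((fun x : V => x + c) '' Dom)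
      (volume : Measure V) := by
    refine image_fd ?_ ?_ ?_
    · exact (Equiv.addRight c).bijective
    · fun_prop
    · intro g _ x
      abel
  rw [← cell_image]
  refine h.setIntegral_eq dom_fd fun g x => ?_
  have h2 : (g +ᵥ x : V) = x + g := by rw [add_comm]; rfl
  rw [h2]
  exact hp.lat g.2 x

/-- The torus `[-π, π]³`. -/
def cube : Set V := Icc (fun _ : Fin 3 => -Real.pi) (fun _ => Real.pi)

lemma cube_int {f : V → ℝ} (hp : Periodic3 f) : ∫ x in cube, f x = ∫ x in Dom, f x := by
  rw [← cell_int (fun _ => -Real.pi) hp]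
  refine setIntegral_congr_set ?_
  have h := (Measure.univ_pi_Ico_ae_eq_Icc (μ := fun _ : Fin 3 => (volume : Measure ℝ))
    (f := fun _ => -Real.pi) (g := fun _ => Real.pi)).symm
  have e : cell (fun _ => -Real.pi) = Set.pi univ fun _ : Fin 3 => Ico (-Real.pi) Real.pi := by
    unfold cell
    congr 1
    funext i
    congr 1
    ring
  rw [e]
  exact h

lemma ball_cell {f : V → ℝ} (hp : Periodic3 f) (hf : Continuous f) (hf0 : ∀ x, 0 ≤ f x)
    (x₀ : V) {ρ : ℝ} (hρ : ρ ≤ Real.pi) : ∫ x in B x₀ ρ, f x ≤ ∫ x in Dom, f x := by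
  rw [← cell_int (fun i => x₀ i - Real.pi) hp]
  have hsub : B x₀ ρ ⊆ cell (fun i => x₀ i - Real.pi) := by
    intro y hy i _
    have h1 := (abs_le_nrm (y - x₀) i).trans_lt (lt_of_lt_of_le hy hρ)
    rw [Pi.sub_apply, abs_lt] at h1
    simp only [mem_Ico]
    constructor <;> linarith [h1.1, h1.2]
  have hI : IntegrableOn f (cell fun i => x₀ i - Real.pi) := by
    refine (hf.continuousOn.integrableOn_compact (isCompact_univ_pi
      (s := fun i : Fin 3 => Icc (x₀ i - Real.pi) (x₀ i - Real.pi + 2 * Real.pi))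
      fun i => isCompact_Icc)).mono_set ?_
    exact Set.pi_mono fun i _ => Ico_subset_Icc_self
  exact setIntegral_mono_set hI (Eventually.of_forall hf0) hsub.eventuallyLE

/-- The energy of a periodic field. -/
noncomputable def energy (v : V → V) : ℝ := ∫ x in cube, nrm (v x) ^ 2

lemma nrm_per {v : V → V} (hp : Periodic3 v) : Periodic3 fun x => nrm (v x) ^ 2 := by
  intro i x
  simp only
  rw [hp i x]

lemma energy_nonneg (v : V → V) : 0 ≤ energy v := integral_nonneg fun _ => sq_nonneg _

lemma energy_dom {v : V → V} (hp : Periodic3 v) : energy v = ∫ x in Dom, nrm (v x) ^ 2 :=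
  cube_int (nrm_per hp)

variable {T : ℝ} {u : ℝ → V → V} {p : ℝ → V → ℝ}

/-- Conservation of energy. -/
lemma energy_const (h : IsClassicalSolution (Ico 0 T) u p) {t : ℝ} (ht : t ∈ Ico 0 T) :
    energy (u t) = energy (u 0) := by
  have h0 : (0 : ℝ) ∈ Ico 0 T := ⟨le_rfl, ht.1.trans_lt ht.2⟩
  set z : ℝ → V → V := fun _ _ => 0 with hz
  have hu : ContDiff ℝ 1 (fun q : ℝ × V => z q.1 q.2) := contDiff_const
  have e : ∀ s ∈ Ico 0 T, energy (u s) = en u z s := by
    intro s hs
    rw [energy_dom (h.periodic_u s hs)]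
    unfold en
    refine integral_congr_ae (Eventually.of_forall fun x => ?_)
    simp only [hz, sub_zero, sq3, nrm_sq, dotProduct]
    exact Finset.sum_congr rfl fun i _ => (sq _).symm
  rw [e t ht, e 0 h0]
  rcases ht.1.eq_or_lt with h1 | h1
  · rw [← h1]
  · have hcont := (en_continuousOn h hu).mono
      (show Icc 0 t ⊆ Ico 0 T from fun s hs => ⟨hs.1, hs.2.trans_lt ht.2⟩)
    have hsub : ∀ s ∈ Ioo 0 t, s ∈ Ioo 0 T := fun s hs => ⟨hs.1, hs.2.trans ht.2⟩
    obtain ⟨c, hc, hc2⟩ := exists_hasDerivAt_eq_slope (en u z) (fun s => ∫ x in Dom, dS u z s x) h1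
      hcont (fun s hs => en_hasDerivAt h hu (hsub s hs))
    have h3 := en_deriv_le h hu (fun _ _ _ => rfl)
      (fun s x => by simp [hz, divergence, grad, Matrix.trace])
      (fun s x i => by simp [hz]) (K := 0)
      (fun s _ x i j => by simp [hz, grad]) (hsub c hc)
    simp only [mul_zero, zero_mul] at h3
    have h4 : ∫ x in Dom, dS u z c x = 0 := abs_eq_zero.1 (le_antisymm h3 (abs_nonneg _))
    rw [h4, eq_comm, div_eq_zero_iff] at hc2
    rcases hc2 with h5 | h5
    · linarith
    · linarith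

/-- The local energy is at most the initial energy. -/
lemma local_energy (h : IsClassicalSolution (Ico 0 T) u p) {t : ℝ} (ht : t ∈ Ico 0 T) (x₀ : V)
    {G : ℝ} (hG : 1 ≤ G) : ∫ y in B x₀ (1 / G), nrm (u t y - 0) ^ 2 ≤ energy (u 0) := by
  rw [← energy_const h ht, energy_dom (h.periodic_u t ht)]
  simp only [sub_zero]
  have hc : Continuous (u t) := (contDiff_slice h.contDiffOn_u ht).continuous
  refine ball_cell (nrm_per (h.periodic_u t ht)) ((nrm_cont.comp hc).pow 2)
    (fun x => sq_nonneg _) x₀ ?_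
  have h1 : 1 / G ≤ 1 := by rw [div_le_one (by linarith)]; exact hG
  linarith [Real.pi_gt_three]

end Pool.Agent.N245.EulerLoc
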