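import Pool.Agent.W786.Max4

/-!
# The stretching rate at a point of coherent vorticity direction and the local energy
-/

set_option autoImplicit false

open MeasureTheory Set Filter
open scoped ENNReal NNReal Topology

namespace Pool.Agent.N245.EulerLoc

open Pool.Agent.H708R2.EulerSign Pool.Agent.H708R2.EulerTypeI Pool.Agent.W786.Dir

variable {v : V → V} {x₀ a e : V} {r : ℝ}

/-- the mean distance of the velocity from `a` at the scale `r` -/
noncomputable def M (v : V → V) (x₀ a : V) (r : ℝ) : ℝ := ∫ z, P 1 z * nrm (v (x₀ + r • z) - a)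

lemma nrm_zero : nrm (0 : V) = 0 := by simp [nrm]

lemma M_int (hv : Continuous v) (n : ℕ) : Integrable fun z => P (n + 1) z * nrm (v (x₀ + r • z) - a) := by
  have h1 : Continuous fun z : V => nrm (v (x₀ + r • z) - a) :=
    nrm_cont.comp ((hv.comp (by fun_prop)).sub continuous_const)
  exact ((P_cont (n + 1)).mul h1).integrable_of_hasCompactSupport (P_supp n).mul_right

lemma p2 (z : V) (k : Fin 3) : fderiv ℝ (P 2) z (Pi.single k 1) = -(4 * P 1 z * z k) := by
  rw [show P 2 = P (0 + 2) from rfl, P_fderiv 0 z, dotProduct_single]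
  push_cast
  ring

/-- components of the shifted and scaled velocity -/
noncomputable def dl (v : V → V) (x₀ a : V) (r : ℝ) (j : Fin 3) (z : V) : ℝ :=
  v (x₀ + r • z) j - a j

lemma dl_contDiff (hv : ContDiff ℝ 2 v) (j : Fin 3) : ContDiff ℝ 1 (dl v x₀ a r j) := by
  have hvj : ContDiff ℝ 1 fun y => v y j := (contDiff_pi.1 hv j).of_le (by norm_num)
  exact (comp_aff hvj x₀ r).sub contDiff_const

lemma dl_fderiv (hv : ContDiff ℝ 2 v) (j k : Fin 3) (z : V) :
    fderiv ℝ (dl v x₀ a r j) z (Pi.single k 1) = r * grad v (x₀ + r • z) j k := by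
  have hvj : ContDiff ℝ 1 fun y => v y j := (contDiff_pi.1 hv j).of_le (by norm_num)
  have h1 : fderiv ℝ (dl v x₀ a r j) z = fderiv ℝ (fun z => v (x₀ + r • z) j) z :=
    fderiv_sub_const _
  rw [h1, fderiv_comp_aff (S := fun y => v y j) hvj, smul_eq_mul]
  congr 1
  have h2 : HasFDerivAt v (fderiv ℝ v (x₀ + r • z)) (x₀ + r • z) :=
    ((hv.differentiable two_ne_zero) _).hasFDerivAt
  have h3 := (hasFDerivAt_pi'.1 h2 j).fderiv
  rw [h3]
  rfl

lemma ibpk (hv : ContDiff ℝ 2 v) (j k : Fin 3) :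
    ∫ z, P 2 z * fderiv ℝ (dl v x₀ a r j) z (Pi.single k 1) =
      ∫ z, 4 * P 1 z * z k * dl v x₀ a r j z := by
  rw [ibp (P_contDiff 0) (P_supp 1) (dl_contDiff hv j), ← integral_neg]
  refine integral_congr_ae (Eventually.of_forall fun z => ?_)
  simp only [zero_add]
  rw [p2]
  ring

lemma int1 (hv : ContDiff ℝ 2 v) (j k : Fin 3) :
    Integrable fun z => P 2 z * fderiv ℝ (dl v x₀ a r j) z (Pi.single k 1) :=
  ((P_contDiff 0).continuous.mul (((dl_contDiff hv j).continuous_fderiv one_ne_zero).clm_apply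
    continuous_const)).integrable_of_hasCompactSupport (P_supp 1).mul_right

lemma int2 (hv : ContDiff ℝ 2 v) (j k : Fin 3) :
    Integrable fun z : V => 4 * P 1 z * z k * dl v x₀ a r j z := by
  have h1 : Continuous fun z : V => 4 * z k * dl v x₀ a r j z :=
    (continuous_const.mul (continuous_apply k)).mul (dl_contDiff hv j).continuous
  have h2 := ((P_cont 1).mul h1).integrable_of_hasCompactSupport (P_supp 0).mul_right (μ := volume)
  refine h2.congr (Eventually.of_forall fun z => ?_)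
  simp only [Pi.mul_apply]
  ring

/-- The mean of one component of the vorticity is controlled by the velocity. -/
lemma omega_e (hv : ContDiff ℝ 2 v) (he : nrm e ≤ 1) (hr : 0 < r) :
    ∫ z, P 2 z * (vort v (x₀ + r • z) ⬝ᵥ e) ≤ 4 * M v x₀ a r / r := by
  set δ := dl v x₀ a r with hδ
  have key : r * ∫ z, P 2 z * (vort v (x₀ + r • z) ⬝ᵥ e) =
      ∫ z, 4 * P 1 z * (cross z (fun j => δ j z) ⬝ᵥ e) := by
    have e1 : r * ∫ z, P 2 z * (vort v (x₀ + r • z) ⬝ᵥ e) =
        e 0 * ((∫ z, P 2 z * fderiv ℝ (δ 2) z (Pi.single 1 1)) -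
          ∫ z, P 2 z * fderiv ℝ (δ 1) z (Pi.single 2 1)) +
        e 1 * ((∫ z, P 2 z * fderiv ℝ (δ 0) z (Pi.single 2 1)) -
          ∫ z, P 2 z * fderiv ℝ (δ 2) z (Pi.single 0 1)) +
        e 2 * ((∫ z, P 2 z * fderiv ℝ (δ 1) z (Pi.single 0 1)) -
          ∫ z, P 2 z * fderiv ℝ (δ 0) z (Pi.single 1 1)) := by
      rw [← integral_sub (int1 hv 2 1) (int1 hv 1 2), ← integral_sub (int1 hv 0 2) (int1 hv 2 0),
        ← integral_sub (int1 hv 1 0) (int1 hv 0 1), ← integral_const_mul, ← integral_const_mul,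
        ← integral_const_mul, ← integral_const_mul]
      have s : ∀ (c : ℝ) (j k j' k' : Fin 3), Integrable fun z => c *
          (P 2 z * fderiv ℝ (dl v x₀ a r j) z (Pi.single k 1) -
            P 2 z * fderiv ℝ (dl v x₀ a r j') z (Pi.single k' 1)) := fun c j k j' k' =>
        ((int1 hv j k).sub (int1 hv j' k')).const_mul c
      have s01 : Integrable fun z => e 0 *
          (P 2 z * fderiv ℝ (dl v x₀ a r 2) z (Pi.single 1 1) -
            P 2 z * fderiv ℝ (dl v x₀ a r 1) z (Pi.single 2 1)) + e 1 *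
          (P 2 z * fderiv ℝ (dl v x₀ a r 0) z (Pi.single 2 1) -
            P 2 z * fderiv ℝ (dl v x₀ a r 2) z (Pi.single 0 1)) :=
        (s (e 0) 2 1 1 2).add (s (e 1) 0 2 2 0)
      rw [← integral_add (s (e 0) 2 1 1 2) (s (e 1) 0 2 2 0),
        ← integral_add s01 (s (e 2) 1 0 0 1)]
      refine integral_congr_ae (Eventually.of_forall fun z => ?_)
      simp only [dl_fderiv hv, vort, dotProduct, Fin.sum_univ_three, Matrix.cons_val_zero,
        Matrix.cons_val_one, Matrix.cons_val]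
      ring
    rw [e1]
    simp only [hδ, ibpk hv]
    rw [← integral_sub (int2 hv 2 1) (int2 hv 1 2), ← integral_sub (int2 hv 0 2) (int2 hv 2 0),
        ← integral_sub (int2 hv 1 0) (int2 hv 0 1), ← integral_const_mul, ← integral_const_mul,
        ← integral_const_mul]
    have s : ∀ (c : ℝ) (j k j' k' : Fin 3), Integrable fun z : V => c *
        (4 * P 1 z * z k * dl v x₀ a r j z - 4 * P 1 z * z k' * dl v x₀ a r j' z) :=
      fun c j k j' k' => ((int2 hv j k).sub (int2 hv j' k')).const_mul c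
    have s01 : Integrable fun z : V => e 0 *
        (4 * P 1 z * z 1 * dl v x₀ a r 2 z - 4 * P 1 z * z 2 * dl v x₀ a r 1 z) + e 1 *
        (4 * P 1 z * z 2 * dl v x₀ a r 0 z - 4 * P 1 z * z 0 * dl v x₀ a r 2 z) :=
      (s (e 0) 2 1 1 2).add (s (e 1) 0 2 2 0)
    rw [← integral_add (s (e 0) 2 1 1 2) (s (e 1) 0 2 2 0),
      ← integral_add s01 (s (e 2) 1 0 0 1)]
    refine integral_congr_ae (Eventually.of_forall fun z => ?_)
    simp only [cross, dotProduct, Fin.sum_univ_three, Matrix.cons_val_zero,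
      Matrix.cons_val_one, Matrix.cons_val]
    ring
  have hb : |∫ z, 4 * P 1 z * (cross z (fun j => δ j z) ⬝ᵥ e)| ≤ 4 * M v x₀ a r := by
    unfold M
    rw [← integral_const_mul, ← Real.norm_eq_abs]
    refine norm_integral_le_of_norm_le ((M_int hv.continuous 0).const_mul _)
      (Eventually.of_forall fun z => ?_)
    rw [Real.norm_eq_abs, abs_mul, abs_mul, abs_of_nonneg (P_nonneg 1 z)]
    have hp := P_nonneg 1 z
    rcases lt_or_ge (z ⬝ᵥ z) 1 with hz | hz
    · have hz1 := (nrm_lt_one hz).le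
      have h1 : (fun j => δ j z) = v (x₀ + r • z) - a := by
        funext j
        rfl
      rw [h1]
      have h2 : |cross z (v (x₀ + r • z) - a) ⬝ᵥ e| ≤ nrm (v (x₀ + r • z) - a) := by
        refine (dot_le _ _).trans ?_
        have h3 := nrm_cross_le z (v (x₀ + r • z) - a)
        have h4 := nrm_nonneg (v (x₀ + r • z) - a)
        have h5 := nrm_nonneg (cross z (v (x₀ + r • z) - a))
        calc nrm (cross z (v (x₀ + r • z) - a)) * nrm e
            ≤ nrm (cross z (v (x₀ + r • z) - a)) * 1 := by gcongr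
          _ ≤ nrm z * nrm (v (x₀ + r • z) - a) := by rw [mul_one]; exact h3
          _ ≤ 1 * nrm (v (x₀ + r • z) - a) := by gcongr
          _ = _ := one_mul _
      calc |(4 : ℝ)| * P 1 z * |cross z (v (x₀ + r • z) - a) ⬝ᵥ e|
          ≤ 4 * P 1 z * nrm (v (x₀ + r • z) - a) := by
            rw [abs_of_pos (by norm_num : (0 : ℝ) < 4)]
            gcongr
        _ = 4 * (P (0 + 1) z * nrm (v (x₀ + r • z) - a)) := by ring
    · have e2 : P 1 z = 0 := P_zero_of hz
      rw [e2]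
      simp
  rw [le_div_iff₀ hr, mul_comm, key]
  exact (le_abs_self _).trans hb

/-- The mean of the stretching rate at the scale `r`. -/
lemma A_le (hv : ContDiff ℝ 2 v) (he : nrm e ≤ 1) (hr : 0 < r) :
    |∫ z, P 3 z * rate v e (x₀ + r • z)| ≤ 6 * M v x₀ a r / r := by
  have hvj : ∀ j, ContDiff ℝ 1 fun y => v y j := fun j =>
    (contDiff_pi.1 hv j).of_le (by norm_num)
  set w : V → ℝ := fun y => ∑ j, e j * v y j with hw
  have cw : ContDiff ℝ 1 w := ContDiff.sum fun j _ => contDiff_const.mul (hvj j)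
  set δ : V → ℝ := fun z => w (x₀ + r • z) - ∑ j, e j * a j with hδ
  have cδ : ContDiff ℝ 1 δ := (comp_aff cw x₀ r).sub contDiff_const
  have dδ : ∀ z, fderiv ℝ δ z e = r * rate v e (x₀ + r • z) := by
    intro z
    have h1 : fderiv ℝ δ z = fderiv ℝ (fun z => w (x₀ + r • z)) z := fderiv_sub_const _
    rw [h1, fderiv_comp_aff cw, smul_eq_mul]
    congr 1
    have h2 : HasFDerivAt v (fderiv ℝ v (x₀ + r • z)) (x₀ + r • z) :=
      ((hv.differentiable two_ne_zero) _).hasFDerivAt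
    have h3 : HasFDerivAt w (∑ j, e j • ((ContinuousLinearMap.proj j : V →L[ℝ] ℝ) ∘L
        fderiv ℝ v (x₀ + r • z))) (x₀ + r • z) :=
      HasFDerivAt.fun_sum fun j _ => (hasFDerivAt_pi'.1 h2 j).const_mul (e j)
    rw [h3.fderiv]
    have h4 : fderiv ℝ v (x₀ + r • z) e = ∑ k, e k • fderiv ℝ v (x₀ + r • z) (Pi.single k 1) := by
      conv_lhs => rw [show e = ∑ k, e k • (Pi.single k 1 : V) by
        ext i; simp [Finset.sum_apply, Pi.single_apply]]
      rw [map_sum]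
      simp
    simp only [FunLike.coe_sum, Finset.sum_apply, FunLike.coe_smul, Pi.smul_apply,
      ContinuousLinearMap.comp_apply, smul_eq_mul, h4, rate, dotProduct, Matrix.mulVec, grad,
      Matrix.of_apply]
    refine Finset.sum_congr rfl fun j _ => ?_
    simp [mul_comm]
  have h1 : r * ∫ z, P 3 z * rate v e (x₀ + r • z) = -∫ z, fderiv ℝ (P 3) z e * δ z := by
    rw [← ibp (P_contDiff 1) (P_supp 2) cδ e, ← integral_const_mul]
    refine integral_congr_ae (Eventually.of_forall fun z => ?_)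
    simp only [dδ]
    ring
  have h2 : |∫ z, fderiv ℝ (P 3) z e * δ z| ≤ 6 * M v x₀ a r := by
    unfold M
    rw [← integral_const_mul, ← Real.norm_eq_abs]
    refine norm_integral_le_of_norm_le ((M_int hv.continuous 0).const_mul _)
      (Eventually.of_forall fun z => ?_)
    rw [Real.norm_eq_abs, abs_mul, show P 3 = P (1 + 2) from rfl, P_fderiv 1 z e]
    rcases lt_or_ge (z ⬝ᵥ z) 1 with hz | hz
    · have hz1 := (nrm_lt_one hz).le
      have b1 : |z ⬝ᵥ e| ≤ 1 := (dot_le _ _).trans (mul_le_one₀ hz1 (nrm_nonneg _) he)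
      have hn := nrm_nonneg (v (x₀ + r • z) - a)
      have b2 : |δ z| ≤ nrm (v (x₀ + r • z) - a) := by
        have e1 : δ z = e ⬝ᵥ (v (x₀ + r • z) - a) := by
          simp only [hδ, hw, dotProduct, Pi.sub_apply, Fin.sum_univ_three]
          ring
        rw [e1]
        refine (dot_le _ _).trans ?_
        calc nrm e * nrm (v (x₀ + r • z) - a) ≤ 1 * nrm (v (x₀ + r • z) - a) := by gcongr
          _ = _ := one_mul _
      have e3 : |-2 * (((1 : ℕ) : ℝ) + 2) * P (1 + 1) z * (z ⬝ᵥ e)| = 6 * P 2 z * |z ⬝ᵥ e| := by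
        rw [abs_mul, abs_mul, abs_of_nonneg (P_nonneg (1 + 1) z)]
        norm_num
      rw [e3]
      have hp := P_nonneg 2 z
      have hp1 : P 2 z ≤ P 1 z := P_le z
      have hp0 := P_nonneg 1 z
      calc 6 * P 2 z * |z ⬝ᵥ e| * |δ z| ≤ 6 * P 1 z * 1 * nrm (v (x₀ + r • z) - a) := by gcongr
        _ = 6 * (P (0 + 1) z * nrm (v (x₀ + r • z) - a)) := by ring
    · have e3 : P (1 + 1) z = 0 := P_zero_of hz
      have e4 : P (0 + 1) z = 0 := P_zero_of hz
      rw [e3, e4]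
      simp
  have h3 : |∫ z, P 3 z * rate v e (x₀ + r • z)| * r ≤ 6 * M v x₀ a r := by
    rw [← abs_of_pos hr, ← abs_mul, mul_comm, abs_of_pos hr, h1, abs_neg]
    exact h2
  rwa [← le_div_iff₀ hr] at h3

/-- Euclidean balls -/
def B (x₀ : V) (ρ : ℝ) : Set V := {y | nrm (y - x₀) < ρ}

lemma B_open (x₀ : V) (ρ : ℝ) : IsOpen (B x₀ ρ) :=
  isOpen_lt (nrm_cont.comp (continuous_id.sub continuous_const)) continuous_const

lemma B_sub (x₀ : V) (ρ : ℝ) : B x₀ ρ ⊆ Metric.closedBall x₀ ρ := by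
  intro y hy
  rw [Metric.mem_closedBall, dist_eq_norm]
  have h0 : 0 ≤ ρ := (nrm_nonneg _).trans (le_of_lt hy)
  rw [pi_norm_le_iff_of_nonneg h0]
  intro i
  rw [Real.norm_eq_abs]
  exact (abs_le_nrm (y - x₀) i).trans (le_of_lt hy)

lemma B_int {f : V → ℝ} (hf : Continuous f) (x₀ : V) (ρ : ℝ) : IntegrableOn f (B x₀ ρ) :=
  (hf.continuousOn.integrableOn_compact (isCompact_closedBall x₀ ρ)).mono_set (B_sub x₀ ρ)

/-- scaling -/
lemma ball_int {f : V → ℝ} (hf : Continuous f) (hf0 : ∀ y, 0 ≤ f y) {ρ : ℝ} (hr : 0 < r)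
    (hρ : r ≤ ρ) : ∫ z, P 1 z * f (x₀ + r • z) ≤ (r ^ 3)⁻¹ * ∫ y in B x₀ ρ, f y := by
  set g : V → ℝ := fun w => P 1 (r⁻¹ • w) * f (x₀ + w) with hg
  have h1 := Measure.integral_comp_smul (volume : Measure V) g r
  have h2 : ∀ z, g (r • z) = P 1 z * f (x₀ + r • z) := by
    intro z
    simp only [hg]
    rw [smul_smul, inv_mul_cancel₀ hr.ne', one_smul]
  simp only [h2] at h1
  rw [h1]
  have h3 : Module.finrank ℝ V = 3 := by simp
  rw [h3, abs_of_pos (by positivity), smul_eq_mul]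
  refine mul_le_mul_of_nonneg_left ?_ (by positivity)
  have h4 : ∫ w, g w = ∫ y, g (y - x₀) := (integral_sub_right_eq_self g x₀).symm
  rw [h4, ← integral_indicator (B_open x₀ ρ).measurableSet]
  have hgc : Continuous fun y => g (y - x₀) := by
    simp only [hg]
    exact ((P_cont 1).comp (by fun_prop)).mul (hf.comp (by fun_prop))
  refine integral_mono_of_nonneg (Eventually.of_forall fun y => ?_) ?_
    (Eventually.of_forall fun y => ?_)
  · simp only [hg, Pi.zero_apply]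
    exact mul_nonneg (P_nonneg _ _) (hf0 _)
  · exact (integrable_indicator_iff (B_open x₀ ρ).measurableSet).2 (B_int hf x₀ ρ)
  · simp only [hg]
    rw [add_sub_cancel]
    by_cases hy : nrm (y - x₀) < r
    · rw [indicator_of_mem (show y ∈ B x₀ ρ from lt_of_lt_of_le hy hρ)]
      have hP : P 1 (r⁻¹ • (y - x₀)) ≤ 1 := by
        unfold P
        rw [pow_one]
        exact max_le (by have := dot_self_nonneg (r⁻¹ • (y - x₀)); linarith) zero_le_one
      exact mul_le_of_le_one_left (hf0 y) hP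
    · have hz : P 1 (r⁻¹ • (y - x₀)) = 0 := by
        refine P_zero_of (n := 0) ?_
        rw [← nrm_sq, nrm_smul, abs_of_pos (inv_pos.2 hr)]
        rw [not_lt] at hy
        have : 1 ≤ r⁻¹ * nrm (y - x₀) := by
          rw [inv_mul_eq_div, le_div_iff₀ hr]
          linarith
        exact one_le_pow₀ this
      rw [hz, zero_mul]
      exact indicator_nonneg (fun y _ => hf0 y) y

/-- The mean velocity and the local energy. -/
lemma M_le (hv : Continuous v) {ρ F : ℝ} (hr : 0 < r) (hρ : r ≤ ρ) (hF : 0 < F)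
    (hE : ∫ y in B x₀ ρ, nrm (v y - a) ^ 2 ≤ F ^ 2) :
    M v x₀ a r ≤ (1 + ∫ z, P 1 z) / 2 * (F * r ^ (-(3 / 2) : ℝ)) := by
  set l := F * r ^ (-(3 / 2) : ℝ) with hl
  have hl0 : 0 < l := by positivity
  have hl2 : l * l = F ^ 2 * (r ^ 3)⁻¹ := by
    have e : r ^ (-(3 / 2) : ℝ) * r ^ (-(3 / 2) : ℝ) = (r ^ 3)⁻¹ := by
      rw [← Real.rpow_add hr, ← Real.rpow_natCast r 3, ← Real.rpow_neg hr.le]
      norm_num
    calc l * l = F ^ 2 * (r ^ (-(3 / 2) : ℝ) * r ^ (-(3 / 2) : ℝ)) := by rw [hl]; ring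
      _ = _ := by rw [e]
  have hfc : Continuous fun y => nrm (v y - a) ^ 2 := (nrm_cont.comp (hv.sub continuous_const)).pow 2
  have h1 := ball_int (x₀ := x₀) hfc (fun y => sq_nonneg _) hr hρ
  have hPf : Integrable fun z => P 1 z * nrm (v (x₀ + r • z) - a) ^ 2 := by
    have hc : Continuous fun z : V => nrm (v (x₀ + r • z) - a) ^ 2 := hfc.comp (by fun_prop)
    exact ((P_cont 1).mul hc).integrable_of_hasCompactSupport (P_supp 0).mul_right
  have h2 : M v x₀ a r ≤ ∫ z, (l / 2 * P 1 z + 1 / (2 * l) * (P 1 z * nrm (v (x₀ + r • z) - a) ^ 2)) := by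
    unfold M
    refine integral_mono (M_int hv 0) (((P_integrable 0).const_mul _).add (hPf.const_mul _))
      fun z => ?_
    show P 1 z * nrm (v (x₀ + r • z) - a) ≤ l / 2 * P 1 z +
      1 / (2 * l) * (P 1 z * nrm (v (x₀ + r • z) - a) ^ 2)
    set n := nrm (v (x₀ + r • z) - a) with hn
    have hp := P_nonneg 1 z
    have h3 : n ≤ l / 2 + 1 / (2 * l) * n ^ 2 := by
      have h4 : l / 2 + 1 / (2 * l) * n ^ 2 - n = (l - n) ^ 2 / (2 * l) := by
        field_simp
        ring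
      have h5 : 0 ≤ (l - n) ^ 2 / (2 * l) := by positivity
      linarith
    calc P 1 z * n ≤ P 1 z * (l / 2 + 1 / (2 * l) * n ^ 2) := by gcongr
      _ = _ := by ring
  refine h2.trans ?_
  rw [integral_add ((P_integrable 0).const_mul _) (hPf.const_mul _), integral_const_mul,
    integral_const_mul]
  have h3 : 1 / (2 * l) * ∫ z, P 1 z * nrm (v (x₀ + r • z) - a) ^ 2 ≤ l / 2 := by
    calc 1 / (2 * l) * ∫ z, P 1 z * nrm (v (x₀ + r • z) - a) ^ 2
        ≤ 1 / (2 * l) * ((r ^ 3)⁻¹ * F ^ 2) := by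
          refine mul_le_mul_of_nonneg_left (h1.trans ?_) (by positivity)
          exact mul_le_mul_of_nonneg_left hE (by positivity)
      _ = 1 / (2 * l) * (l * l) := by rw [hl2]; ring
      _ = l / 2 := by field_simp
  have h4 : l / 2 * ∫ z, P (0 + 1) z = l / 2 * ∫ z, P 1 z := rfl
  rw [h4]
  linarith

/-- Near `x₀` the direction of the vorticity is `e`, with an error of order `β` at the length scale
`1 / G`. -/
def Coh (v : V → V) (x₀ e : V) (G β : ℝ) : Prop :=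
  ∀ y, nrm (y - x₀) < 1 / G →
    nrm (cross e (vort v y)) ≤ (G * nrm (y - x₀)) ^ β * nrm (vort v y) ∧
    nrm (vort v y) ≤ 2 * (vort v y ⬝ᵥ e)

/-- the mean of the vorticity -/
noncomputable def J (v : V → V) (x₀ : V) (r : ℝ) : ℝ := ∫ z, P 2 z * nrm (vort v (x₀ + r • z))

lemma triple (w z e : V) : w ⬝ᵥ cross z e = z ⬝ᵥ cross e w := by
  simp only [cross, dotProduct, Fin.sum_univ_three, Matrix.cons_val_zero,
    Matrix.cons_val_one, Matrix.cons_val]
  ring

lemma dA_coh (hv : ContDiff ℝ 2 v) (hdiv : ∀ x, divergence v x = 0) (he : nrm e ≤ 1) {G β : ℝ}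
    (hβ : 0 < β) (hG : 0 < G) (hc : Coh v x₀ e G β) (hr : 0 < r) (hrG : r ≤ 1 / G) :
    r * |∫ z, P 3 z * fderiv ℝ (rate v e) (x₀ + r • z) z| ≤ 6 * (G * r) ^ β * J v x₀ r := by
  have h1 := rate_formula hv hdiv e x₀ r
  have h2 : |∫ z, (z ⬝ᵥ e) * P 2 z * (vort v (x₀ + r • z) ⬝ᵥ cross z e)| ≤
      (G * r) ^ β * J v x₀ r := by
    unfold J
    rw [← integral_const_mul, ← Real.norm_eq_abs]
    refine norm_integral_le_of_norm_le ((J_cont hv 1 r).const_mul _)
      (Eventually.of_forall fun z => ?_)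
    rw [Real.norm_eq_abs]
    rcases lt_or_ge (z ⬝ᵥ z) 1 with hz | hz
    · obtain ⟨hy, hyr⟩ := in_ball (x₀ := x₀) hr hrG hz
      obtain ⟨hb1, -⟩ := hc _ hy
      have hz1 := (nrm_lt_one hz).le
      have b1 : |z ⬝ᵥ e| ≤ 1 := (dot_le _ _).trans (mul_le_one₀ hz1 (nrm_nonneg _) he)
      have hn := nrm_nonneg (vort v (x₀ + r • z))
      have b4 : |vort v (x₀ + r • z) ⬝ᵥ cross z e| ≤ (G * r) ^ β * nrm (vort v (x₀ + r • z)) := by
        rw [triple]
        refine (dot_le _ _).trans ?_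
        have h5 := nrm_nonneg (cross e (vort v (x₀ + r • z)))
        have h6 : (G * nrm (x₀ + r • z - x₀)) ^ β ≤ (G * r) ^ β :=
          Real.rpow_le_rpow (mul_nonneg hG.le (nrm_nonneg _)) (by gcongr) hβ.le
        calc nrm z * nrm (cross e (vort v (x₀ + r • z)))
            ≤ 1 * nrm (cross e (vort v (x₀ + r • z))) := by gcongr
          _ ≤ (G * nrm (x₀ + r • z - x₀)) ^ β * nrm (vort v (x₀ + r • z)) := by
            rw [one_mul]; exact hb1
          _ ≤ _ := by gcongr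
      rw [abs_mul, abs_mul, abs_of_nonneg (P_nonneg 2 z)]
      have hp := P_nonneg 2 z
      calc |z ⬝ᵥ e| * P 2 z * |vort v (x₀ + r • z) ⬝ᵥ cross z e|
          ≤ 1 * P 2 z * ((G * r) ^ β * nrm (vort v (x₀ + r • z))) := by gcongr
        _ = (G * r) ^ β * (P (1 + 1) z * nrm (vort v (x₀ + r • z))) := by ring
    · have e2 : P 2 z = 0 := P_zero_of hz
      rw [e2]
      simp
  have h3 : |r * ∫ z, P 3 z * fderiv ℝ (rate v e) (x₀ + r • z) z| ≤
      6 * (G * r) ^ β * J v x₀ r := by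
    rw [h1, abs_mul, abs_of_pos (by norm_num : (0 : ℝ) < 6)]
    calc 6 * |∫ z, (z ⬝ᵥ e) * P 2 z * (vort v (x₀ + r • z) ⬝ᵥ cross z e)|
        ≤ 6 * ((G * r) ^ β * J v x₀ r) := by gcongr
      _ = _ := by ring
  rwa [abs_mul, abs_of_pos hr] at h3

lemma J_le_sup (hv : ContDiff ℝ 2 v) {G Ω : ℝ} (hr : 0 < r) (hrG : r ≤ 1 / G)
    (hΩ : ∀ y, nrm (y - x₀) < 1 / G → nrm (vort v y) ≤ Ω) :
    J v x₀ r ≤ Ω * ∫ z, P 2 z := by
  unfold J
  rw [← integral_const_mul]
  refine integral_mono (J_cont hv 1 r) ((P_integrable 1).const_mul Ω) fun z => ?_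
  show P 2 z * nrm (vort v (x₀ + r • z)) ≤ Ω * P 2 z
  rcases lt_or_ge (z ⬝ᵥ z) 1 with hz | hz
  · rw [mul_comm]
    exact mul_le_mul_of_nonneg_right (hΩ _ (in_ball (x₀ := x₀) hr hrG hz).1) (P_nonneg 2 z)
  · have e2 : P 2 z = 0 := P_zero_of hz
    rw [e2]
    simp

lemma J_le_M (hv : ContDiff ℝ 2 v) (he : nrm e ≤ 1) {G β : ℝ} (hc : Coh v x₀ e G β)
    (hr : 0 < r) (hrG : r ≤ 1 / G) : J v x₀ r ≤ 8 * M v x₀ a r / r := by
  have h1 := omega_e (a := a) (x₀ := x₀) hv he hr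
  have h2 : J v x₀ r ≤ 2 * ∫ z, P 2 z * (vort v (x₀ + r • z) ⬝ᵥ e) := by
    unfold J
    rw [← integral_const_mul]
    have hc1 : Continuous fun z : V => vort v (x₀ + r • z) ⬝ᵥ e := by
      have h3 : Continuous fun z : V => vort v (x₀ + r • z) := (vort_cont hv).comp (by fun_prop)
      simp only [dotProduct]
      exact continuous_finsetSum _ fun i _ => ((continuous_apply i).comp h3).mul continuous_const
    refine integral_mono (J_cont hv 1 r)
      ((((P_cont 2).mul hc1).integrable_of_hasCompactSupport (P_supp 1).mul_right).const_mul 2)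
      fun z => ?_
    show P 2 z * nrm (vort v (x₀ + r • z)) ≤ 2 * (P 2 z * (vort v (x₀ + r • z) ⬝ᵥ e))
    rcases lt_or_ge (z ⬝ᵥ z) 1 with hz | hz
    · have h3 := (hc _ (in_ball (x₀ := x₀) hr hrG hz).1).2
      have hp := P_nonneg 2 z
      nlinarith
    · have e2 : P 2 z = 0 := P_zero_of hz
      rw [e2]
      simp
  calc J v x₀ r ≤ 2 * (4 * M v x₀ a r / r) := by linarith
    _ = _ := by ring

/-- The constant of the estimate. -/
noncomputable def Kc (β : ℝ) : ℝ :=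
  (6 * (∫ z, P 2 z) / β + 19 * (1 + ∫ z, P 1 z)) / ∫ z, P 3 z

lemma Kc_pos {β : ℝ} (hβ : 0 < β) : 0 < Kc β := by
  have h1 : 0 < ∫ z, P 1 z := P_int_pos 0
  have h2 : 0 < ∫ z, P 2 z := P_int_pos 1
  have h3 : 0 < ∫ z, P 3 z := P_int_pos 2
  unfold Kc
  positivity

/-- The estimate with a free intermediate radius. -/
lemma rate_free (hv : ContDiff ℝ 2 v) (hdiv : ∀ x, divergence v x = 0) (he : nrm e ≤ 1)
    {G β F Ω : ℝ} (hβ : 0 < β) (hβ1 : β ≤ 1) (hG : 0 < G) (hF : 0 < F)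
    (hc : Coh v x₀ e G β) (hE : ∫ y in B x₀ (1 / G), nrm (v y - a) ^ 2 ≤ F ^ 2)
    (hΩ : ∀ y, nrm (y - x₀) < 1 / G → nrm (vort v y) ≤ Ω) {r₀ : ℝ} (hr₀ : 0 < r₀)
    (hr₀G : r₀ ≤ 1 / G) :
    (∫ z, P 3 z) * |rate v e x₀| ≤ 6 * (∫ z, P 2 z) / β * (Ω * (G * r₀) ^ β) +
      16 * (1 + ∫ z, P 1 z) * (F * (G * r₀) ^ β * r₀ ^ (-(5 / 2) : ℝ)) +
      3 * (1 + ∫ z, P 1 z) * (F * G ^ (5 / 2 : ℝ)) := by
  have c1 : 0 < ∫ z, P 1 z := P_int_pos 0
  have c2 : 0 < ∫ z, P 2 z := P_int_pos 1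
  have c3 : 0 < ∫ z, P 3 z := P_int_pos 2
  set I1 := ∫ z, P 1 z with hI1
  set I2 := ∫ z, P 2 z with hI2
  set I3 := ∫ z, P 3 z with hI3
  set ρ := 1 / G with hρ'
  have hρ : 0 < ρ := by positivity
  set A : ℝ → ℝ := fun r => ∫ z, P 3 z * rate v e (x₀ + r • z) with hA
  set A' : ℝ → ℝ := fun r => ∫ z, P 3 z * fderiv ℝ (rate v e) (x₀ + r • z) z with hA'
  have hAd : ∀ r, HasDerivAt A (A' r) r := fun r =>
    param_deriv (P_cont 3) (P_supp 2) (rate_contDiff hv e) x₀ r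
  have hA0 : A 0 = I3 * rate v e x₀ := by
    simp only [hA, zero_smul, add_zero]
    rw [integral_mul_const]
  have hM : ∀ r, 0 < r → r ≤ ρ → M v x₀ a r ≤ (1 + I1) / 2 * (F * r ^ (-(3 / 2) : ℝ)) :=
    fun r hr hrρ => M_le hv.continuous hr hrρ hF hE
  -- near
  have near : ∀ r, 0 < r → r ≤ ρ → |A' r| ≤ 6 * G ^ β * Ω * I2 * r ^ (β - 1) := by
    intro r hr hrρ
    have h1 := dA_coh hv hdiv he hβ hG hc hr hrρ
    have h2 := J_le_sup (x₀ := x₀) hv hr hrρ hΩ
    have h3 : r * |A' r| ≤ r * (6 * G ^ β * Ω * I2 * r ^ (β - 1)) := by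
      refine h1.trans ?_
      have e1 : r * r ^ (β - 1) = r ^ β := by
        conv_lhs => rw [← Real.rpow_one r, ← Real.rpow_mul hr.le, one_mul, ← Real.rpow_add hr]
        congr 1
        ring
      calc 6 * (G * r) ^ β * J v x₀ r ≤ 6 * (G * r) ^ β * (Ω * I2) := by
            gcongr
        _ = 6 * G ^ β * Ω * I2 * (r * r ^ (β - 1)) := by
            rw [e1, Real.mul_rpow hG.le hr.le]
            ring
        _ = _ := by ring
    exact le_of_mul_le_mul_left h3 hr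
  -- far
  have far : ∀ r, 0 < r → r ≤ ρ → |A' r| ≤ 24 * (1 + I1) * F * G ^ β * r ^ (β - 7 / 2) := by
    intro r hr hrρ
    have h1 := dA_coh hv hdiv he hβ hG hc hr hrρ
    have h2 := J_le_M (x₀ := x₀) (a := a) hv he hc hr hrρ
    have h4 := hM r hr hrρ
    have h3 : r * |A' r| ≤ r * (24 * (1 + I1) * F * G ^ β * r ^ (β - 7 / 2)) := by
      refine h1.trans ?_
      have e1 : r ^ β * (r ^ (-(3 / 2) : ℝ) / r) = r * r ^ (β - 7 / 2) := by
        have e2 : r ^ (-(3 / 2) : ℝ) / r = r ^ (-(5 / 2) : ℝ) := by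
          rw [div_eq_mul_inv, ← Real.rpow_neg_one r, ← Real.rpow_add hr]
          norm_num
        have e3 : r * r ^ (β - 7 / 2) = r ^ (β - 5 / 2) := by
          conv_lhs => rw [← Real.rpow_one r, ← Real.rpow_mul hr.le, one_mul, ← Real.rpow_add hr]
          congr 1
          ring
        rw [e2, e3, ← Real.rpow_add hr]
        congr 1
      calc 6 * (G * r) ^ β * J v x₀ r ≤ 6 * (G * r) ^ β * (8 * M v x₀ a r / r) := by
            gcongr
        _ ≤ 6 * (G * r) ^ β * (8 * ((1 + I1) / 2 * (F * r ^ (-(3 / 2) : ℝ))) / r) := by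
            gcongr
        _ = 24 * (1 + I1) * F * G ^ β * (r ^ β * (r ^ (-(3 / 2) : ℝ) / r)) := by
            rw [Real.mul_rpow hG.le hr.le]
            ring
        _ = _ := by rw [e1]; ring
    exact le_of_mul_le_mul_left h3 hr
  -- from `0` to `r₀`
  have s1 : |A r₀ - A 0| ≤ 6 * I2 / β * (Ω * (G * r₀) ^ β) := by
    obtain ⟨c, hcc, hc2⟩ := exists_ratio_hasDerivAt_eq_ratio_slope A A' hr₀
      (fun r _ => (hAd r).continuousAt.continuousWithinAt) (fun r _ => hAd r)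
      (fun r => r ^ β) (fun r => β * r ^ (β - 1))
      ((Real.continuous_rpow_const hβ.le).continuousOn)
      (fun r hr => Real.hasDerivAt_rpow_const (Or.inl hr.1.ne'))
    have hcpos : 0 < c := hcc.1
    rw [Real.zero_rpow hβ.ne', sub_zero] at hc2
    have hcp : 0 < c ^ (β - 1) := Real.rpow_pos_of_pos hcpos _
    have h1 : |A r₀ - A 0| * (β * c ^ (β - 1)) = r₀ ^ β * |A' c| := by
      rw [← abs_of_pos (show 0 < β * c ^ (β - 1) by positivity), ← abs_mul,
        ← abs_of_pos (show 0 < r₀ ^ β by positivity), ← abs_mul, hc2]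
    have h2 := near c hcpos (hcc.2.le.trans hr₀G)
    have h3 : |A r₀ - A 0| * (β * c ^ (β - 1)) ≤
        (6 * I2 / β * (Ω * (G * r₀) ^ β)) * (β * c ^ (β - 1)) := by
      rw [h1]
      calc r₀ ^ β * |A' c| ≤ r₀ ^ β * (6 * G ^ β * Ω * I2 * c ^ (β - 1)) := by gcongr
        _ = _ := by
          rw [Real.mul_rpow hG.le hr₀.le]
          field_simp
    exact le_of_mul_le_mul_right h3 (by positivity)
  -- from `r₀` to `ρ`
  have s2 : |A ρ - A r₀| ≤ 16 * (1 + I1) * (F * (G * r₀) ^ β * r₀ ^ (-(5 / 2) : ℝ)) := by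
    rcases hr₀G.lt_or_eq with hlt | heq
    · obtain ⟨c, hcc, hc2⟩ := exists_ratio_hasDerivAt_eq_ratio_slope A A' hlt
        (fun r _ => (hAd r).continuousAt.continuousWithinAt) (fun r _ => hAd r)
        (fun r => r ^ (β - 5 / 2)) (fun r => (β - 5 / 2) * r ^ (β - 5 / 2 - 1))
        (fun r hr => (Real.continuousAt_rpow_const _ _
          (Or.inl (hr₀.trans_le hr.1).ne')).continuousWithinAt)
        (fun r hr => Real.hasDerivAt_rpow_const (Or.inl (hr₀.trans hr.1).ne'))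
      have hcpos : 0 < c := hr₀.trans hcc.1
      have hcp : 0 < c ^ (β - 7 / 2) := Real.rpow_pos_of_pos hcpos _
      have hρp : 0 < ρ ^ (β - 5 / 2) := Real.rpow_pos_of_pos hρ _
      have hrp : 0 < r₀ ^ (β - 5 / 2) := Real.rpow_pos_of_pos hr₀ _
      have hmono : ρ ^ (β - 5 / 2) ≤ r₀ ^ (β - 5 / 2) :=
        Real.rpow_le_rpow_of_nonpos hr₀ hlt.le (by linarith)
      have hβ52 : 0 < 5 / 2 - β := by linarith
      have e0 : β - 5 / 2 - 1 = β - 7 / 2 := by ring
      rw [e0] at hc2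
      have h1 : |A ρ - A r₀| * ((5 / 2 - β) * c ^ (β - 7 / 2)) =
          (r₀ ^ (β - 5 / 2) - ρ ^ (β - 5 / 2)) * |A' c| := by
        have h5 : |(ρ ^ (β - 5 / 2) - r₀ ^ (β - 5 / 2)) * A' c| =
            |(A ρ - A r₀) * ((β - 5 / 2) * c ^ (β - 7 / 2))| := by
          rw [hc2]
        rw [abs_mul, abs_mul, abs_mul, abs_of_pos hcp, abs_of_neg (show β - 5 / 2 < 0 by linarith),
          abs_of_nonpos (show ρ ^ (β - 5 / 2) - r₀ ^ (β - 5 / 2) ≤ 0 by linarith)] at h5
        rw [neg_sub, neg_sub] at h5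
        exact h5.symm
      have h2 := far c hcpos hcc.2.le
      have h3 : |A ρ - A r₀| * ((5 / 2 - β) * c ^ (β - 7 / 2)) ≤
          (16 * (1 + I1) * (F * (G * r₀) ^ β * r₀ ^ (-(5 / 2) : ℝ))) *
            ((5 / 2 - β) * c ^ (β - 7 / 2)) := by
        rw [h1]
        have e1 : (G * r₀) ^ β * r₀ ^ (-(5 / 2) : ℝ) = G ^ β * r₀ ^ (β - 5 / 2) := by
          rw [Real.mul_rpow hG.le hr₀.le, mul_assoc, ← Real.rpow_add hr₀]
          congr 2
        have h32 : (24 : ℝ) ≤ 16 * (5 / 2 - β) := by linarith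
        have hW : 0 ≤ (1 + I1) * F * G ^ β * r₀ ^ (β - 5 / 2) * c ^ (β - 7 / 2) := by positivity
        calc (r₀ ^ (β - 5 / 2) - ρ ^ (β - 5 / 2)) * |A' c|
            ≤ r₀ ^ (β - 5 / 2) * (24 * (1 + I1) * F * G ^ β * c ^ (β - 7 / 2)) := by
              refine mul_le_mul (by linarith) h2 (abs_nonneg _) hrp.le
          _ = 24 * ((1 + I1) * F * G ^ β * r₀ ^ (β - 5 / 2) * c ^ (β - 7 / 2)) := by ring
          _ ≤ (16 * (5 / 2 - β)) *
              ((1 + I1) * F * G ^ β * r₀ ^ (β - 5 / 2) * c ^ (β - 7 / 2)) :=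
              mul_le_mul_of_nonneg_right h32 hW
          _ = 16 * (1 + I1) * (F * (G ^ β * r₀ ^ (β - 5 / 2))) *
              ((5 / 2 - β) * c ^ (β - 7 / 2)) := by ring
          _ = _ := by rw [← e1]; ring
      exact le_of_mul_le_mul_right h3 (by positivity)
    · rw [heq, sub_self, abs_zero]
      positivity
  have s3 : |A ρ| ≤ 3 * (1 + I1) * (F * G ^ (5 / 2 : ℝ)) := by
    refine (A_le (a := a) hv he hρ).trans ?_
    have h4 := hM ρ hρ le_rfl
    have e1 : ρ ^ (-(3 / 2) : ℝ) / ρ = G ^ (5 / 2 : ℝ) := by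
      rw [div_eq_mul_inv, ← Real.rpow_neg_one ρ, ← Real.rpow_add hρ, hρ', one_div,
        Real.inv_rpow hG.le, ← Real.rpow_neg hG.le]
      norm_num
    calc 6 * M v x₀ a ρ / ρ ≤ 6 * ((1 + I1) / 2 * (F * ρ ^ (-(3 / 2) : ℝ))) / ρ := by gcongr
      _ = 3 * (1 + I1) * (F * (ρ ^ (-(3 / 2) : ℝ) / ρ)) := by ring
      _ = _ := by rw [e1]
  rw [← abs_of_pos c3, ← abs_mul, ← hA0]
  have h2 : |A 0| ≤ |A ρ| + |A ρ - A r₀| + |A r₀ - A 0| := by
    have e : A 0 = A ρ - (A ρ - A r₀) - (A r₀ - A 0) := by ring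
    calc |A 0| = |A ρ - (A ρ - A r₀) - (A r₀ - A 0)| := by rw [← e]
      _ ≤ |A ρ - (A ρ - A r₀)| + |A r₀ - A 0| := abs_sub _ _
      _ ≤ |A ρ| + |A ρ - A r₀| + |A r₀ - A 0| := by
        have := abs_sub (A ρ) (A ρ - A r₀)
        linarith
  linarith

/-- **The stretching rate at a point of coherent vorticity direction.** -/
theorem rate_coh (hv : ContDiff ℝ 2 v) (hdiv : ∀ x, divergence v x = 0) (he : nrm e ≤ 1)
    {G β F Ω : ℝ} (hβ : 0 < β) (hβ1 : β ≤ 1) (hG : 0 < G) (hF : 0 < F) (hΩ0 : 0 < Ω)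
    (hc : Coh v x₀ e G β) (hE : ∫ y in B x₀ (1 / G), nrm (v y - a) ^ 2 ≤ F ^ 2)
    (hΩ : ∀ y, nrm (y - x₀) < 1 / G → nrm (vort v y) ≤ Ω) :
    |rate v e x₀| ≤ Kc β * (Ω * (G * (F / Ω) ^ (2 / 5 : ℝ)) ^ β + F * G ^ (5 / 2 : ℝ)) := by
  have c1 : 0 < ∫ z, P 1 z := P_int_pos 0
  have c2 : 0 < ∫ z, P 2 z := P_int_pos 1
  have c3 : 0 < ∫ z, P 3 z := P_int_pos 2
  unfold Kc
  rw [div_mul_eq_mul_div, le_div_iff₀ c3, mul_comm]
  set s := (F / Ω) ^ (2 / 5 : ℝ) with hs
  have hs0 : 0 < s := by positivity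
  have hs52 : s ^ (5 / 2 : ℝ) = F / Ω := by
    rw [hs, ← Real.rpow_mul (by positivity)]
    norm_num
  rcases le_or_gt s (1 / G) with hle | hgt
  · have h1 := rate_free (a := a) hv hdiv he hβ hβ1 hG hF hc hE hΩ hs0 hle
    have e1 : F * (G * s) ^ β * s ^ (-(5 / 2) : ℝ) = Ω * (G * s) ^ β := by
      rw [Real.rpow_neg hs0.le, hs52]
      field_simp
    rw [e1] at h1
    refine h1.trans ?_
    have hX : 0 ≤ Ω * (G * s) ^ β := by positivity
    have hY : 0 ≤ F * G ^ (5 / 2 : ℝ) := by positivity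
    have h6 : 0 ≤ 6 * (∫ z, P 2 z) / β * (F * G ^ (5 / 2 : ℝ)) := by positivity
    nlinarith [mul_nonneg c1.le hX, mul_nonneg c1.le hY]
  · have h1 := rate_free (a := a) hv hdiv he hβ hβ1 hG hF hc hE hΩ
      (show (0 : ℝ) < 1 / G by positivity) le_rfl
    have e0 : G * (1 / G) = 1 := by field_simp
    have e2 : (1 / G) ^ (-(5 / 2) : ℝ) = G ^ (5 / 2 : ℝ) := by
      rw [one_div, Real.inv_rpow hG.le, ← Real.rpow_neg hG.le]
      norm_num
    rw [e0, Real.one_rpow, mul_one, mul_one, e2] at h1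
    have h2 : Ω ≤ F * G ^ (5 / 2 : ℝ) := by
      have h3 : (1 / G) ^ (5 / 2 : ℝ) ≤ s ^ (5 / 2 : ℝ) :=
        Real.rpow_le_rpow (by positivity) hgt.le (by norm_num)
      rw [hs52, one_div, Real.inv_rpow hG.le, le_div_iff₀ hΩ0] at h3
      have hGp : 0 < G ^ (5 / 2 : ℝ) := by positivity
      rw [inv_mul_le_iff₀ hGp] at h3
      linarith
    refine h1.trans ?_
    have hX : 0 ≤ Ω * (G * s) ^ β := by positivity
    have hY : 0 ≤ F * G ^ (5 / 2 : ℝ) := by positivity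
    have h6 : 6 * (∫ z, P 2 z) / β * Ω ≤ 6 * (∫ z, P 2 z) / β * (F * G ^ (5 / 2 : ℝ)) := by gcongr
    have h7 : 0 ≤ 6 * (∫ z, P 2 z) / β * (Ω * (G * s) ^ β) := by positivity
    nlinarith [mul_nonneg c1.le hX, mul_nonneg c1.le hY]

end Pool.Agent.N245.EulerLoc
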