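import Pool.Agent.N245.EulerEn

/-!
# Coherent vorticity direction at one maximum point of the vorticity: no blow-up
-/

set_option autoImplicit false

open MeasureTheory Set Filter
open scoped ENNReal NNReal Topology

namespace Pool.Agent.N245.EulerLoc

open Pool.Agent.H708R2.EulerSign Pool.Agent.H708R2.EulerTypeI Pool.Agent.W786.Dir
  Pool.Agent.W786.Max

/-- The angle `φ` between the vorticities at `x` and at `y` satisfies `sin φ ≤ (G |y - x|)^β` and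
`cos φ ≥ 1/2`, for all `y` in the ball of radius `1 / G` about `x`. -/
def Coherent (v : V → V) (x : V) (G β : ℝ) : Prop :=
  ∀ y, nrm (y - x) < 1 / G →
    nrm (cross (vort v x) (vort v y)) ≤
      (G * nrm (y - x)) ^ β * (nrm (vort v x) * nrm (vort v y)) ∧
    nrm (vort v x) * nrm (vort v y) ≤ 2 * (vort v x ⬝ᵥ vort v y)

lemma cross_smul (c : ℝ) (a b : V) : cross (c • a) b = c • cross a b := by
  funext i
  fin_cases i <;> simp [cross] <;> ring

/-- The stretching rate. -/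
theorem stretch_coh {v : V → V} (hv : ContDiff ℝ 2 v) (hdiv : ∀ x, divergence v x = 0) {x a : V}
    {G β F Ω : ℝ} (hβ : 0 < β) (hβ1 : β ≤ 1) (hG : 0 < G) (hF : 0 < F) (hΩ0 : 0 < Ω)
    (hc : Coherent v x G β) (hE : ∫ y in B x (1 / G), nrm (v y - a) ^ 2 ≤ F ^ 2)
    (hΩ : ∀ y, nrm (y - x) < 1 / G → nrm (vort v y) ≤ Ω) :
    |vort v x ⬝ᵥ (grad v x).mulVec (vort v x)| ≤
      Kc β * (Ω * (G * (F / Ω) ^ (2 / 5 : ℝ)) ^ β + F * G ^ (5 / 2 : ℝ)) *
        (vort v x ⬝ᵥ vort v x) := by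
  by_cases h0 : nrm (vort v x) = 0
  · rw [nrm_eq_zero h0]
    simp
  · have hn : 0 < nrm (vort v x) := lt_of_le_of_ne (nrm_nonneg _) (Ne.symm h0)
    set n := nrm (vort v x) with hn'
    set e : V := n⁻¹ • vort v x with he'
    have he : nrm e = 1 := by
      rw [he', nrm_smul, abs_of_pos (inv_pos.2 hn), ← hn', inv_mul_cancel₀ hn.ne']
    have hω : vort v x = n • e := by
      rw [he', smul_smul, mul_inv_cancel₀ hn.ne', one_smul]
    have hcoh : Coh v x e G β := by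
      intro y hy
      obtain ⟨h1, h2⟩ := hc y hy
      constructor
      · rw [he', cross_smul, nrm_smul, abs_of_pos (inv_pos.2 hn), inv_mul_le_iff₀ hn]
        refine h1.trans (le_of_eq ?_)
        ring
      · have h3 : vort v y ⬝ᵥ e = n⁻¹ * (vort v x ⬝ᵥ vort v y) := by
          rw [he', dotProduct_smul, smul_eq_mul, dotProduct_comm]
        rw [h3]
        have h4 : n * nrm (vort v y) ≤ n * (2 * (n⁻¹ * (vort v x ⬝ᵥ vort v y))) := by
          refine h2.trans (le_of_eq ?_)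
          field_simp
        exact le_of_mul_le_mul_left h4 hn
    have h1 := rate_coh (a := a) hv hdiv he.le hβ hβ1 hG hF hΩ0 hcoh hE hΩ
    have h2 : vort v x ⬝ᵥ (grad v x).mulVec (vort v x)
        = (vort v x ⬝ᵥ vort v x) * rate v e x := by
      rw [← nrm_sq, ← hn']
      conv_lhs => rw [hω]
      rw [Matrix.mulVec_smul, smul_dotProduct, dotProduct_smul, smul_eq_mul, smul_eq_mul, rate]
      ring
    rw [h2, abs_mul, abs_of_nonneg (dot_self_nonneg _), mul_comm]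
    exact mul_le_mul_of_nonneg_right h1 (dot_self_nonneg _)

variable {T : ℝ} {u : ℝ → V → V} {p : ℝ → V → ℝ}

/-- The velocity in the ball of radius `1 / G` about `x` has energy at most `F²` in some inertial
frame. -/
def LocalEnergyLE (v : V → V) (x : V) (G F : ℝ) : Prop :=
  ∃ a : V, ∫ y in B x (1 / G), nrm (v y - a) ^ 2 ≤ F ^ 2

/-- The stretching rate at a maximum point of the vorticity. -/
lemma stretch_max (h : IsC2Solution T u p) {t : ℝ} (ht : t ∈ Ioo 0 T) {x : V}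
    (hx : IsMaxPt u t x) {G β F : ℝ} (hβ : 0 < β) (hβ1 : β ≤ 1) (hG0 : 0 < G) (hF : 0 < F)
    (hE : LocalEnergyLE (u t) x G F) (hpos : 0 < nrm (vort (u t) x))
    (hc : Coherent (u t) x G β) :
    Pq u t x ≤ Kc β * (F ^ (2 * β / 5) * G ^ β * nrm (vort (u t) x) ^ (1 - 2 * β / 5) +
      F * G ^ (5 / 2 : ℝ)) * Wq u t x := by
  have htI : t ∈ Ico 0 T := ⟨ht.1.le, ht.2⟩
  set m := nrm (vort (u t) x) with hm
  obtain ⟨a, ha⟩ := hE
  have h1 := stretch_coh (slice_two h ht) (fun y => h.sol.div_free t htI y) (a := a) hβ hβ1 hG0 hF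
    hpos hc ha (fun y _ => hx y)
  have e : m * (G * (F / m) ^ (2 / 5 : ℝ)) ^ β = F ^ (2 * β / 5) * G ^ β * m ^ (1 - 2 * β / 5) := by
    rw [Real.mul_rpow hG0.le (by positivity), ← Real.rpow_mul (by positivity),
      Real.div_rpow hF.le hpos.le, Real.rpow_sub hpos, Real.rpow_one,
      show (2 / 5 * β : ℝ) = 2 * β / 5 by ring]
    field_simp
  rw [e] at h1
  exact (le_abs_self _).trans h1

/-- The conserved energy bounds every local energy. -/
lemma local_of_energy (h : IsC2Solution T u p) {t : ℝ} (ht : t ∈ Ico 0 T) (x : V) {G F : ℝ}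
    (hG : 1 ≤ G) (hF : energy (u 0) ≤ F ^ 2) : LocalEnergyLE (u t) x G F :=
  ⟨0, (local_energy h.sol ht x hG).trans hF⟩

/-- The vorticity stays bounded. -/
theorem crit_loc (h : IsC2Solution T u p) {G F Ω : ℝ → ℝ} {β t₀ Λ : ℝ} (hβ : 0 < β) (hβ1 : β ≤ 1)
    (ht₀ : t₀ ∈ Ico 0 T) (hΩ : ∀ t ∈ Ioo t₀ T, ∀ x, nrm (vort (u t) x) ≤ Ω t)
    (hint : IntegrableOn (fun t => F t ^ (2 * β / 5) * G t ^ β * Ω t ^ (1 - 2 * β / 5) +
      F t * G t ^ (5 / 2 : ℝ)) (Ioo t₀ T))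
    (hyp : ∀ᵐ t, t ∈ Ioo t₀ T → 0 < G t ∧ 0 < F t ∧ ∃ x, IsMaxPt u t x ∧
      (Λ < nrm (vort (u t) x) → Coherent (u t) x (G t) β ∧ LocalEnergyLE (u t) x (G t) (F t))) :
    ∃ C : ℝ, ∀ t ∈ Ioo t₀ T, ∀ x, nrm (vort (u t) x) ≤ C := by
  obtain ⟨W, hW0, hW⟩ := vort_bound h.sol ht₀.2
  have hK := Kc_pos hβ
  set ρ : ℝ → ℝ := fun t => Kc β * |F t ^ (2 * β / 5) * G t ^ β * Ω t ^ (1 - 2 * β / 5) +
      F t * G t ^ (5 / 2 : ℝ)| with hρ
  have hρ0 : ∀ t, 0 ≤ ρ t := fun t => by positivity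
  have hρi : IntegrableOn ρ (Ioo t₀ T) := hint.abs.const_mul _
  set K := max Λ W with hKd
  have hK0 : 0 ≤ K := hW0.trans (le_max_right _ _)
  refine ⟨K * Real.exp (∫ s in Ioo t₀ T, ρ s), fun b hb x => ?_⟩
  have hρb : IntegrableOn ρ (Icc t₀ b) := by
    rw [integrableOn_Icc_iff_integrableOn_Ioo]
    exact hρi.mono_set (Ioo_subset_Ioo_right hb.2.le)
  have hii : ∀ s ∈ Icc t₀ b, IntervalIntegrable ρ volume t₀ s := fun s hs =>
    (intervalIntegrable_iff_integrableOn_Icc_of_le hs.1).2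
      (hρb.mono_set (Icc_subset_Icc_right hs.2))
  have hmain : nrm (vort (u b) x) ≤ K * Real.exp (∫ s in t₀..b, ρ s) := by
    refine comp_max h ht₀.1 hb.1.le hb.2 (ρ := ρ)
      (G := fun t => K * Real.exp (∫ s in t₀..t, ρ s)) ?_ hρb
      (fun t _ => hρ0 t) ?_ ?_ ?_ x
    · have h1 : ContinuousOn (fun t => ∫ s in t₀..t, ρ s) (Icc t₀ b) := by
        have := intervalIntegral.continuousOn_primitive_interval (f := ρ) (a := t₀) (b := b)
          (by rwa [uIcc_of_le hb.1.le])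
        rwa [uIcc_of_le hb.1.le] at this
      exact continuousOn_const.mul (Real.continuous_exp.comp_continuousOn h1)
    · intro s hs
      have h1 : (∫ r in t₀..s, ρ r) + ∫ r in s..b, ρ r = ∫ r in t₀..b, ρ r :=
        intervalIntegral.integral_add_adjacent_intervals (hii s hs)
          ((hii s hs).symm.trans (hii b ⟨hb.1.le, le_rfl⟩))
      rw [mul_assoc, ← Real.exp_add, h1]
    · intro y
      simp only [intervalIntegral.integral_same, Real.exp_zero, mul_one]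
      exact (hW t₀ ⟨ht₀.1, le_rfl⟩ y).1.trans (le_max_right _ _)
    · filter_upwards [hyp] with t ht htI
      have htT : t ∈ Ioo t₀ T := ⟨htI.1, htI.2.trans hb.2⟩
      have htT0 : t ∈ Ioo 0 T := ⟨ht₀.1.trans_lt htI.1, htT.2⟩
      obtain ⟨hG0, hF0, y, hy, hy2⟩ := ht htT
      refine ⟨y, hy, fun hlt => ?_⟩
      have h2 : 0 ≤ ∫ s in t₀..t, ρ s :=
        intervalIntegral.integral_nonneg htI.1.le fun s _ => hρ0 s
      have h3 : 1 ≤ Real.exp (∫ s in t₀..t, ρ s) := Real.one_le_exp h2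
      have h4 : K < nrm (vort (u t) y) := lt_of_le_of_lt (le_mul_of_one_le_right hK0 h3) hlt
      have hpos : 0 < nrm (vort (u t) y) := hK0.trans_lt h4
      obtain ⟨hco, hlo⟩ := hy2 ((le_max_left Λ W).trans_lt h4)
      have h5 := stretch_max h htT0 hy hβ hβ1 hG0 hF0 hlo hpos hco
      refine h5.trans (mul_le_mul_of_nonneg_right ?_ (Wq_nonneg _ _))
      have hmΩ : nrm (vort (u t) y) ≤ Ω t := hΩ t htT y
      have hexp : 0 ≤ 1 - 2 * β / 5 := by linarith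
      have h6 : nrm (vort (u t) y) ^ (1 - 2 * β / 5) ≤ Ω t ^ (1 - 2 * β / 5) :=
        Real.rpow_le_rpow hpos.le hmΩ hexp
      calc Kc β * (F t ^ (2 * β / 5) * G t ^ β * nrm (vort (u t) y) ^ (1 - 2 * β / 5) +
            F t * G t ^ (5 / 2 : ℝ))
          ≤ Kc β * (F t ^ (2 * β / 5) * G t ^ β * Ω t ^ (1 - 2 * β / 5) +
            F t * G t ^ (5 / 2 : ℝ)) := by gcongr
        _ ≤ ρ t := by
          simp only [hρ]
          exact mul_le_mul_of_nonneg_left (le_abs_self _) (by positivity)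
  refine hmain.trans (mul_le_mul_of_nonneg_left (Real.exp_le_exp.2 ?_) hK0)
  rw [intervalIntegral.integral_of_le hb.1.le, integral_Ioc_eq_integral_Ioo]
  exact setIntegral_mono_set hρi (Eventually.of_forall hρ0)
    (Ioo_subset_Ioo_right hb.2.le).eventuallyLE

/-- The vorticity stays bounded. -/
theorem crit_bound (h : IsC2Solution T u p) {G Ω : ℝ → ℝ} {β t₀ Λ : ℝ} (hβ : 0 < β) (hβ1 : β ≤ 1)
    (ht₀ : t₀ ∈ Ico 0 T) (hΩ : ∀ t ∈ Ioo t₀ T, ∀ x, nrm (vort (u t) x) ≤ Ω t)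
    (hi1 : IntegrableOn (fun t => G t ^ β * Ω t ^ (1 - 2 * β / 5)) (Ioo t₀ T))
    (hi2 : IntegrableOn (fun t => G t ^ (5 / 2 : ℝ)) (Ioo t₀ T))
    (hyp : ∀ᵐ t, t ∈ Ioo t₀ T → 1 ≤ G t ∧ ∃ x, IsMaxPt u t x ∧
      (Λ < nrm (vort (u t) x) → Coherent (u t) x (G t) β)) :
    ∃ C : ℝ, ∀ t ∈ Ioo t₀ T, ∀ x, nrm (vort (u t) x) ≤ C := by
  set E := energy (u 0) with hE
  have hE0 : 0 ≤ E := energy_nonneg _
  set F := Real.sqrt E + 1 with hF
  have hF0 : 0 < F := by have := Real.sqrt_nonneg E; linarith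
  have hEF : E ≤ F ^ 2 := by
    have h1 := Real.sqrt_nonneg E
    have h2 := Real.sq_sqrt hE0
    nlinarith
  refine crit_loc h (F := fun _ => F) hβ hβ1 ht₀ hΩ (Λ := Λ) (G := G) ?_ ?_
  · refine Integrable.add ?_ (hi2.const_mul F)
    refine (hi1.const_mul (F ^ (2 * β / 5))).congr (Eventually.of_forall fun t => ?_)
    simp only []
    ring
  · filter_upwards [hyp] with t ht htI
    obtain ⟨hG, x, hx, hx2⟩ := ht htI
    refine ⟨by linarith, hF0, x, hx, fun hlt => ⟨hx2 hlt, ?_⟩⟩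
    exact local_of_energy h ⟨ht₀.1.trans htI.1.le, htI.2⟩ x hG hEF

/-- A bounded vorticity has a finite Beale-Kato-Majda integral. -/
lemma bkm_of_bounded (h : IsC2Solution T u p) {t₀ C : ℝ} (ht₀ : t₀ ∈ Ico 0 T)
    (hC : ∀ t ∈ Ioo t₀ T, ∀ x, nrm (vort (u t) x) ≤ C) : BKMFinite T u := by
  obtain ⟨W, hW0, hW⟩ := vort_bound h.sol ht₀.2
  unfold BKMFinite
  have h1 : ∫⁻ t in Ioo 0 T, ⨆ x, ENNReal.ofReal (nrm (vort (u t) x))
      ≤ ∫⁻ _t in Ioo 0 T, ENNReal.ofReal (max W C) := by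
    refine setLIntegral_mono' measurableSet_Ioo fun t ht => ?_
    refine iSup_le fun x => ENNReal.ofReal_le_ofReal ?_
    rcases le_or_gt t t₀ with htt | htt
    · exact (hW t ⟨ht.1.le, htt⟩ x).1.trans (le_max_left _ _)
    · exact (hC t ⟨htt, ht.2⟩ x).trans (le_max_right _ _)
  refine h1.trans_lt ?_
  rw [setLIntegral_const, Real.volume_Ioo]
  exact ENNReal.mul_lt_top ENNReal.ofReal_lt_top ENNReal.ofReal_lt_top

/-- Half of the critical rate at one maximum point. -/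
theorem half_rate (hT : 0 < T) (h : IsC2Solution T u p)
    (hd : ∀ᶠ t in 𝓝[<] T, ∃ y, IsMaxPt u t y ∧
      (1 / Real.sqrt (T - t) < nrm (vort (u t) y) →
        Pq u t y ≤ 1 / (2 * (T - t)) * Wq u t y)) :
    (∃ C : ℝ, ∀ᶠ t in 𝓝[<] T, ∀ x, nrm (vort (u t) x) ≤ C / Real.sqrt (T - t)) ∧
    BKMFinite T u := by
  obtain ⟨t₀, ht₀, hP⟩ := exists_start hT hd 0
  obtain ⟨W, hW0, hW⟩ := vort_bound h.sol ht₀.2
  set C := max 1 (W * Real.sqrt (T - t₀)) with hCdef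
  have hC1 : 1 ≤ C := le_max_left _ _
  have hmain : ∀ b ∈ Ico t₀ T, ∀ x, nrm (vort (u b) x) ≤ C * (1 / Real.sqrt (T - b)) := by
    intro b hb x
    have hsub : ∀ t ∈ Icc t₀ b, 0 < T - t := fun t ht => by linarith [ht.2, hb.2]
    refine comp_max h ht₀.1.le hb.1 hb.2 (G := fun t => C * (1 / Real.sqrt (T - t)))
      (ρ := fun t => 1 / (2 * (T - t))) ?_ ?_ ?_ ?_ ?_ ?_ x
    · refine continuousOn_const.mul (continuousOn_const.div (by fun_prop) fun t ht => ?_)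
      exact (Real.sqrt_pos.2 (hsub t ht)).ne'
    · refine (continuousOn_const.div (by fun_prop) fun t ht => ?_).integrableOn_Icc
      have := hsub t ht
      positivity
    · intro t ht
      have := hsub t ht
      positivity
    · intro s hs
      rw [mul_assoc, int_half hs.2 hb.2]
    · intro y
      have h1 := (hW t₀ ⟨ht₀.1.le, le_rfl⟩ y).1
      have h2 : 0 < Real.sqrt (T - t₀) := Real.sqrt_pos.2 (sub_pos.2 ht₀.2)
      have h3 : W * Real.sqrt (T - t₀) ≤ C := le_max_right _ _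
      rw [mul_one_div, le_div_iff₀ h2]
      exact (mul_le_mul_of_nonneg_right h1 h2.le).trans h3
    · refine Eventually.of_forall fun t ht => ?_
      obtain ⟨⟨y, hy, hy2⟩, -⟩ := hP t ⟨ht.1.le, ht.2.trans hb.2⟩
      refine ⟨y, hy, fun hlt => hy2 (lt_of_le_of_lt ?_ hlt)⟩
      have := hsub t ⟨ht.1.le, ht.2.le⟩
      exact le_mul_of_one_le_left (by positivity) hC1
  refine ⟨⟨C, ?_⟩, ?_⟩
  · filter_upwards [Ico_mem_nhdsLT ht₀.2] with t ht x
    have := hmain t ht x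
    rwa [mul_one_div] at this
  -- finiteness of the integral
  have hint : IntegrableOn (fun t => C * (1 / Real.sqrt (T - t))) (Ioc t₀ T) := by
    have h1 : IntegrableOn (fun t => 1 / Real.sqrt (T - t)) (Ioc t₀ T) := by
      refine intervalIntegral.integrableOn_deriv_of_nonneg
        (g := fun t => -2 * Real.sqrt (T - t)) ?_ ?_ ?_
      · exact (continuous_const.mul (Real.continuous_sqrt.comp
          (continuous_const.sub continuous_id))).continuousOn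
      · intro t ht
        have hTt : 0 < T - t := sub_pos.2 ht.2
        have h2 : HasDerivAt (fun r => T - r) (-1) t := by
          simpa using (hasDerivAt_id t).const_sub T
        have h3 := (h2.sqrt hTt.ne').const_mul (-2)
        refine h3.congr_deriv ?_
        have := (Real.sqrt_pos.2 hTt).ne'
        field_simp
      · intro t ht
        have hTt : 0 < T - t := sub_pos.2 ht.2
        positivity
    exact h1.const_mul C
  have hfin2 : ∫⁻ t in Ico t₀ T, ⨆ x, ENNReal.ofReal (nrm (vort (u t) x)) < ∞ := by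
    have h1 : ∫⁻ t in Ico t₀ T, ⨆ x, ENNReal.ofReal (nrm (vort (u t) x))
        ≤ ∫⁻ t in Ico t₀ T, ENNReal.ofReal (C * (1 / Real.sqrt (T - t))) := by
      refine setLIntegral_mono' measurableSet_Ico fun t ht => ?_
      exact iSup_le fun x => ENNReal.ofReal_le_ofReal (hmain t ht x)
    refine h1.trans_lt ?_
    have h2 : IntegrableOn (fun t => C * (1 / Real.sqrt (T - t))) (Ico t₀ T) := by
      rw [integrableOn_Ico_iff_integrableOn_Ioo, ← integrableOn_Ioc_iff_integrableOn_Ioo]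
      exact hint
    exact h2.lintegral_lt_top
  have hfin1 : ∫⁻ t in Ioo 0 t₀, ⨆ x, ENNReal.ofReal (nrm (vort (u t) x)) < ∞ := by
    have h1 : ∫⁻ t in Ioo 0 t₀, ⨆ x, ENNReal.ofReal (nrm (vort (u t) x))
        ≤ ∫⁻ _t in Ioo 0 t₀, ENNReal.ofReal W := by
      refine setLIntegral_mono' measurableSet_Ioo fun t ht => ?_
      exact iSup_le fun x => ENNReal.ofReal_le_ofReal (hW t ⟨ht.1.le, ht.2.le⟩ x).1
    refine h1.trans_lt ?_
    rw [setLIntegral_const, Real.volume_Ioo]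
    exact ENNReal.mul_lt_top ENNReal.ofReal_lt_top ENNReal.ofReal_lt_top
  unfold BKMFinite
  have hsplit : Ioo 0 T ⊆ Ioo 0 t₀ ∪ Ico t₀ T := by
    intro t ht
    rcases lt_or_ge t t₀ with h1 | h1
    · exact Or.inl ⟨ht.1, h1⟩
    · exact Or.inr ⟨h1, ht.2⟩
  refine (lintegral_mono_set hsplit).trans_lt ?_
  refine (lintegral_union_le _ _ _).trans_lt ?_
  exact ENNReal.add_lt_top.2 ⟨hfin1, hfin2⟩

/-- The constant of the Type I criterion. -/
noncomputable def cI (β : ℝ) : ℝ := min 1 ((1 / (4 * Kc β)) ^ (1 / β))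

lemma cI_pos {β : ℝ} (hβ : 0 < β) : 0 < cI β := by
  have := Kc_pos hβ
  unfold cI
  positivity

/-- Type I singularities. -/
theorem type_one_loc {β : ℝ} (hβ : 0 < β) (hβ1 : β ≤ 1) (hT : 0 < T) (h : IsC2Solution T u p)
    {G F' : ℝ → ℝ} {C₁ : ℝ} (hC₁ : 1 ≤ C₁)
    (hI : ∀ᶠ t in 𝓝[<] T, ∀ x, (T - t) * nrm (vort (u t) x) ≤ C₁)
    (hd : ∀ᶠ t in 𝓝[<] T, 0 < G t ∧ 0 < F' t ∧
      (T - t) ^ (2 / 5 : ℝ) * G t * F' t ^ (2 / 5 : ℝ) ≤ cI β * C₁ ^ (2 / 5 - 1 / β) ∧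
      ∃ x, IsMaxPt u t x ∧
        (1 / Real.sqrt (T - t) < nrm (vort (u t) x) →
          Coherent (u t) x (G t) β ∧ LocalEnergyLE (u t) x (G t) (F' t))) :
    (∃ C : ℝ, ∀ᶠ t in 𝓝[<] T, ∀ x, nrm (vort (u t) x) ≤ C / Real.sqrt (T - t)) ∧
    BKMFinite T u := by
  refine half_rate hT h ?_
  have hlt : ∀ᶠ t in 𝓝[<] T, t ∈ Ioo 0 T := Ioo_mem_nhdsLT hT
  have hK := Kc_pos hβ
  have hc0 := cI_pos hβ
  have hc1 : cI β ≤ 1 := min_le_left _ _
  have hcβ : cI β ^ β ≤ 1 / (4 * Kc β) := by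
    have h1 : cI β ≤ (1 / (4 * Kc β)) ^ (1 / β) := min_le_right _ _
    calc cI β ^ β ≤ ((1 / (4 * Kc β)) ^ (1 / β)) ^ β := Real.rpow_le_rpow hc0.le h1 hβ.le
      _ = 1 / (4 * Kc β) := by
        rw [← Real.rpow_mul (by positivity), one_div_mul_cancel hβ.ne', Real.rpow_one]
  have hC0 : 0 < C₁ := by linarith
  filter_upwards [hI, hd, hlt] with t hIt hdt ht
  obtain ⟨hG0, hF0, hFN, x, hx, hx2⟩ := hdt
  refine ⟨x, hx, fun hlt1 => ?_⟩
  have hτ : 0 < T - t := sub_pos.2 ht.2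
  obtain ⟨hco, hlo⟩ := hx2 hlt1
  set τ := T - t with hτd
  set F := F' t with hFd
  set N := cI β * C₁ ^ (2 / 5 - 1 / β) with hN
  have hN0 : 0 < N := by positivity
  have hpos : 0 < nrm (vort (u t) x) := lt_trans (by positivity) hlt1
  have h1 := stretch_max h ht hx hβ hβ1 hG0 hF0 hlo hpos hco
  refine h1.trans (mul_le_mul_of_nonneg_right ?_ (Wq_nonneg _ _))
  set X := τ ^ (2 / 5 : ℝ) * G t * F ^ (2 / 5 : ℝ) with hX
  have hX0 : 0 < X := by positivity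
  set m := nrm (vort (u t) x) with hm
  have hexp : 0 ≤ 1 - 2 * β / 5 := by linarith
  have hmτ : m ≤ C₁ / τ := by
    rw [le_div_iff₀ hτ, mul_comm]
    exact hIt x
  have hFG : F ^ (2 / 5 : ℝ) * G t = X * τ ^ (-(2 / 5) : ℝ) := by
    rw [hX, Real.rpow_neg hτ.le]
    have : 0 < τ ^ (2 / 5 : ℝ) := by positivity
    field_simp
  have a1 : F ^ (2 * β / 5) * G t ^ β = X ^ β * τ ^ (-(2 * β / 5)) := by
    have e1 : F ^ (2 * β / 5) * G t ^ β = (F ^ (2 / 5 : ℝ) * G t) ^ β := by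
      rw [Real.mul_rpow (by positivity) hG0.le, ← Real.rpow_mul hF0.le]
      congr 2
      ring
    rw [e1, hFG, Real.mul_rpow hX0.le (by positivity), ← Real.rpow_mul hτ.le]
    congr 2
    ring
  have a2 : F * G t ^ (5 / 2 : ℝ) = X ^ (5 / 2 : ℝ) * τ⁻¹ := by
    have e1 : F * G t ^ (5 / 2 : ℝ) = (F ^ (2 / 5 : ℝ) * G t) ^ (5 / 2 : ℝ) := by
      rw [Real.mul_rpow (by positivity) hG0.le, ← Real.rpow_mul hF0.le]
      norm_num
    rw [e1, hFG, Real.mul_rpow hX0.le (by positivity), ← Real.rpow_mul hτ.le,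
      show (-(2 / 5) * (5 / 2) : ℝ) = -1 by norm_num, Real.rpow_neg_one]
  have a3 : m ^ (1 - 2 * β / 5) ≤ C₁ ^ (1 - 2 * β / 5) * τ ^ (-(1 - 2 * β / 5)) := by
    calc m ^ (1 - 2 * β / 5) ≤ (C₁ / τ) ^ (1 - 2 * β / 5) := Real.rpow_le_rpow hpos.le hmτ hexp
      _ = _ := by
        rw [Real.div_rpow hC0.le hτ.le, Real.rpow_neg hτ.le, div_eq_mul_inv]
  have a4 : X ^ β ≤ cI β ^ β * C₁ ^ (2 * β / 5 - 1) := by
    calc X ^ β ≤ N ^ β := Real.rpow_le_rpow hX0.le hFN hβ.le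
      _ = _ := by
        rw [hN, Real.mul_rpow hc0.le (by positivity), ← Real.rpow_mul hC0.le]
        congr 2
        field_simp
  have a5 : X ^ (5 / 2 : ℝ) ≤ cI β ^ β := by
    have hNc : N ≤ cI β := by
      have h3 : C₁ ^ (2 / 5 - 1 / β) ≤ 1 := by
        refine Real.rpow_le_one_of_one_le_of_nonpos hC₁ ?_
        have : 1 ≤ 1 / β := by rw [le_div_iff₀ hβ]; linarith
        linarith
      calc N ≤ cI β * 1 := mul_le_mul_of_nonneg_left h3 hc0.le
        _ = _ := mul_one _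
    calc X ^ (5 / 2 : ℝ) ≤ cI β ^ (5 / 2 : ℝ) :=
          Real.rpow_le_rpow hX0.le (hFN.trans hNc) (by norm_num)
      _ ≤ cI β ^ β := Real.rpow_le_rpow_of_exponent_ge hc0 hc1 (by linarith)
  have b1 : F ^ (2 * β / 5) * G t ^ β * m ^ (1 - 2 * β / 5) ≤ cI β ^ β * τ⁻¹ := by
    calc F ^ (2 * β / 5) * G t ^ β * m ^ (1 - 2 * β / 5)
        ≤ (cI β ^ β * C₁ ^ (2 * β / 5 - 1) * τ ^ (-(2 * β / 5))) *
          (C₁ ^ (1 - 2 * β / 5) * τ ^ (-(1 - 2 * β / 5))) := by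
          rw [a1]
          gcongr
      _ = cI β ^ β * (C₁ ^ (2 * β / 5 - 1) * C₁ ^ (1 - 2 * β / 5)) *
          (τ ^ (-(2 * β / 5)) * τ ^ (-(1 - 2 * β / 5))) := by ring
      _ = cI β ^ β * τ⁻¹ := by
          rw [← Real.rpow_add hC0, ← Real.rpow_add hτ]
          rw [show 2 * β / 5 - 1 + (1 - 2 * β / 5) = 0 by ring,
            show -(2 * β / 5) + -(1 - 2 * β / 5) = -1 by ring, Real.rpow_zero, Real.rpow_neg_one,
            mul_one]
  have b2 : F * G t ^ (5 / 2 : ℝ) ≤ cI β ^ β * τ⁻¹ := by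
    rw [a2]
    gcongr
  calc Kc β * (F ^ (2 * β / 5) * G t ^ β * m ^ (1 - 2 * β / 5) + F * G t ^ (5 / 2 : ℝ))
      ≤ Kc β * (cI β ^ β * τ⁻¹ + cI β ^ β * τ⁻¹) := by gcongr
    _ = 2 * Kc β * cI β ^ β * τ⁻¹ := by ring
    _ ≤ 2 * Kc β * (1 / (4 * Kc β)) * τ⁻¹ := by gcongr
    _ = 1 / (2 * τ) := by
      field_simp
      norm_num

/-- Type I singularities. -/
theorem type_one_coh {β : ℝ} (hβ : 0 < β) (hβ1 : β ≤ 1) (hT : 0 < T) (h : IsC2Solution T u p)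
    {G : ℝ → ℝ} {C₁ : ℝ} (hC₁ : 1 ≤ C₁)
    (hI : ∀ᶠ t in 𝓝[<] T, ∀ x, (T - t) * nrm (vort (u t) x) ≤ C₁)
    (hd : ∀ᶠ t in 𝓝[<] T, 1 ≤ G t ∧
      (T - t) ^ (2 / 5 : ℝ) * G t * energy (u 0) ^ (1 / 5 : ℝ) ≤ cI β * C₁ ^ (2 / 5 - 1 / β) ∧
      ∃ x, IsMaxPt u t x ∧
        (1 / Real.sqrt (T - t) < nrm (vort (u t) x) → Coherent (u t) x (G t) β)) :
    (∃ C : ℝ, ∀ᶠ t in 𝓝[<] T, ∀ x, nrm (vort (u t) x) ≤ C / Real.sqrt (T - t)) ∧
    BKMFinite T u := by
  have hlt : ∀ᶠ t in 𝓝[<] T, t ∈ Ioo 0 T := Ioo_mem_nhdsLT hT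
  have hc0 := cI_pos hβ
  have hC0 : 0 < C₁ := by linarith
  set N := cI β * C₁ ^ (2 / 5 - 1 / β) with hN
  have hN0 : 0 < N := by positivity
  set E := energy (u 0) with hE
  have hE0 : 0 ≤ E := energy_nonneg _
  rcases hE0.eq_or_lt with h0 | h0
  · refine type_one_loc hβ hβ1 hT h hC₁ (G := G)
      (F' := fun t => (N / ((T - t) ^ (2 / 5 : ℝ) * G t)) ^ (5 / 2 : ℝ)) hI ?_
    filter_upwards [hd, hlt] with t hdt ht
    obtain ⟨hG, hGE, x, hx, hx2⟩ := hdt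
    have hτ : 0 < T - t := sub_pos.2 ht.2
    have hG0 : 0 < G t := by linarith
    refine ⟨hG0, by positivity, ?_, x, hx, fun hlt1 => ⟨hx2 hlt1, ?_⟩⟩
    · have hP : 0 < (T - t) ^ (2 / 5 : ℝ) * G t := by positivity
      rw [← Real.rpow_mul (by positivity), show (5 / 2 * (2 / 5) : ℝ) = 1 by norm_num,
        Real.rpow_one, mul_div_cancel₀ _ hP.ne']
    · refine local_of_energy h ⟨ht.1.le, ht.2⟩ x hG ?_
      rw [← hE, ← h0]
      positivity
  · refine type_one_loc hβ hβ1 hT h hC₁ (G := G) (F' := fun _ => Real.sqrt E) hI ?_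
    filter_upwards [hd, hlt] with t hdt ht
    obtain ⟨hG, hGE, x, hx, hx2⟩ := hdt
    have hG0 : 0 < G t := by linarith
    refine ⟨hG0, Real.sqrt_pos.2 h0, ?_, x, hx, fun hlt1 => ⟨hx2 hlt1, ?_⟩⟩
    · have e : Real.sqrt E ^ (2 / 5 : ℝ) = E ^ (1 / 5 : ℝ) := by
        rw [Real.sqrt_eq_rpow, ← Real.rpow_mul hE0]
        norm_num
      rw [e]
      exact hGE
    · exact local_of_energy h ⟨ht.1.le, ht.2⟩ x hG (Real.sq_sqrt hE0).ge

/-- If the direction is coherent at a fixed scale at one maximum point, then the vorticity of a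
singular solution grows faster than every power `(T - t)^(-a)` with `a < 5 / (5 - 2 β)`. -/
theorem crit_power {β : ℝ} (hβ : 0 < β) (hβ1 : β ≤ 1) (hT : 0 < T) (h : IsC2Solution T u p)
    {a C G Λ : ℝ} (ha : a * (1 - 2 * β / 5) < 1) (hG : 1 ≤ G)
    (hΩ : ∀ᶠ t in 𝓝[<] T, ∀ x, (T - t) ^ a * nrm (vort (u t) x) ≤ C)
    (hyp : ∀ᶠ t in 𝓝[<] T, ∃ x, IsMaxPt u t x ∧
      (Λ < nrm (vort (u t) x) → Coherent (u t) x G β)) :
    BKMFinite T u := by
  obtain ⟨t₀, ht₀, hP⟩ := exists_start hT (hΩ.and hyp) 0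
  have hC0 : 0 ≤ C := by
    have h1 := ((hP t₀ ⟨le_rfl, ht₀.2⟩).1.1) 0
    have h2 : 0 < T - t₀ := sub_pos.2 ht₀.2
    exact le_trans (mul_nonneg (by positivity) (nrm_nonneg _)) h1
  have ht₀' : t₀ ∈ Ico 0 T := ⟨ht₀.1.le, ht₀.2⟩
  suffices hs : ∃ C' : ℝ, ∀ t ∈ Ioo t₀ T, ∀ x, nrm (vort (u t) x) ≤ C' by
    obtain ⟨C', hC'⟩ := hs
    exact bkm_of_bounded h ht₀' hC'
  refine crit_bound h (G := fun _ => G) (Ω := fun t => C * (T - t) ^ (-a)) (Λ := Λ)
    hβ hβ1 ht₀' ?_ ?_ ?_ ?_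
  · intro t ht x
    have h1 := ((hP t ⟨ht.1.le, ht.2⟩).1.1) x
    have h2 : 0 < T - t := sub_pos.2 ht.2
    rw [Real.rpow_neg h2.le, ← div_eq_mul_inv, le_div_iff₀ (by positivity), mul_comm]
    exact h1
  · have h1 : IntervalIntegrable (fun s : ℝ => s ^ (-(a * (1 - 2 * β / 5)))) volume 0 (T - t₀) :=
      intervalIntegral.intervalIntegrable_rpow' (by linarith)
    have h2 := h1.comp_sub_left T
    rw [sub_zero, sub_sub_cancel] at h2
    have h3 : IntegrableOn (fun t : ℝ => (T - t) ^ (-(a * (1 - 2 * β / 5)))) (Ioo t₀ T) := by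
      rw [← integrableOn_Ioc_iff_integrableOn_Ioo]
      exact h2.2
    have h4 := h3.const_mul (G ^ β * C ^ (1 - 2 * β / 5))
    refine IntegrableOn.congr_fun h4 (fun t ht => ?_) measurableSet_Ioo
    have h5 : 0 < T - t := sub_pos.2 ht.2
    rw [Real.mul_rpow hC0 (by positivity), ← Real.rpow_mul h5.le,
      show -a * (1 - 2 * β / 5) = -(a * (1 - 2 * β / 5)) by ring]
    ring
  · exact integrableOn_const (by rw [Real.volume_Ioo]; exact ENNReal.ofReal_ne_top)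
  · refine Eventually.of_forall fun t ht => ⟨hG, ?_⟩
    exact (hP t ⟨ht.1.le, ht.2⟩).1.2

end Pool.Agent.N245.EulerLoc
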