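import Pool.Agent.N245.NsSob

/-!
# Estimates for smooth periodic fields at a fixed time
-/

set_option autoImplicit false

open MeasureTheory Set Filter
open scoped ENNReal NNReal Topology ContDiff

namespace Pool.Agent.N245.NS

open Pool.Agent.H708R2.EulerSign (grad divergence)
open Pool.Agent.H708R2.EulerTypeI (nrm vort)
open Pool.Agent.H708R2.EulerTypeI Pool.Agent.W786.Dir Pool.Agent.N245.EulerLoc
open H459R3.NS hiding nrm nrm_sq nrm_nonneg

/-- Balls and the period cell. -/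
lemma ball_cube {g : V → ℝ} (hg : Continuous g) (hp : Per g) (h0 : ∀ y, 0 ≤ g y) (x : V) {ρ : ℝ}
    (hρ : ρ ≤ 1 / 2) : ∫ y in B x ρ, g y ≤ ∫ y in cube, g y := by
  set c : V := fun i => x i - 1 / 2 with hc
  have hsub : B x ρ ⊆ (fun y : V => y - c) ⁻¹' cube := by
    intro y hy
    rw [mem_preimage]
    unfold H459R3.NS.cube
    rw [mem_Icc, Pi.le_def, Pi.le_def]
    have h1 : ∀ i, |y i - x i| < 1 / 2 := fun i =>
      ((abs_le_nrm (y - x) i).trans_lt hy).trans_le hρ
    constructor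
    · intro i
      have := (abs_lt.1 (h1 i)).1
      simp only [Pi.sub_apply, Pi.zero_apply, hc]
      linarith
    · intro i
      have := (abs_lt.1 (h1 i)).2
      simp only [Pi.sub_apply, Pi.one_apply, hc]
      linarith
  have hcube : IsCompact cube := by
    unfold H459R3.NS.cube
    exact isCompact_Icc
  have hcomp : IsCompact ((fun y : V => y - c) ⁻¹' cube) := by
    have e : (fun y : V => y - c) ⁻¹' cube = (fun y : V => y + c) '' cube := by
      ext y
      constructor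
      · intro hy
        exact ⟨y - c, hy, sub_add_cancel y c⟩
      · rintro ⟨z, hz, rfl⟩
        rw [mem_preimage]
        simpa using hz
    rw [e]
    exact hcube.image (by fun_prop)
  have h1 : ∫ y in B x ρ, g y ≤ ∫ y in (fun y : V => y - c) ⁻¹' cube, g y :=
    setIntegral_mono_set (hg.continuousOn.integrableOn_compact hcomp)
      (Eventually.of_forall h0) hsub.eventuallyLE
  refine h1.trans (le_of_eq ?_)
  have hmp : MeasurePreserving (fun y : V => y - c) volume volume := measurePreserving_sub_right _ c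
  have hemb : MeasurableEmbedding fun y : V => y - c := measurableEmbedding_subRight c
  have h2 := hmp.setIntegral_preimage_emb hemb (fun y => g (y + c)) cube
  simp only [sub_add_cancel] at h2
  rw [h2]
  exact Pool.Agent.R210.int_shift hp c

section

variable {v : V → V} (hv : ∀ i, SP (fun y => v y i))

include hv in
lemma v_smooth : ContDiff ℝ ∞ v := contDiff_pi.2 fun i => (hv i).smooth

include hv in
lemma v_two : ContDiff ℝ 2 v := (v_smooth hv).of_le (by norm_cast)

include hv in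
lemma grad_eq (y : V) (i j : Fin 3) : grad v y i j = pd j (fun y => v y i) y := by
  have h2 : HasFDerivAt v (fderiv ℝ v y) y :=
    (((v_two hv).differentiable two_ne_zero) y).hasFDerivAt
  have h3 := (hasFDerivAt_pi'.1 h2 i).fderiv
  unfold H459R3.NS.pd
  rw [h3]
  rfl

include hv in
lemma div_eq (hdiv : ∀ x, ∑ i, pd i (fun y => v y i) x = 0) (x : V) : divergence v x = 0 := by
  unfold Pool.Agent.H708R2.EulerSign.divergence
  rw [Matrix.trace]
  simp only [Matrix.diag_apply, grad_eq hv]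
  exact hdiv x

include hv in
lemma vort_i (y : V) (i : Fin 3) : vort v y i = Pool.Agent.R210.cu v y i := by
  unfold Pool.Agent.H708R2.EulerTypeI.vort Pool.Agent.R210.cu
  simp only [grad_eq hv]

include hv in
lemma sp_vort (i : Fin 3) : SP (fun y => vort v y i) := by
  have e : (fun y => vort v y i) = fun y =>
      pd (Pool.Agent.R210.ia i) (fun y => v y (Pool.Agent.R210.ib i)) y -
        pd (Pool.Agent.R210.ib i) (fun y => v y (Pool.Agent.R210.ia i)) y := by
    funext y
    rw [vort_i hv, Pool.Agent.R210.cu_ab]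
  rw [e]
  exact ((hv _).pd _).sub ((hv _).pd _)

include hv in
lemma gsq_eq (y : V) : gsq v y = ∑ i, ∑ j, pd j (fun y => v y i) y ^ 2 := by
  unfold gsq
  simp only [grad_eq hv]

include hv in
lemma per_gsq : Per (gsq v) := by
  intro i x
  rw [gsq_eq hv, gsq_eq hv]
  refine Finset.sum_congr rfl fun k _ => Finset.sum_congr rfl fun j _ => ?_
  rw [((hv k).pd j).per i x]

include hv in
lemma int_gsq : ∫ y in cube, gsq v y = enstrophy v := by
  unfold H459R3.NS.enstrophy
  simp only [gsq_eq hv]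
  have hi : ∀ i j, IntegrableOn (fun y => pd j (fun y => v y i) y ^ 2) cube := fun i j =>
    integrableOn_cube (((hv i).pd j).cont.pow 2)
  rw [integral_finsetSum _ fun i _ => integrable_finsetSum _ fun j _ => hi i j]
  refine Finset.sum_congr rfl fun i _ => ?_
  rw [integral_finsetSum _ fun j _ => hi i j]

lemma vort_sq_le (v : V → V) (y : V) : nrm (vort v y) ^ 2 ≤ 2 * gsq v y := by
  rw [nrm_sq]
  unfold gsq Pool.Agent.H708R2.EulerTypeI.vort
  simp only [dotProduct, Fin.sum_univ_three, Matrix.cons_val_zero, Matrix.cons_val_one,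
    Matrix.cons_val]
  nlinarith [sq_nonneg (grad v y 2 1 + grad v y 1 2), sq_nonneg (grad v y 0 2 + grad v y 2 0),
    sq_nonneg (grad v y 1 0 + grad v y 0 1), sq_nonneg (grad v y 0 0), sq_nonneg (grad v y 1 1),
    sq_nonneg (grad v y 2 2)]

include hv in
/-- the local `L²` norm of the vorticity and of the gradient -/
lemma loc_gsq (x : V) {ρ : ℝ} (hρ : ρ ≤ 1 / 2) : ∫ y in B x ρ, gsq v y ≤ enstrophy v := by
  rw [← int_gsq hv]
  exact ball_cube (gsq_cont (v_two hv)) (per_gsq hv) (gsq_nonneg v) x hρ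

include hv in
lemma loc_vort (x : V) {ρ : ℝ} (hρ : ρ ≤ 1 / 2) :
    ∫ y in B x ρ, nrm (vort v y) ^ 2 ≤ 2 * enstrophy v := by
  have h1 : ∫ y in B x ρ, nrm (vort v y) ^ 2 ≤ ∫ y in B x ρ, 2 * gsq v y := by
    refine setIntegral_mono_on ?_ ?_ (B_open x ρ).measurableSet fun y _ => vort_sq_le v y
    · exact B_int ((nrm_cont.comp (vort_cont (v_two hv))).pow 2) x ρ
    · exact B_int (continuous_const.mul (gsq_cont (v_two hv))) x ρ
  refine h1.trans ?_
  rw [integral_const_mul]
  exact mul_le_mul_of_nonneg_left (loc_gsq hv x hρ) (by norm_num)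

end

/-! ### One component -/

lemma comp_int (v : V → V) (i : Fin 3) : ∫ y in cube, v y i ^ 2 ≤ energy v := by
  unfold H459R3.NS.energy
  exact Finset.single_le_sum (f := fun i => ∫ x in cube, v x i ^ 2)
    (fun _ _ => integral_nonneg fun _ => sq_nonneg _) (Finset.mem_univ i)

lemma int_gs {f : V → ℝ} (hf : SP f) :
    ∫ y in cube, gs f y = ∑ j, ∫ y in cube, pd j f y ^ 2 := by
  unfold gs
  exact integral_finsetSum (μ := volume.restrict cube) (f := fun j y => pd j f y ^ 2)
    Finset.univ fun j _ => integrableOn_cube ((hf.pd j).cont.pow 2)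

lemma comp_gs {v : V → V} (hv : ∀ i, SP (fun y => v y i)) (i : Fin 3) :
    ∫ y in cube, gs (fun y => v y i) y ≤ enstrophy v := by
  rw [int_gs (hv i)]
  unfold H459R3.NS.enstrophy
  exact Finset.single_le_sum (f := fun i => ∑ j, ∫ x in cube, pd j (fun y => v y i) x ^ 2)
    (fun _ _ => Finset.sum_nonneg fun _ _ => integral_nonneg fun _ => sq_nonneg _)
    (Finset.mem_univ i)

lemma comp_lap (v : V → V) (i : Fin 3) :
    ∫ y in cube, lap (fun y => v y i) y ^ 2 ≤ palin v := by
  unfold H459R3.NS.palin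
  exact Finset.single_le_sum (f := fun i => ∫ x in cube, lap (fun y => v y i) x ^ 2)
    (fun _ _ => integral_nonneg fun _ => sq_nonneg _) (Finset.mem_univ i)

lemma per_gs {f : V → ℝ} (hf : SP f) : Per (gs f) := by
  intro i x
  unfold gs
  refine Finset.sum_congr rfl fun j _ => ?_
  rw [(hf.pd j).per i x]

lemma per_sq {f : V → ℝ} (hf : SP f) : Per (fun y => f y ^ 2) := by
  intro i x
  simp only [hf.per i x]

/-- sup estimate for periodic functions -/
lemma sup_per {f : V → ℝ} (hf : SP f) {F L ρ : ℝ} (hρ : 0 < ρ) (hρ1 : ρ ≤ 1 / 2) (hF : 0 < F)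
    (hL : 0 < L) (h0 : ∫ y in cube, f y ^ 2 ≤ F ^ 2) (h2 : ∫ y in cube, lap f y ^ 2 ≤ L ^ 2)
    (x : V) : |f x| ≤ c2 * (F * ρ ^ (-(3 / 2) : ℝ) + L * ρ ^ (1 / 2 : ℝ)) :=
  sup_loc (hf.smooth.of_le (by norm_cast)) hρ hF hL
    ((ball_cube (hf.cont.pow 2) (per_sq hf) (fun _ => sq_nonneg _) x hρ1).trans h0)
    ((ball_cube (hf.lap.cont.pow 2) (per_sq hf.lap) (fun _ => sq_nonneg _) x hρ1).trans h2)

/-- Agmon's estimate for periodic functions -/
lemma agm_per {f : V → ℝ} (hf : SP f) {F D L r : ℝ} (hr : 0 < r) (hr1 : r ≤ 1 / 2) (hF : 0 < F)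
    (hD : 0 < D) (hL : 0 < L) (h0 : ∫ y in cube, f y ^ 2 ≤ F ^ 2)
    (h1 : ∫ y in cube, gs f y ≤ D ^ 2) (h2 : ∫ y in cube, lap f y ^ 2 ≤ L ^ 2) (x : V) :
    |f x| ≤ 2 * c2 * (F * (1 / 2 : ℝ) ^ (-(3 / 2) : ℝ) + D * r ^ (-(1 / 2) : ℝ)
      + L * r ^ (1 / 2 : ℝ)) :=
  agm_loc (hf.smooth.of_le (by norm_cast)) hr hr1 hF hD hL
    ((ball_cube (hf.cont.pow 2) (per_sq hf) (fun _ => sq_nonneg _) x le_rfl).trans h0)
    ((ball_cube (gs_cont (hf.smooth.of_le (by norm_cast))) (per_gs hf) (gs_nonneg _) x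
      le_rfl).trans h1)
    ((ball_cube (hf.lap.cont.pow 2) (per_sq hf.lap) (fun _ => sq_nonneg _) x le_rfl).trans h2)

lemma sq_rpow_half {r : ℝ} (hr : 0 ≤ r) : (r ^ (1 / 2 : ℝ)) ^ 2 = r := by
  rw [← Real.rpow_natCast, ← Real.rpow_mul hr]
  norm_num

/-- The velocity is bounded by Agmon's estimate. -/
lemma vel_sq {v : V → V} (hv : ∀ i, SP (fun y => v y i)) (x : V) (i : Fin 3) {E : ℝ}
    (hE : energy v ≤ E) :
    v x i ^ 2 ≤ 12 * c2 ^ 2 * (8 * (1 + E) + 3 * (Real.sqrt (1 + enstrophy v) *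
      Real.sqrt (1 + enstrophy v + palin v))) := by
  set y := enstrophy v with hy
  set p := palin v with hp
  have hy0 : 0 ≤ y := enstrophy_nonneg _
  have hp0 : 0 ≤ p := palin_nonneg _
  have hE0 : 0 ≤ E := (energy_nonneg v).trans hE
  set α := Real.sqrt (1 + y) with hα
  set κ := Real.sqrt (1 + y + p) with hκ
  have hα1 : 1 ≤ α := by rw [hα]; exact Real.one_le_sqrt.2 (by linarith)
  have hακ : α ≤ κ := Real.sqrt_le_sqrt (by linarith)
  have hα0 : 0 < α := by linarith
  have hκ0 : 0 < κ := by linarith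
  have hα2 : α ^ 2 = 1 + y := Real.sq_sqrt (by linarith)
  have hκ2 : κ ^ 2 = 1 + y + p := Real.sq_sqrt (by linarith)
  set r := α / (2 * κ) with hr
  have hr0 : 0 < r := by positivity
  have hr1 : r ≤ 1 / 2 := by
    rw [hr, div_le_iff₀ (by positivity)]
    linarith
  set F := Real.sqrt (1 + E) with hF
  have hF2 : F ^ 2 = 1 + E := Real.sq_sqrt (by linarith)
  have hF0 : 0 < F := Real.sqrt_pos.2 (by linarith)
  set L := Real.sqrt (1 + p) with hL
  have hL2 : L ^ 2 = 1 + p := Real.sq_sqrt (by linarith)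
  have hL0 : 0 < L := Real.sqrt_pos.2 (by linarith)
  have h1 := agm_per (hv i) hr0 hr1 hF0 hα0 hL0
    (by rw [hF2]; exact ((comp_int v i).trans hE).trans (by linarith))
    (by rw [hα2]; exact (comp_gs hv i).trans (by linarith))
    (by rw [hL2]; exact (comp_lap v i).trans (by linarith)) x
  have hc2 := c2_pos
  set A := F * (1 / 2 : ℝ) ^ (-(3 / 2) : ℝ) with hA
  set D := α * r ^ (-(1 / 2) : ℝ) with hD
  set S := L * r ^ (1 / 2 : ℝ) with hS
  have hA2 : A ^ 2 = 8 * (1 + E) := by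
    have e : ((1 / 2 : ℝ) ^ (-(3 / 2) : ℝ)) ^ 2 = 8 := by
      rw [← Real.rpow_natCast, ← Real.rpow_mul (by norm_num)]
      norm_num
    rw [hA, mul_pow, e, hF2]
    ring
  have hD2 : D ^ 2 = 2 * (α * κ) := by
    have e : (r ^ (-(1 / 2) : ℝ)) ^ 2 = r⁻¹ := by
      rw [← Real.rpow_natCast, ← Real.rpow_mul hr0.le, ← Real.rpow_neg_one]
      norm_num
    rw [hD, mul_pow, e, hr]
    field_simp
  have hS2 : S ^ 2 ≤ α * κ := by
    rw [hS, mul_pow, sq_rpow_half hr0.le, hL2, hr, mul_div_assoc', div_le_iff₀ (by positivity)]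
    have : 1 + p ≤ κ ^ 2 := by rw [hκ2]; linarith
    nlinarith [mul_le_mul_of_nonneg_right this hα0.le, mul_pos hα0 (mul_pos hκ0 hκ0)]
  have h2 : v x i ^ 2 ≤ (2 * c2 * (A + D + S)) ^ 2 := by
    rw [← sq_abs]
    exact pow_le_pow_left₀ (abs_nonneg _) h1 2
  refine h2.trans ?_
  have h3 : (A + D + S) ^ 2 ≤ 3 * (A ^ 2 + D ^ 2 + S ^ 2) := by
    nlinarith [sq_nonneg (A - D), sq_nonneg (A - S), sq_nonneg (D - S)]
  calc (2 * c2 * (A + D + S)) ^ 2 = 4 * c2 ^ 2 * (A + D + S) ^ 2 := by ring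
    _ ≤ 4 * c2 ^ 2 * (3 * (8 * (1 + E) + 2 * (α * κ) + α * κ)) := by
      refine mul_le_mul_of_nonneg_left ?_ (by positivity)
      rw [hA2, hD2] at h3
      linarith
    _ = _ := by ring

/-! ### The vorticity -/

lemma lap_pd {f : V → ℝ} (hf : SP f) (i : Fin 3) (x : V) : lap (pd i f) x = pd i (lap f) x := by
  unfold H459R3.NS.lap
  rw [pd_sum fun j _ => (hf.pd j).pd j]
  refine Finset.sum_congr rfl fun j _ => ?_
  have h1 : pd j (pd i f) = pd i (pd j f) := pd_comm hf j i
  rw [h1, pd_comm (hf.pd j) j i]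

lemma int_pd_lap {v : V → V} (i j : Fin 3) :
    ∫ y in cube, pd j (lap (fun y => v y i)) y ^ 2 ≤ third v := by
  unfold H459R3.NS.third
  refine (Finset.single_le_sum (f := fun m => ∫ x in cube, pd m (lap (fun y => v y i)) x ^ 2)
    (fun _ _ => integral_nonneg fun _ => sq_nonneg _) (Finset.mem_univ j)).trans ?_
  exact Finset.single_le_sum (f := fun i => ∑ m, ∫ x in cube, pd m (lap (fun y => v y i)) x ^ 2)
    (fun _ _ => Finset.sum_nonneg fun _ _ => integral_nonneg fun _ => sq_nonneg _)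
    (Finset.mem_univ i)

lemma int_pd {v : V → V} (i j : Fin 3) :
    ∫ y in cube, pd j (fun y => v y i) y ^ 2 ≤ enstrophy v := by
  unfold H459R3.NS.enstrophy
  refine (Finset.single_le_sum (f := fun m => ∫ x in cube, pd m (fun y => v y i) x ^ 2)
    (fun _ _ => integral_nonneg fun _ => sq_nonneg _) (Finset.mem_univ j)).trans ?_
  exact Finset.single_le_sum (f := fun i => ∑ m, ∫ x in cube, pd m (fun y => v y i) x ^ 2)
    (fun _ _ => Finset.sum_nonneg fun _ _ => integral_nonneg fun _ => sq_nonneg _)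
    (Finset.mem_univ i)

/-- every derivative of the velocity is bounded -/
lemma grad_sq {v : V → V} (hv : ∀ i, SP (fun y => v y i)) (x : V) (i j : Fin 3) :
    pd j (fun y => v y i) x ^ 2 ≤ 18 * c2 ^ 2 * ((1 + enstrophy v) ^ (1 / 4 : ℝ) *
      (1 + enstrophy v + third v) ^ (3 / 4 : ℝ)) := by
  set y := enstrophy v with hy
  set z := third v with hz
  have hy0 : 0 ≤ y := enstrophy_nonneg _
  have hz0 : 0 ≤ z := third_nonneg _
  set a := (1 + y) ^ (1 / 4 : ℝ) with ha
  set b := (1 + y + z) ^ (1 / 4 : ℝ) with hb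
  have ha1 : 1 ≤ a := Real.one_le_rpow (by linarith) (by norm_num)
  have hab : a ≤ b := Real.rpow_le_rpow (by linarith) (by linarith) (by norm_num)
  have ha4 : a ^ 4 = 1 + y := by
    rw [ha, ← Real.rpow_natCast, ← Real.rpow_mul (by linarith)]
    norm_num
  have hb4 : b ^ 4 = 1 + y + z := by
    rw [hb, ← Real.rpow_natCast, ← Real.rpow_mul (by linarith)]
    norm_num
  have hb3 : (1 + y + z) ^ (3 / 4 : ℝ) = b ^ 3 := by
    rw [hb, ← Real.rpow_natCast, ← Real.rpow_mul (by linarith)]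
    norm_num
  have ha0 : 0 < a := by linarith
  have hb0 : 0 < b := by linarith
  set r := a / (2 * b) with hr
  have hr0 : 0 < r := by positivity
  have hr1 : r ≤ 1 / 2 := by
    rw [hr, div_le_iff₀ (by positivity)]
    linarith
  have h1 := sup_per ((hv i).pd j) (F := a ^ 2) (L := b ^ 2) hr0 hr1 (by positivity)
    (by positivity)
    (by rw [← pow_mul, ha4]; exact (int_pd i j).trans (by linarith))
    (by
      rw [← pow_mul, hb4]
      refine le_trans (le_of_eq ?_) ((int_pd_lap (v := v) i j).trans (by linarith))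
      refine setIntegral_congr_fun isCompact_Icc.measurableSet fun x _ => ?_
      simp only [lap_pd (hv i)]) x
  have hc2 := c2_pos
  set A := a ^ 2 * r ^ (-(3 / 2) : ℝ) with hA
  set S := b ^ 2 * r ^ (1 / 2 : ℝ) with hS
  have hA2 : A ^ 2 = 8 * (a * b ^ 3) := by
    have e : (r ^ (-(3 / 2) : ℝ)) ^ 2 = (r ^ 3)⁻¹ := by
      rw [← Real.rpow_natCast, ← Real.rpow_mul hr0.le, ← Real.rpow_natCast,
        ← Real.rpow_neg hr0.le]
      norm_num
    rw [hA, mul_pow, e, hr]
    field_simp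
    ring
  have hS2 : S ^ 2 ≤ a * b ^ 3 := by
    rw [hS, mul_pow, sq_rpow_half hr0.le, hr, mul_div_assoc', div_le_iff₀ (by positivity)]
    have : 0 < a * b ^ 4 := by positivity
    nlinarith
  have h2 : pd j (fun y => v y i) x ^ 2 ≤ (c2 * (A + S)) ^ 2 := by
    rw [← sq_abs]
    exact pow_le_pow_left₀ (abs_nonneg _) h1 2
  refine h2.trans ?_
  have h3 : (A + S) ^ 2 ≤ 2 * (A ^ 2 + S ^ 2) := by
    nlinarith [sq_nonneg (A - S)]
  rw [hb3]
  calc (c2 * (A + S)) ^ 2 = c2 ^ 2 * (A + S) ^ 2 := by ring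
    _ ≤ c2 ^ 2 * (2 * (8 * (a * b ^ 3) + a * b ^ 3)) := by
      refine mul_le_mul_of_nonneg_left ?_ (by positivity)
      rw [hA2] at h3
      linarith
    _ = _ := by ring

end Pool.Agent.N245.NS
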