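import Pool.Agent.N245.NsFix
import Pool.Agent.H459R3.NS.Main

/-!
# Integrability of powers of higher norms (Foias, Guillope, Temam)
-/

set_option autoImplicit false

open MeasureTheory Set Filter
open scoped ENNReal NNReal Topology ContDiff

namespace Pool.Agent.N245.NS

open H459R3.NS

/-- The velocity bound in the form used below. -/
lemma vel_bd {E : ℝ} (hE0 : 0 ≤ E) : ∃ C : ℝ, 0 < C ∧ ∀ v : V → V, (∀ i, SP (fun y => v y i)) →
    energy v ≤ E → ∃ b : ℝ, (∀ i x, |v x i| ≤ b) ∧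
      b ^ 2 ≤ C * ((1 + enstrophy v) + Real.sqrt (1 + enstrophy v) * Real.sqrt (palin v)) := by
  have hc2 := c2_pos
  refine ⟨12 * c2 ^ 2 * (8 * (1 + E) + 3), by positivity, fun v hv hE => ?_⟩
  have hy0 : 0 ≤ enstrophy v := enstrophy_nonneg _
  have hp0 : 0 ≤ palin v := palin_nonneg _
  set Y := 1 + enstrophy v with hY
  have hY1 : 1 ≤ Y := by linarith
  set S := 12 * c2 ^ 2 * (8 * (1 + E) + 3 * (Real.sqrt Y * Real.sqrt (Y + palin v))) with hS
  have hS0 : 0 ≤ S := by positivity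
  refine ⟨Real.sqrt S, fun i x => ?_, ?_⟩
  · refine Real.abs_le_sqrt ?_
    exact vel_sq hv x i hE
  · rw [Real.sq_sqrt hS0, hS]
    have h1 : Real.sqrt (Y + palin v) ≤ Real.sqrt Y + Real.sqrt (palin v) := by
      rw [Real.sqrt_le_left (by positivity)]
      have k1 : Real.sqrt Y ^ 2 = Y := Real.sq_sqrt (by linarith)
      have k2 : Real.sqrt (palin v) ^ 2 = palin v := Real.sq_sqrt hp0
      have k3 : 0 ≤ Real.sqrt Y * Real.sqrt (palin v) := by positivity
      nlinarith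
    have h2 : Real.sqrt Y * Real.sqrt Y = Y := Real.mul_self_sqrt (by linarith)
    have h3 : Real.sqrt Y * Real.sqrt (Y + palin v) ≤
        Y + Real.sqrt Y * Real.sqrt (palin v) := by
      calc Real.sqrt Y * Real.sqrt (Y + palin v)
          ≤ Real.sqrt Y * (Real.sqrt Y + Real.sqrt (palin v)) :=
            mul_le_mul_of_nonneg_left h1 (Real.sqrt_nonneg _)
        _ = _ := by rw [mul_add, h2]
    have h4 : 0 ≤ Real.sqrt Y * Real.sqrt (palin v) := by positivity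
    rw [mul_assoc (12 * c2 ^ 2) (8 * (1 + E) + 3)]
    refine mul_le_mul_of_nonneg_left ?_ (by positivity)
    have h5 : 8 * (1 + E) ≤ 8 * (1 + E) * (Y + Real.sqrt Y * Real.sqrt (palin v)) :=
      le_mul_of_one_le_right (by positivity) (by linarith)
    nlinarith

lemma nrm_le_of_sum {f : Fin 3 → V → ℝ} {P : ℝ} (hP : ∑ i, ∫ x in cube, f i x ^ 2 ≤ P)
    (i : Fin 3) : H459R3.NS.nrm (f i) ≤ Real.sqrt P := by
  unfold H459R3.NS.nrm
  refine Real.sqrt_le_sqrt (le_trans ?_ hP)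
  exact Finset.single_le_sum (f := fun i => ∫ x in cube, f i x ^ 2)
    (fun _ _ => integral_nonneg fun _ => sq_nonneg _) (Finset.mem_univ i)

/-- The enstrophy production. -/
lemma cub_est {ν E : ℝ} (hν : 0 < ν) (hE0 : 0 ≤ E) : ∃ C : ℝ, 0 < C ∧ ∀ v : V → V,
    (∀ i, SP (fun y => v y i)) → energy v ≤ E →
    -(2 * cub (fun i y => v y i)) ≤
      ν * palin v + C * ((1 + enstrophy v) ^ 2 * enstrophy v) := by
  obtain ⟨C, hC0, hC⟩ := vel_bd hE0
  set A := 5832 / ν * C with hA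
  have hA0 : 0 < A := by positivity
  refine ⟨A + A ^ 2 / (2 * ν), by positivity, fun v hv hE => ?_⟩
  obtain ⟨b, hb, hb2⟩ := hC v hv hE
  have hb0 : 0 ≤ b := (abs_nonneg _).trans (hb 0 0)
  have hy0 : 0 ≤ enstrophy v := enstrophy_nonneg _
  have hp0 : 0 ≤ palin v := palin_nonneg _
  set y := enstrophy v with hy
  set G := Real.sqrt y with hG
  set H := Real.sqrt (palin v) with hH
  have hG2 : G ^ 2 = y := Real.sq_sqrt hy0
  have hH2 : H ^ 2 = palin v := Real.sq_sqrt hp0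
  have hG0 : 0 ≤ G := Real.sqrt_nonneg _
  have hH0 : 0 ≤ H := Real.sqrt_nonneg _
  have hGH : GH (fun i y => v y i) G H := by
    refine (GH2.gh (?_ : GH2 (fun i y => v y i) G H))
    exact ⟨hv, hG0, hH0, by rw [hG2, hy]; rfl, by rw [hH2]; rfl⟩
  have h1 := abs_C3_1 (s := fun i y => v y i) hv hb hGH hGH
  rw [← cub_eq] at h1
  have h2 := (_root_.abs_le.1 h1).1
  have h3 : 108 * (b * G * H) ≤ ν / 2 * H ^ 2 + 5832 / ν * b ^ 2 * G ^ 2 := by
    have : 0 ≤ (ν * H - 108 * b * G) ^ 2 / (2 * ν) := by positivity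
    have e : (ν * H - 108 * b * G) ^ 2 / (2 * ν)
        = ν / 2 * H ^ 2 + 5832 / ν * b ^ 2 * G ^ 2 - 108 * (b * G * H) := by
      field_simp
      ring
    linarith
  set Y := 1 + y with hY
  have hY1 : 1 ≤ Y := by linarith
  set s := Real.sqrt Y with hs
  have hs2 : s ^ 2 = Y := Real.sq_sqrt (by linarith)
  have hs0 : 0 ≤ s := Real.sqrt_nonneg _
  have h4 : 5832 / ν * b ^ 2 * G ^ 2 ≤ A * (Y + s * H) * y := by
    rw [hG2]
    calc 5832 / ν * b ^ 2 * y ≤ 5832 / ν * (C * (Y + s * H)) * y := by gcongr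
      _ = _ := by rw [hA]; ring
  have h5 : A * (s * H) * y ≤ ν / 2 * H ^ 2 + A ^ 2 / (2 * ν) * (Y * y ^ 2) := by
    have : 0 ≤ (ν * H - A * s * y) ^ 2 / (2 * ν) := by positivity
    have e : (ν * H - A * s * y) ^ 2 / (2 * ν)
        = ν / 2 * H ^ 2 + A ^ 2 / (2 * ν) * (s ^ 2 * y ^ 2) - A * (s * H) * y := by
      field_simp
      ring
    rw [hs2] at e
    linarith
  have h6 : Y * y ^ 2 ≤ Y ^ 2 * y := by
    have : y ≤ Y := by linarith
    nlinarith [mul_nonneg (by linarith : 0 ≤ Y) hy0]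
  have h7 : Y * y ≤ Y ^ 2 * y := by nlinarith [mul_nonneg (by linarith : 0 ≤ Y) hy0]
  have h8 : A ^ 2 / (2 * ν) * (Y * y ^ 2) ≤ A ^ 2 / (2 * ν) * (Y ^ 2 * y) :=
    mul_le_mul_of_nonneg_left h6 (by positivity)
  have h9 : A * (Y * y) ≤ A * (Y ^ 2 * y) := mul_le_mul_of_nonneg_left h7 hA0.le
  rw [← hH2]
  nlinarith

/-- The production of `∫ |Δu|²`. -/
lemma lap_est {ν E : ℝ} (hν : 0 < ν) (hE0 : 0 ≤ E) : ∃ C : ℝ, 0 < C ∧ ∀ v : V → V,
    (∀ i, SP (fun y => v y i)) → energy v ≤ E →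
    -(2 * ∑ i, ∫ x in cube, lap (fun y => v y i) x * lap (conv (fun i y => v y i) i) x) ≤
      ν * third v + C * (((1 + enstrophy v) +
        Real.sqrt (1 + enstrophy v) * Real.sqrt (palin v)) * palin v) := by
  obtain ⟨C, hC0, hC⟩ := vel_bd hE0
  refine ⟨11664 / ν * C, by positivity, fun v hv hE => ?_⟩
  obtain ⟨b, hb, hb2⟩ := hC v hv hE
  have hp0 : 0 ≤ palin v := palin_nonneg _
  set P := Real.sqrt (palin v) with hP
  set Z := Real.sqrt (third v) with hZ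
  have hP2 : P ^ 2 = palin v := Real.sq_sqrt hp0
  have hZ2 : Z ^ 2 = third v := Real.sq_sqrt (third_nonneg _)
  have h1 := int_lap_lap_conv (v := fun i y => v y i) hv (b := b) (P := P) (Z := Z) hb
    (fun i => nrm_le_of_sum (f := fun i => lap (fun y => v y i)) le_rfl i)
    (fun i m => by
      unfold H459R3.NS.nrm
      exact Real.sqrt_le_sqrt (int_pd_lap (v := v) i m))
  have h2 := (_root_.abs_le.1 h1).1
  have h3 : 216 * (b * P * Z) ≤ ν * Z ^ 2 + 11664 / ν * b ^ 2 * P ^ 2 := by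
    have : 0 ≤ (ν * Z - 108 * b * P) ^ 2 / ν := by positivity
    have e : (ν * Z - 108 * b * P) ^ 2 / ν
        = ν * Z ^ 2 + 11664 / ν * b ^ 2 * P ^ 2 - 216 * (b * P * Z) := by
      field_simp
      ring
    linarith
  rw [← hZ2]
  have h4 : 11664 / ν * b ^ 2 * P ^ 2 ≤ 11664 / ν * C * (((1 + enstrophy v) +
        Real.sqrt (1 + enstrophy v) * P) * palin v) := by
    rw [hP2]
    calc 11664 / ν * b ^ 2 * palin v ≤ 11664 / ν * (C * ((1 + enstrophy v) +
        Real.sqrt (1 + enstrophy v) * P)) * palin v := by gcongr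
      _ = _ := by ring
  linarith

variable {ν T : ℝ} {u : ℝ → V → V} {p : ℝ → V → ℝ}

lemma third_continuousOn (h : IsSol ν T u p) :
    ContinuousOn (fun s => third (u s)) (Ico 0 T) := by
  unfold H459R3.NS.third
  refine continuousOn_finsetSum _ fun i _ => continuousOn_finsetSum _ fun m _ => ?_
  exact continuousOn_int (F := fun s x => pd m (lap (fun y => u s y i)) x ^ 2)
    ((contDiffOn_pd (f := fun s => lap (fun y => u s y i))
      (contDiffOn_lap (f := fun s y => u s y i) (h.smooth_c i)) m).continuousOn.pow 2)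

/-- First integral. -/
lemma fgt_one (h : IsSol ν T u p) (hν : 0 < ν) : ∃ C : ℝ, 0 ≤ C ∧ ∀ t ∈ Ico 0 T,
    ∫ s in (0 : ℝ)..t, (1 + palin (u s)) / (1 + enstrophy (u s)) ^ 2 ≤ C := by
  obtain ⟨C, hC0, hC⟩ := cub_est hν (energy_nonneg (u 0))
  have hE0 := energy_nonneg (u 0)
  set y : ℝ → ℝ := fun s => enstrophy (u s) with hy
  set P : ℝ → ℝ := fun s => palin (u s) with hP
  have hy0 : ∀ s, 0 ≤ y s := fun s => enstrophy_nonneg _
  have hP0 : ∀ s, 0 ≤ P s := fun s => palin_nonneg _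
  have hY : ∀ s, 1 ≤ 1 + y s := fun s => by linarith [hy0 s]
  have hT0 : ∀ t ∈ Ico 0 T, 0 ≤ t := fun t ht => ht.1
  set B := |T| + energy (u 0) / (2 * ν) with hB
  have hB0 : 0 ≤ B := by positivity
  refine ⟨|T| + (1 + C * B) / ν, by positivity, fun t ht => ?_⟩
  have hsub : Icc 0 t ⊆ Ico 0 T := fun s hs => ⟨hs.1, hs.2.trans_lt ht.2⟩
  have hyc : ContinuousOn y (Icc 0 t) := h.enstrophy_continuousOn.mono hsub
  have hPc : ContinuousOn P (Icc 0 t) := h.palin_continuousOn.mono hsub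
  have hYc : ContinuousOn (fun s => 1 + y s) (Icc 0 t) := continuousOn_const.add hyc
  have hY2c : ContinuousOn (fun s => (1 + y s) ^ 2) (Icc 0 t) := hYc.pow 2
  have hne : ∀ s, (1 + y s) ^ 2 ≠ 0 := fun s => (pow_pos (by linarith [hY s]) 2).ne'
  have hPYc : ContinuousOn (fun s => P s / (1 + y s) ^ 2) (Icc 0 t) :=
    hPc.div hY2c fun s _ => hne s
  have hd : ∀ s ∈ Ioo 0 t, HasDerivWithinAt (fun s => -(1 + y s)⁻¹)
      (-(-(-(2 * ν * palin (u s)) - 2 * cub (fun i y => u s y i)) / (1 + y s) ^ 2)) (Ioi s) s := by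
    intro s hs
    have h1 := (h.enstrophy_hasDerivAt ⟨hs.1, hs.2.trans ht.2⟩).const_add 1
    exact ((h1.inv (by linarith [hY s])).neg).hasDerivWithinAt
  have hg1 : ContinuousOn (fun s => -(ν * (P s / (1 + y s) ^ 2)) + C * (1 + y s)) (Icc 0 t) :=
    ((hPYc.const_smul ν).neg).add (hYc.const_smul C)
  have hle : ∀ s ∈ Ioo 0 t,
      (-(-(-(2 * ν * palin (u s)) - 2 * cub (fun i y => u s y i)) / (1 + y s) ^ 2)) ≤
        -(ν * (P s / (1 + y s) ^ 2)) + C * (1 + y s) := by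
    intro s hs
    have hsI : s ∈ Ico 0 T := ⟨hs.1.le, hs.2.trans ht.2⟩
    have h1 := hC (u s) (fun i => h.sp hsI i) (h.energy_le hν hsI)
    have hYp : 0 < (1 + y s) ^ 2 := by have := hY s; positivity
    have h2 : (1 + enstrophy (u s)) ^ 2 * enstrophy (u s) ≤ (1 + y s) ^ 3 := by
      show (1 + y s) ^ 2 * y s ≤ (1 + y s) ^ 3
      nlinarith [hy0 s]
    have h3 : -(2 * ν * palin (u s)) - 2 * cub (fun i y => u s y i) ≤
        -(ν * P s) + C * (1 + y s) ^ 3 := by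
      have := mul_le_mul_of_nonneg_left h2 hC0.le
      show -(2 * ν * palin (u s)) - 2 * cub (fun i y => u s y i) ≤
        -(ν * palin (u s)) + C * (1 + y s) ^ 3
      linarith
    have e1 : (-(-(-(2 * ν * palin (u s)) - 2 * cub (fun i y => u s y i)) / (1 + y s) ^ 2))
        = (-(2 * ν * palin (u s)) - 2 * cub (fun i y => u s y i)) / (1 + y s) ^ 2 := by ring
    have e2 : -(ν * (P s / (1 + y s) ^ 2)) + C * (1 + y s)
        = (-(ν * P s) + C * (1 + y s) ^ 3) / (1 + y s) ^ 2 := by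
      field_simp
    rw [e1, e2]
    exact div_le_div_of_nonneg_right h3 hYp.le
  have hfc : ContinuousOn (fun s => -(1 + y s)⁻¹) (Icc 0 t) :=
    (hYc.inv₀ fun s _ => by linarith [hY s]).neg
  have h1 := intervalIntegral.sub_le_integral_of_hasDeriv_right_of_le ht.1
    hfc hd hg1.integrableOn_Icc hle
  have i1 : IntervalIntegrable (fun s => P s / (1 + y s) ^ 2) volume 0 t :=
    hPYc.intervalIntegrable_of_Icc ht.1
  have i2 : IntervalIntegrable (fun s => 1 + y s) volume 0 t := hYc.intervalIntegrable_of_Icc ht.1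
  have i3 : IntervalIntegrable (fun s => 1 / (1 + y s) ^ 2) volume 0 t :=
    (continuousOn_const.div hY2c fun s _ => hne s).intervalIntegrable_of_Icc ht.1
  have j1 : IntervalIntegrable (fun s => -(ν * (P s / (1 + y s) ^ 2))) volume 0 t :=
    (i1.const_mul ν).neg
  have j2 : IntervalIntegrable (fun s => C * (1 + y s)) volume 0 t := i2.const_mul C
  rw [intervalIntegral.integral_add j1 j2, intervalIntegral.integral_neg, intervalIntegral.integral_const_mul,
    intervalIntegral.integral_const_mul] at h1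
  have hYint : ∫ s in (0 : ℝ)..t, (1 + y s) ≤ B := by
    rw [intervalIntegral.integral_add intervalIntegrable_const
      (hyc.intervalIntegrable_of_Icc ht.1), intervalIntegral.integral_const]
    have a1 := h.int_enstrophy hν ht
    have a2 : (t - 0) • (1 : ℝ) ≤ |T| := by
      simp only [smul_eq_mul, mul_one, sub_zero]
      exact ht.2.le.trans (le_abs_self T)
    linarith
  have h3 : 0 ≤ (1 + y t)⁻¹ := inv_nonneg.2 (by linarith [hY t])
  have h4 : (1 + y t)⁻¹ ≤ 1 := inv_le_one_of_one_le₀ (hY t)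
  have h5 : 0 ≤ (1 + y 0)⁻¹ := inv_nonneg.2 (by linarith [hY 0])
  have h6 : C * ∫ s in (0 : ℝ)..t, (1 + y s) ≤ C * B := mul_le_mul_of_nonneg_left hYint hC0.le
  have h7 : ∫ s in (0 : ℝ)..t, P s / (1 + y s) ^ 2 ≤ (1 + C * B) / ν := by
    rw [le_div_iff₀ hν]
    linarith
  have e : ∫ s in (0 : ℝ)..t, (1 + palin (u s)) / (1 + enstrophy (u s)) ^ 2 =
      (∫ s in (0 : ℝ)..t, 1 / (1 + y s) ^ 2) + ∫ s in (0 : ℝ)..t, P s / (1 + y s) ^ 2 := by
    rw [← intervalIntegral.integral_add i3 i1]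
    congr 1
    funext s
    rw [← add_div]
  rw [e]
  have h8 : ∫ s in (0 : ℝ)..t, 1 / (1 + y s) ^ 2 ≤ ∫ _s in (0 : ℝ)..t, (1 : ℝ) := by
    refine intervalIntegral.integral_mono_on ht.1 i3 intervalIntegrable_const fun s _ => ?_
    have hYp : 1 ≤ (1 + y s) ^ 2 := one_le_pow₀ (hY s)
    rw [div_le_one (by linarith)]
    exact hYp
  rw [intervalIntegral.integral_const] at h8
  have a2 : (t - 0) • (1 : ℝ) ≤ |T| := by
    simp only [smul_eq_mul, mul_one, sub_zero]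
    exact ht.2.le.trans (le_abs_self T)
  linarith

lemma root_ineq {Y P : ℝ} (hY : 1 ≤ Y) (hP : 0 ≤ P) :
    (Y + Real.sqrt Y * Real.sqrt P) * P * (1 + P) ^ (-(4 / 3) : ℝ) ≤
      2 * Y + (1 + P) ^ (1 / 3 : ℝ) := by
  set q := (1 + P) ^ (1 / 6 : ℝ) with hq
  have hq0 : 0 < q := by positivity
  have hq1 : 1 ≤ q := Real.one_le_rpow (by linarith) (by norm_num)
  have e6 : q ^ 6 = 1 + P := by
    rw [hq, ← Real.rpow_natCast, ← Real.rpow_mul (by linarith)]
    norm_num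
  have e2 : (1 + P) ^ (1 / 3 : ℝ) = q ^ 2 := by
    rw [hq, ← Real.rpow_natCast, ← Real.rpow_mul (by linarith)]
    norm_num
  have e8 : (1 + P) ^ (-(4 / 3) : ℝ) = (q ^ 8)⁻¹ := by
    rw [hq, ← Real.rpow_natCast, ← Real.rpow_mul (by linarith), ← Real.rpow_neg (by linarith)]
    norm_num
  rw [e2, e8]
  have h1 : Real.sqrt P ≤ q ^ 3 := by
    rw [Real.sqrt_le_left (by positivity)]
    nlinarith
  set s := Real.sqrt Y with hs
  have hs0 : 0 ≤ s := Real.sqrt_nonneg _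
  have hs2 : s ^ 2 = Y := Real.sq_sqrt (by linarith)
  have h2 : (Y + s * Real.sqrt P) * P ≤ (Y + s * q ^ 3) * q ^ 6 := by
    have a1 : Y + s * Real.sqrt P ≤ Y + s * q ^ 3 := by
      have := mul_le_mul_of_nonneg_left h1 hs0
      linarith
    have a2 : P ≤ q ^ 6 := by linarith
    exact mul_le_mul a1 a2 hP (by positivity)
  rw [← div_eq_mul_inv, div_le_iff₀ (by positivity)]
  refine h2.trans ?_
  have h3 : Y + s * q ^ 3 ≤ (2 * Y + q ^ 2) * q ^ 2 := by
    have a1 : s * q ≤ (Y + q ^ 2) / 2 := by nlinarith [sq_nonneg (s - q)]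
    have a2 : s * q ^ 3 ≤ (Y + q ^ 2) / 2 * q ^ 2 := by
      calc s * q ^ 3 = s * q * q ^ 2 := by ring
        _ ≤ _ := mul_le_mul_of_nonneg_right a1 (by positivity)
    have a3 : Y ≤ Y * q ^ 2 := le_mul_of_one_le_right (by linarith) (one_le_pow₀ hq1)
    nlinarith [pow_pos hq0 4]
  calc (Y + s * q ^ 3) * q ^ 6 ≤ (2 * Y + q ^ 2) * q ^ 2 * q ^ 6 :=
        mul_le_mul_of_nonneg_right h3 (by positivity)
    _ = _ := by ring

lemma third_ineq {Y P : ℝ} (hY : 1 ≤ Y) (hP : 0 ≤ P) :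
    (1 + P) ^ (1 / 3 : ℝ) ≤ (1 + P) / Y ^ 2 + Y := by
  have hY0 : 0 < Y := by linarith
  have k1 := Real.geom_mean_le_arith_mean2_weighted (w₁ := 1 / 3) (w₂ := 2 / 3)
    (p₁ := (1 + P) / Y ^ 2) (p₂ := Y) (by norm_num) (by norm_num) (by positivity) hY0.le
    (by norm_num)
  have k2 : ((1 + P) / Y ^ 2) ^ (1 / 3 : ℝ) * Y ^ (2 / 3 : ℝ) = (1 + P) ^ (1 / 3 : ℝ) := by
    rw [Real.div_rpow (by linarith) (by positivity), ← Real.rpow_natCast Y 2,
      ← Real.rpow_mul hY0.le]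
    have : ((2 : ℕ) : ℝ) * (1 / 3) = 2 / 3 := by norm_num
    rw [this, div_mul_cancel₀]
    exact (Real.rpow_pos_of_pos hY0 _).ne'
  rw [k2] at k1
  have h1 : 0 ≤ (1 + P) / Y ^ 2 := by positivity
  linarith

lemma fifth_ineq {Y P Z : ℝ} (hY : 1 ≤ Y) (hP : 0 ≤ P) (hZ : 0 ≤ Z) :
    (Y + Z) ^ (1 / 5 : ℝ) ≤ Y + Z * (1 + P) ^ (-(4 / 3) : ℝ) + (1 + P) ^ (1 / 3 : ℝ) := by
  have hP1 : 0 < 1 + P := by linarith
  set a := (1 + P) ^ (-(4 / 3) : ℝ) with ha
  have ha0 : 0 < a := by positivity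
  have ha1 : a ≤ 1 := Real.rpow_le_one_of_one_le_of_nonpos (by linarith) (by norm_num)
  set b := (1 + P) ^ (1 / 3 : ℝ) with hb
  have hb0 : 0 < b := by positivity
  have k1 := Real.geom_mean_le_arith_mean2_weighted (w₁ := 1 / 5) (w₂ := 4 / 5)
    (p₁ := (Y + Z) * a) (p₂ := b) (by norm_num) (by norm_num) (by positivity) hb0.le
    (by norm_num)
  have k2 : ((Y + Z) * a) ^ (1 / 5 : ℝ) * b ^ (4 / 5 : ℝ) = (Y + Z) ^ (1 / 5 : ℝ) := by
    rw [Real.mul_rpow (by linarith) ha0.le, mul_assoc]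
    have : a ^ (1 / 5 : ℝ) * b ^ (4 / 5 : ℝ) = 1 := by
      rw [ha, hb, ← Real.rpow_mul hP1.le, ← Real.rpow_mul hP1.le, ← Real.rpow_add hP1]
      norm_num
    rw [this, mul_one]
  rw [k2] at k1
  have h1 : Y * a ≤ Y := mul_le_of_le_one_right (by linarith) ha1
  have h2 : 0 ≤ Y * a := by positivity
  have h3 : 0 ≤ Z * a := by positivity
  nlinarith

lemma int_Y (h : IsSol ν T u p) (hν : 0 < ν) {t : ℝ} (ht : t ∈ Ico 0 T) :
    ∫ s in (0 : ℝ)..t, (1 + enstrophy (u s)) ≤ |T| + energy (u 0) / (2 * ν) := by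
  have hyc : ContinuousOn (fun s => enstrophy (u s)) (Icc 0 t) :=
    h.enstrophy_continuousOn.mono fun s hs => ⟨hs.1, hs.2.trans_lt ht.2⟩
  rw [intervalIntegral.integral_add intervalIntegrable_const
    (hyc.intervalIntegrable_of_Icc ht.1), intervalIntegral.integral_const]
  have a1 := h.int_enstrophy hν ht
  have a2 : (t - 0) • (1 : ℝ) ≤ |T| := by
    simp only [smul_eq_mul, mul_one, sub_zero]
    exact ht.2.le.trans (le_abs_self T)
  linarith

/-- Integrability of `‖Δu‖^{2/3}` and of `∫|∇Δu|² (1 + ∫|Δu|²)^{-4/3}`. -/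
lemma fgt_two (h : IsSol ν T u p) (hν : 0 < ν) : ∃ C : ℝ, 0 ≤ C ∧ ∀ t ∈ Ico 0 T,
    ∫ s in (0 : ℝ)..t, (third (u s) * (1 + palin (u s)) ^ (-(4 / 3) : ℝ)
      + (1 + palin (u s)) ^ (1 / 3 : ℝ)) ≤ C := by
  obtain ⟨C, hC0, hC⟩ := lap_est hν (energy_nonneg (u 0))
  obtain ⟨C1, hC10, hC1⟩ := fgt_one h hν
  have hE0 := energy_nonneg (u 0)
  set y : ℝ → ℝ := fun s => enstrophy (u s) with hy
  set P : ℝ → ℝ := fun s => palin (u s) with hP
  set Z : ℝ → ℝ := fun s => third (u s) with hZ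
  have hy0 : ∀ s, 0 ≤ y s := fun s => enstrophy_nonneg _
  have hP0 : ∀ s, 0 ≤ P s := fun s => palin_nonneg _
  have hP1 : ∀ s, 0 < 1 + P s := fun s => by linarith [hP0 s]
  set B := |T| + energy (u 0) / (2 * ν) with hB
  have hB0 : 0 ≤ B := by positivity
  set D := C1 + B with hD
  have hD0 : 0 ≤ D := by positivity
  refine ⟨(3 + C * (2 * B + D)) / ν + D, by positivity, fun t ht => ?_⟩
  have hsub : Icc 0 t ⊆ Ico 0 T := fun s hs => ⟨hs.1, hs.2.trans_lt ht.2⟩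
  have hyc : ContinuousOn y (Icc 0 t) := h.enstrophy_continuousOn.mono hsub
  have hPc : ContinuousOn P (Icc 0 t) := h.palin_continuousOn.mono hsub
  have hZc : ContinuousOn Z (Icc 0 t) := (third_continuousOn h).mono hsub
  have hYc : ContinuousOn (fun s => 1 + y s) (Icc 0 t) := continuousOn_const.add hyc
  have hPc1 : ContinuousOn (fun s => 1 + P s) (Icc 0 t) := continuousOn_const.add hPc
  have hr : ∀ r : ℝ, ContinuousOn (fun s => (1 + P s) ^ r) (Icc 0 t) := fun r =>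
    hPc1.rpow_const fun s _ => Or.inl (hP1 s).ne'
  have hZPc : ContinuousOn (fun s => Z s * (1 + P s) ^ (-(4 / 3) : ℝ)) (Icc 0 t) :=
    hZc.mul (hr _)
  -- the integral of `(1 + P) ^ (1/3)`
  have i0 : IntervalIntegrable (fun s => (1 + P s) ^ (1 / 3 : ℝ)) volume 0 t :=
    (hr _).intervalIntegrable_of_Icc ht.1
  have i2 : IntervalIntegrable (fun s => 1 + y s) volume 0 t := hYc.intervalIntegrable_of_Icc ht.1
  have hthird : ∫ s in (0 : ℝ)..t, (1 + P s) ^ (1 / 3 : ℝ) ≤ D := by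
    have hcc : ContinuousOn (fun s => (1 + P s) / (1 + y s) ^ 2) (Icc 0 t) :=
      hPc1.div (hYc.pow 2) fun s _ => (pow_pos (by linarith [hy0 s]) 2).ne'
    have i1 : IntervalIntegrable (fun s => (1 + P s) / (1 + y s) ^ 2) volume 0 t :=
      hcc.intervalIntegrable_of_Icc ht.1
    have a1 : ∫ s in (0 : ℝ)..t, (1 + P s) ^ (1 / 3 : ℝ) ≤
        ∫ s in (0 : ℝ)..t, ((1 + P s) / (1 + y s) ^ 2 + (1 + y s)) :=
      intervalIntegral.integral_mono_on ht.1 i0 (i1.add i2) fun s _ =>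
        third_ineq (by linarith [hy0 s]) (hP0 s)
    rw [intervalIntegral.integral_add i1 i2] at a1
    have a2 := hC1 t ht
    have a3 := int_Y h hν ht
    linarith
  -- the differential inequality
  have hd : ∀ s ∈ Ioo 0 t, HasDerivWithinAt (fun s => -3 * (1 + P s) ^ (-(1 / 3) : ℝ))
      (-3 * ((-(2 * ν * third (u s)) - 2 * ∑ i, ∫ x in cube, lap (fun y => u s y i) x
        * lap (conv (fun i y => u s y i) i) x) * (-(1 / 3)) * (1 + P s) ^ (-(1 / 3) - 1 : ℝ)))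
      (Ioi s) s := by
    intro s hs
    have h1 := (h.palin_hasDerivAt ⟨hs.1, hs.2.trans ht.2⟩).const_add 1
    exact ((h1.rpow_const (p := -(1 / 3)) (Or.inl (hP1 s).ne')).const_mul (-3)).hasDerivWithinAt
  have hg1 : ContinuousOn (fun s => -(ν * (Z s * (1 + P s) ^ (-(4 / 3) : ℝ)))
      + C * (2 * (1 + y s) + (1 + P s) ^ (1 / 3 : ℝ))) (Icc 0 t) :=
    ((continuousOn_const.mul hZPc).neg).add
      (continuousOn_const.mul ((continuousOn_const.mul hYc).add (hr _)))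
  have hle : ∀ s ∈ Ioo 0 t,
      (-3 * ((-(2 * ν * third (u s)) - 2 * ∑ i, ∫ x in cube, lap (fun y => u s y i) x
        * lap (conv (fun i y => u s y i) i) x) * (-(1 / 3)) * (1 + P s) ^ (-(1 / 3) - 1 : ℝ))) ≤
        -(ν * (Z s * (1 + P s) ^ (-(4 / 3) : ℝ)))
      + C * (2 * (1 + y s) + (1 + P s) ^ (1 / 3 : ℝ)) := by
    intro s hs
    have hsI : s ∈ Ico 0 T := ⟨hs.1.le, hs.2.trans ht.2⟩
    have h1 := hC (u s) (fun i => h.sp hsI i) (h.energy_le hν hsI)
    have e0 : (-(1 / 3) - 1 : ℝ) = -(4 / 3) := by norm_num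
    rw [e0]
    set a := (1 + P s) ^ (-(4 / 3) : ℝ) with ha
    have ha0 : 0 < a := Real.rpow_pos_of_pos (hP1 s) _
    set X := ∑ i, ∫ x in cube, lap (fun y => u s y i) x * lap (conv (fun i y => u s y i) i) x
      with hX
    have h2 := root_ineq (Y := 1 + y s) (P := P s) (by linarith [hy0 s]) (hP0 s)
    have h3 : (-(2 * ν * third (u s)) - 2 * X) * a ≤
        (-(ν * Z s) + C * (((1 + y s) + Real.sqrt (1 + y s) * Real.sqrt (P s)) * P s)) * a := by
      refine mul_le_mul_of_nonneg_right ?_ ha0.le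
      show -(2 * ν * third (u s)) - 2 * X ≤ -(ν * third (u s))
        + C * (((1 + y s) + Real.sqrt (1 + y s) * Real.sqrt (P s)) * P s)
      have h1' : -(2 * X) ≤ ν * third (u s)
        + C * (((1 + y s) + Real.sqrt (1 + y s) * Real.sqrt (P s)) * P s) := h1
      linarith
    have h4 := mul_le_mul_of_nonneg_left h2 hC0.le
    calc -3 * ((-(2 * ν * third (u s)) - 2 * X) * (-(1 / 3)) * a)
        = (-(2 * ν * third (u s)) - 2 * X) * a := by ring
      _ ≤ _ := h3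
      _ = -(ν * (Z s * a)) + C * (((1 + y s) + Real.sqrt (1 + y s) * Real.sqrt (P s)) * P s * a) := by
        ring
      _ ≤ _ := by linarith
  have hfc : ContinuousOn (fun s => -3 * (1 + P s) ^ (-(1 / 3) : ℝ)) (Icc 0 t) :=
    (hr _).const_smul (-3 : ℝ)
  have h1 := intervalIntegral.sub_le_integral_of_hasDeriv_right_of_le ht.1
    hfc hd hg1.integrableOn_Icc hle
  have i1 : IntervalIntegrable (fun s => Z s * (1 + P s) ^ (-(4 / 3) : ℝ)) volume 0 t :=
    hZPc.intervalIntegrable_of_Icc ht.1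
  have j1 : IntervalIntegrable (fun s => -(ν * (Z s * (1 + P s) ^ (-(4 / 3) : ℝ)))) volume 0 t :=
    (i1.const_mul ν).neg
  have j3 : IntervalIntegrable (fun s => 2 * (1 + y s)) volume 0 t := i2.const_mul 2
  have j2 : IntervalIntegrable (fun s => C * (2 * (1 + y s) + (1 + P s) ^ (1 / 3 : ℝ)))
    volume 0 t := (j3.add i0).const_mul C
  rw [intervalIntegral.integral_add j1 j2, intervalIntegral.integral_neg,
    intervalIntegral.integral_const_mul, intervalIntegral.integral_const_mul,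
    intervalIntegral.integral_add j3 i0, intervalIntegral.integral_const_mul] at h1
  have a3 := int_Y h hν ht
  have h3 : 0 ≤ (1 + P t) ^ (-(1 / 3) : ℝ) := (Real.rpow_pos_of_pos (hP1 t) _).le
  have h4 : 0 ≤ (1 + P 0) ^ (-(1 / 3) : ℝ) := (Real.rpow_pos_of_pos (hP1 0) _).le
  have h5 : (1 + P t) ^ (-(1 / 3) : ℝ) ≤ 1 :=
    Real.rpow_le_one_of_one_le_of_nonpos (by linarith [hP0 t]) (by norm_num)
  have h6 : C * (2 * (∫ s in (0 : ℝ)..t, (1 + y s)) + ∫ s in (0 : ℝ)..t, (1 + P s) ^ (1 / 3 : ℝ))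
      ≤ C * (2 * B + D) := mul_le_mul_of_nonneg_left (by linarith) hC0.le
  have h7 : ∫ s in (0 : ℝ)..t, Z s * (1 + P s) ^ (-(4 / 3) : ℝ) ≤ (3 + C * (2 * B + D)) / ν := by
    rw [le_div_iff₀ hν]
    linarith
  rw [intervalIntegral.integral_add i1 i0]
  linarith

/-- The theorem of Foias, Guillope and Temam for the third derivatives. -/
theorem fgt (h : IsSol ν T u p) (hν : 0 < ν) : ∃ C : ℝ, 0 ≤ C ∧ ∀ t ∈ Ico 0 T,
    ∫ s in (0 : ℝ)..t, ((1 + enstrophy (u s)) +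
      (1 + enstrophy (u s) + third (u s)) ^ (1 / 5 : ℝ)) ≤ C := by
  obtain ⟨C, hC0, hC⟩ := fgt_two h hν
  have hE0 := energy_nonneg (u 0)
  set B := |T| + energy (u 0) / (2 * ν) with hB
  have hB0 : 0 ≤ B := by positivity
  refine ⟨2 * B + C, by positivity, fun t ht => ?_⟩
  set y : ℝ → ℝ := fun s => enstrophy (u s) with hy
  set P : ℝ → ℝ := fun s => palin (u s) with hP
  set Z : ℝ → ℝ := fun s => third (u s) with hZ
  have hy0 : ∀ s, 0 ≤ y s := fun s => enstrophy_nonneg _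
  have hP0 : ∀ s, 0 ≤ P s := fun s => palin_nonneg _
  have hZ0 : ∀ s, 0 ≤ Z s := fun s => third_nonneg _
  have hP1 : ∀ s, 0 < 1 + P s := fun s => by linarith [hP0 s]
  have hsub : Icc 0 t ⊆ Ico 0 T := fun s hs => ⟨hs.1, hs.2.trans_lt ht.2⟩
  have hyc : ContinuousOn y (Icc 0 t) := h.enstrophy_continuousOn.mono hsub
  have hPc : ContinuousOn P (Icc 0 t) := h.palin_continuousOn.mono hsub
  have hZc : ContinuousOn Z (Icc 0 t) := (third_continuousOn h).mono hsub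
  have hYc : ContinuousOn (fun s => 1 + y s) (Icc 0 t) := continuousOn_const.add hyc
  have hPc1 : ContinuousOn (fun s => 1 + P s) (Icc 0 t) := continuousOn_const.add hPc
  have hr : ∀ r : ℝ, ContinuousOn (fun s => (1 + P s) ^ r) (Icc 0 t) := fun r =>
    hPc1.rpow_const fun s _ => Or.inl (hP1 s).ne'
  have i2 : IntervalIntegrable (fun s => 1 + y s) volume 0 t := hYc.intervalIntegrable_of_Icc ht.1
  have hc5 : ContinuousOn (fun s => (1 + y s + Z s) ^ (1 / 5 : ℝ)) (Icc 0 t) :=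
    (hYc.add hZc).rpow_const fun s _ => Or.inr (by norm_num)
  have i5 : IntervalIntegrable (fun s => (1 + y s + Z s) ^ (1 / 5 : ℝ)) volume 0 t :=
    hc5.intervalIntegrable_of_Icc ht.1
  have i6 : IntervalIntegrable (fun s => Z s * (1 + P s) ^ (-(4 / 3) : ℝ)
      + (1 + P s) ^ (1 / 3 : ℝ)) volume 0 t :=
    ((hZc.mul (hr _)).add (hr _)).intervalIntegrable_of_Icc ht.1
  have h1 : ∫ s in (0 : ℝ)..t, ((1 + y s) + (1 + y s + Z s) ^ (1 / 5 : ℝ)) ≤
      ∫ s in (0 : ℝ)..t, ((1 + y s) + ((1 + y s) + (Z s * (1 + P s) ^ (-(4 / 3) : ℝ)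
      + (1 + P s) ^ (1 / 3 : ℝ)))) := by
    refine intervalIntegral.integral_mono_on ht.1 (i2.add i5) (i2.add (i2.add i6)) fun s _ => ?_
    have := fifth_ineq (Y := 1 + y s) (P := P s) (Z := Z s) (by linarith [hy0 s]) (hP0 s) (hZ0 s)
    linarith
  refine h1.trans ?_
  rw [intervalIntegral.integral_add i2 (i2.add i6), intervalIntegral.integral_add i2 i6]
  have a1 := int_Y h hν ht
  have a2 := hC t ht
  have a1' : ∫ s in (0 : ℝ)..t, (1 + y s) ≤ B := a1
  have a2' : ∫ s in (0 : ℝ)..t, (Z s * (1 + P s) ^ (-(4 / 3) : ℝ)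
      + (1 + P s) ^ (1 / 3 : ℝ)) ≤ C := a2
  linarith

end Pool.Agent.N245.NS
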