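import Pool.Agent.N245.NsLoc

/-!
# The stretching rate, one-sided version

Only an upper bound of the kernel `(w · e) det(w, ω, e)` of the formula of Constantin for the
stretching rate is used.
-/

set_option autoImplicit false

open MeasureTheory Set Filter
open scoped ENNReal NNReal Topology

namespace Pool.Agent.N245.NS

open Pool.Agent.H708R2.EulerSign Pool.Agent.H708R2.EulerTypeI Pool.Agent.W786.Dir
  Pool.Agent.N245.EulerLoc

variable {v : V → V} {x₀ e : V} {r : ℝ}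

/-- increments and a bound of the derivative -/

lemma incr_one {A A' g g' : ℝ → ℝ} {a b : ℝ} (hab : a ≤ b)
    (hA : ∀ r, HasDerivAt A (A' r) r) (hgc : ContinuousOn g (Icc a b))
    (hg : ∀ r ∈ Ioo a b, HasDerivAt g (g' r) r) (hle : ∀ r ∈ Ioo a b, -A' r ≤ g' r) :
    A a - A b ≤ g b - g a := by
  have hAc : ContinuousOn A (Icc a b) := fun r _ => (hA r).continuousAt.continuousWithinAt
  have ha : a ∈ Icc a b := ⟨le_rfl, hab⟩
  have hb : b ∈ Icc a b := ⟨hab, le_rfl⟩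
  have h2 : MonotoneOn (fun r => g r + A r) (Icc a b) := by
    refine monotoneOn_of_deriv_nonneg (convex_Icc a b) (hgc.add hAc) ?_ ?_
    · intro r hr
      rw [interior_Icc] at hr
      exact ((hg r hr).add (hA r)).differentiableAt.differentiableWithinAt
    · intro r hr
      rw [interior_Icc] at hr
      rw [((hg r hr).fun_add (hA r)).deriv]
      have := hle r hr
      linarith
  have h3 := h2 ha hb hab
  simp only at h3
  linarith

lemma kern_le (he : nrm e ≤ 1) (w a : V) :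
    -((w ⬝ᵥ e) * (a ⬝ᵥ cross w e)) ≤ nrm w ^ 2 * nrm a := by
  have h1 : |w ⬝ᵥ e| ≤ nrm w := by
    refine (dot_le _ _).trans ?_
    exact mul_le_of_le_one_right (nrm_nonneg _) he
  have h2 : |a ⬝ᵥ cross w e| ≤ nrm a * nrm w := by
    refine (dot_le _ _).trans ?_
    refine mul_le_mul_of_nonneg_left ?_ (nrm_nonneg _)
    refine (nrm_cross_le _ _).trans ?_
    exact mul_le_of_le_one_right (nrm_nonneg _) he
  have h3 : |(w ⬝ᵥ e) * (a ⬝ᵥ cross w e)| ≤ nrm w * (nrm a * nrm w) := by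
    rw [abs_mul]
    exact mul_le_mul h1 h2 (abs_nonneg _) (nrm_nonneg _)
  have h4 := neg_abs_le ((w ⬝ᵥ e) * (a ⬝ᵥ cross w e))
  nlinarith

lemma kern_smul (r : ℝ) (z a : V) :
    -(((r • z) ⬝ᵥ e) * (a ⬝ᵥ cross (r • z) e)) = r ^ 2 * -((z ⬝ᵥ e) * (a ⬝ᵥ cross z e)) := by
  unfold cross
  simp only [dotProduct, Fin.sum_univ_three, Pi.smul_apply, smul_eq_mul, Matrix.cons_val_zero,
    Matrix.cons_val_one, Matrix.cons_val]
  ring

lemma kern_scale {G β K r b : ℝ} {z : V} (hβ : 0 < β) (hG : 0 < G) (hK : 0 ≤ K) (hr : 0 < r)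
    (hrb : r < b) (hz : nrm z < 1)
    (hc : ∀ y, nrm (y - x₀) < b → -(((y - x₀) ⬝ᵥ e) * (vort v y ⬝ᵥ cross (y - x₀) e)) ≤
        nrm (y - x₀) ^ 2 * ((G * nrm (y - x₀)) ^ β * nrm (vort v y) + K)) :
    -((z ⬝ᵥ e) * (vort v (x₀ + r • z) ⬝ᵥ cross z e)) ≤
      (G * r) ^ β * nrm (vort v (x₀ + r • z)) + K := by
  have e1 : x₀ + r • z - x₀ = r • z := add_sub_cancel_left _ _
  have hz0 := nrm_nonneg z
  have hn : nrm (r • z) = r * nrm z := by rw [nrm_smul, abs_of_pos hr]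
  have h1 := hc (x₀ + r • z) (by
    rw [e1, hn]
    nlinarith)
  rw [e1, kern_smul, hn] at h1
  have hr2 : 0 < r ^ 2 := by positivity
  have hω := nrm_nonneg (vort v (x₀ + r • z))
  have h2 : (r * nrm z) ^ 2 * ((G * (r * nrm z)) ^ β * nrm (vort v (x₀ + r • z)) + K) ≤
      r ^ 2 * ((G * r) ^ β * nrm (vort v (x₀ + r • z)) + K) := by
    have h3 : (G * (r * nrm z)) ^ β ≤ (G * r) ^ β := by
      refine Real.rpow_le_rpow (by positivity) ?_ hβ.le
      have : r * nrm z ≤ r * 1 := mul_le_mul_of_nonneg_left hz.le hr.le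
      rw [mul_one] at this
      exact mul_le_mul_of_nonneg_left this hG.le
    have h4 : (r * nrm z) ^ 2 ≤ r ^ 2 := by
      have : nrm z ^ 2 ≤ 1 := pow_le_one₀ hz0 hz.le
      rw [mul_pow]
      exact mul_le_of_le_one_right hr2.le this
    have h5 : 0 ≤ (G * (r * nrm z)) ^ β := Real.rpow_nonneg (by positivity) _
    refine mul_le_mul h4 ?_ (by positivity) hr2.le
    have := mul_le_mul_of_nonneg_right h3 hω
    linarith
  exact le_of_mul_le_mul_left (h1.trans h2) hr2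

/-- The derivative of the mean rate, one-sided. -/
lemma dA_one (hv : ContDiff ℝ 2 v) (hdiv : ∀ x, divergence v x = 0) {κ K : ℝ}
    (hr : 0 < r)
    (hc : ∀ z, nrm z < 1 → -((z ⬝ᵥ e) * (vort v (x₀ + r • z) ⬝ᵥ cross z e)) ≤
      κ * nrm (vort v (x₀ + r • z)) + K) :
    r * -(∫ z, P 3 z * fderiv ℝ (rate v e) (x₀ + r • z) z) ≤
      6 * (κ * J v x₀ r + K * ∫ z, P 2 z) := by
  have h1 := rate_formula hv hdiv e x₀ r
  have hcont : Continuous fun z : V => (z ⬝ᵥ e) * P 2 z * (vort v (x₀ + r • z) ⬝ᵥ cross z e) := by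
    have c1 : Continuous fun z : V => vort v (x₀ + r • z) :=
      (vort_cont hv).comp (by fun_prop)
    have c2 : Continuous fun z : V => cross z e := by
      unfold cross
      fun_prop
    have c3 : Continuous fun z : V => z ⬝ᵥ e := by
      unfold dotProduct
      fun_prop
    have c4 : Continuous fun z : V => vort v (x₀ + r • z) ⬝ᵥ cross z e := by
      unfold dotProduct
      exact continuous_finsetSum _ fun i _ =>
        ((continuous_apply i).comp c1).mul ((continuous_apply i).comp c2)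
    exact (c3.mul (P_cont 2)).mul c4
  have hint : Integrable fun z : V => (z ⬝ᵥ e) * P 2 z * (vort v (x₀ + r • z) ⬝ᵥ cross z e) := by
    refine hcont.integrable_of_hasCompactSupport ?_
    exact ((P_supp 1).mul_left (f := fun z : V => z ⬝ᵥ e)).mul_right
  have h2 : -∫ z, (z ⬝ᵥ e) * P 2 z * (vort v (x₀ + r • z) ⬝ᵥ cross z e) ≤
      κ * J v x₀ r + K * ∫ z, P 2 z := by
    unfold J
    rw [← integral_const_mul, ← integral_const_mul,
      ← integral_add ((J_cont hv 1 r).const_mul _) ((P_integrable 1).const_mul _),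
      ← integral_neg]
    refine integral_mono hint.neg (((J_cont hv 1 r).const_mul _).add
      ((P_integrable 1).const_mul _)) fun z => ?_
    show -(z ⬝ᵥ e * P 2 z * vort v (x₀ + r • z) ⬝ᵥ cross z e) ≤
      κ * (P 2 z * nrm (vort v (x₀ + r • z))) + K * P 2 z
    rcases lt_or_ge (z ⬝ᵥ z) 1 with hz | hz
    · have hb1 := hc z (nrm_lt_one hz)
      have hp := P_nonneg 2 z
      have h3 := mul_le_mul_of_nonneg_left hb1 hp
      calc -(z ⬝ᵥ e * P 2 z * vort v (x₀ + r • z) ⬝ᵥ cross z e)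
          = P 2 z * -((z ⬝ᵥ e) * (vort v (x₀ + r • z) ⬝ᵥ cross z e)) := by ring
        _ ≤ _ := h3
        _ = _ := by ring
    · have e2 : P 2 z = 0 := P_zero_of hz
      rw [e2]
      simp
  rw [mul_neg, h1]
  linarith

/-- increments, small radii -/
lemma seg_near1 (hv : ContDiff ℝ 2 v) (hdiv : ∀ x, divergence v x = 0) (he : nrm e ≤ 1)
    {G β K Ω a b : ℝ} (hβ : 0 < β) (hG : 0 < G) (ha : 0 ≤ a) (hab : a ≤ b)
    (haK : 0 < a ∨ K = 0) (hK : 0 ≤ K)
    (hc : ∀ y, nrm (y - x₀) < b →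
      -(((y - x₀) ⬝ᵥ e) * (vort v y ⬝ᵥ cross (y - x₀) e)) ≤
        nrm (y - x₀) ^ 2 * ((G * nrm (y - x₀)) ^ β * nrm (vort v y) + K))
    (hΩ : ∀ y, nrm (y - x₀) < b → nrm (vort v y) ≤ Ω) :
    AA v e x₀ a - AA v e x₀ b ≤
      6 * (∫ z, P 2 z) * Ω * G ^ β / β * (b ^ β - a ^ β) +
        6 * (∫ z, P 2 z) * K * (Real.log b - Real.log a) := by
  set I2 := ∫ z, P 2 z with hI2
  have hI2p : 0 < I2 := P_int_pos 1
  set g : ℝ → ℝ := fun r => 6 * I2 * Ω * G ^ β / β * r ^ β + 6 * I2 * K * Real.log r with hg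
  set g' : ℝ → ℝ := fun r => 6 * I2 * Ω * G ^ β / β * (β * r ^ (β - 1)) + 6 * I2 * K * r⁻¹ with hg'
  have h1 : AA v e x₀ a - AA v e x₀ b ≤ g b - g a := by
    refine incr_one (g' := g') hab (fun r => AA_deriv hv e x₀ r) ?_ ?_ ?_
    · refine (continuousOn_const.mul (Real.continuous_rpow_const hβ.le).continuousOn).add ?_
      rcases haK with h | h
      · refine continuousOn_const.mul (Real.continuousOn_log.mono fun r hr => ?_)
        exact (h.trans_le hr.1).ne'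
      · rw [h]
        simp only [mul_zero, zero_mul]
        exact continuousOn_const
    · intro r hr
      have hr0 : 0 < r := ha.trans_lt hr.1
      exact ((Real.hasDerivAt_rpow_const (Or.inl hr0.ne')).const_mul _).add
        ((Real.hasDerivAt_log hr0.ne').const_mul _)
    · intro r hr
      have hr0 : 0 < r := ha.trans_lt hr.1
      have h2 := dA_one (x₀ := x₀) hv hdiv (κ := (G * r) ^ β) (K := K) hr0
        (fun z hz => kern_scale hβ hG hK hr0 hr.2 hz hc)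
      have h3 := J_sup (x₀ := x₀) hv hr0 (fun y hy => hΩ y (hy.trans hr.2))
      have e1 : r * g' r = 6 * ((G * r) ^ β * (Ω * I2) + K * I2) := by
        have e2 : r * r ^ (β - 1) = r ^ β := by
          conv_lhs => rw [← Real.rpow_one r, ← Real.rpow_mul hr0.le, one_mul, ← Real.rpow_add hr0]
          congr 1
          ring
        simp only [hg']
        rw [Real.mul_rpow hG.le hr0.le, ← e2]
        field_simp
      have h4 : r * -AA' v e x₀ r ≤ r * g' r := by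
        rw [e1]
        refine h2.trans ?_
        gcongr
      exact le_of_mul_le_mul_left h4 hr0
  refine h1.trans (le_of_eq ?_)
  simp only [hg]
  ring

/-- increments, large radii -/
lemma seg_far1 (hv : ContDiff ℝ 2 v) (hdiv : ∀ x, divergence v x = 0) (he : nrm e ≤ 1)
    {G β K W a b ρ : ℝ} (hβ : 0 < β) (hβ1 : β ≤ 1) (hG : 0 < G) (hK : 0 ≤ K) (ha : 0 < a)
    (hab : a ≤ b) (hb : b ≤ ρ)
    (hc : ∀ y, nrm (y - x₀) < b →
      -(((y - x₀) ⬝ᵥ e) * (vort v y ⬝ᵥ cross (y - x₀) e)) ≤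
        nrm (y - x₀) ^ 2 * ((G * nrm (y - x₀)) ^ β * nrm (vort v y) + K))
    (hW : 0 < W) (hE : ∫ y in B x₀ ρ, nrm (vort v y) ^ 2 ≤ W ^ 2) :
    AA v e x₀ a - AA v e x₀ b ≤
      12 * c1 * W * G ^ β * (a ^ (β - 3 / 2) - b ^ (β - 3 / 2)) +
        6 * (∫ z, P 2 z) * K * (Real.log b - Real.log a) := by
  set I2 := ∫ z, P 2 z with hI2
  have hI2p : 0 < I2 := P_int_pos 1
  have hc1 := c1_pos
  have hγ : β - 3 / 2 ≠ 0 := by intro h; linarith
  set C := 6 * c1 * W * G ^ β with hC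
  set g : ℝ → ℝ := fun r => C / (β - 3 / 2) * r ^ (β - 3 / 2) + 6 * I2 * K * Real.log r with hg
  set g' : ℝ → ℝ := fun r =>
    C / (β - 3 / 2) * ((β - 3 / 2) * r ^ (β - 3 / 2 - 1)) + 6 * I2 * K * r⁻¹ with hg'
  have h1 : AA v e x₀ a - AA v e x₀ b ≤ g b - g a := by
    refine incr_one (g' := g') hab (fun r => AA_deriv hv e x₀ r) ?_ ?_ ?_
    · have hne : ∀ r ∈ Icc a b, r ≠ 0 := fun r hr => (ha.trans_le hr.1).ne'
      refine ContinuousOn.add (continuousOn_const.mul fun r hr =>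
        (Real.continuousAt_rpow_const _ _ (Or.inl (hne r hr))).continuousWithinAt) ?_
      exact continuousOn_const.mul (Real.continuousOn_log.mono fun r hr => hne r hr)
    · intro r hr
      have hr0 : 0 < r := ha.trans hr.1
      exact ((Real.hasDerivAt_rpow_const (Or.inl hr0.ne')).const_mul _).add
        ((Real.hasDerivAt_log hr0.ne').const_mul _)
    · intro r hr
      have hr0 : 0 < r := ha.trans hr.1
      have h2 := dA_one (x₀ := x₀) hv hdiv (κ := (G * r) ^ β) (K := K) hr0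
        (fun z hz => kern_scale hβ hG hK hr0 hr.2 hz hc)
      have h3 := J_L2 (x₀ := x₀) hv hr0 (hr.2.le.trans hb) hW hE
      have e1 : r * g' r = 6 * ((G * r) ^ β * (c1 * (W * r ^ (-(3 / 2) : ℝ))) + K * I2) := by
        have e2 : r * r ^ (β - 3 / 2 - 1) = r ^ β * r ^ (-(3 / 2) : ℝ) := by
          rw [← Real.rpow_add hr0]
          conv_lhs => rw [← Real.rpow_one r, ← Real.rpow_mul hr0.le, one_mul, ← Real.rpow_add hr0]
          congr 1
          ring
        simp only [hg']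
        rw [Real.mul_rpow hG.le hr0.le]
        have e3 : C / (β - 3 / 2) * ((β - 3 / 2) * r ^ (β - 3 / 2 - 1)) =
            C * r ^ (β - 3 / 2 - 1) := by
          rw [← mul_assoc, div_mul_cancel₀ _ hγ]
        have e4 : r * (6 * I2 * K * r⁻¹) = 6 * I2 * K := by field_simp
        calc r * (C / (β - 3 / 2) * ((β - 3 / 2) * r ^ (β - 3 / 2 - 1)) + 6 * I2 * K * r⁻¹)
            = C * (r * r ^ (β - 3 / 2 - 1)) + 6 * I2 * K := by rw [e3, mul_add, e4]; ring
          _ = _ := by rw [e2, hC]; ring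
      have h4 : r * -AA' v e x₀ r ≤ r * g' r := by
        rw [e1]
        refine h2.trans ?_
        gcongr
      exact le_of_mul_le_mul_left h4 hr0
  refine h1.trans ?_
  have hb0 : 0 < b := ha.trans_le hab
  have hmono : b ^ (β - 3 / 2) ≤ a ^ (β - 3 / 2) :=
    Real.rpow_le_rpow_of_nonpos ha hab (by linarith)
  have h6 : C / (3 / 2 - β) ≤ 12 * c1 * W * G ^ β := by
    rw [div_le_iff₀ (by linarith), hC]
    have : 0 ≤ 12 * c1 * W * G ^ β := by positivity
    nlinarith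
  have h7 : C / (β - 3 / 2) = -(C / (3 / 2 - β)) := by
    rw [← div_neg, neg_sub]
  have h8 := mul_le_mul_of_nonneg_right h6 (sub_nonneg.2 hmono)
  simp only [hg, h7]
  linarith

/-- the mean rate at the outer radius -/
lemma A_out (hv : ContDiff ℝ 2 v) (he : nrm e ≤ 1) {ρ F : ℝ} (hρ : 0 < ρ) (hF : 0 < F)
    (hE : ∫ y in B x₀ ρ, nrm (v y) ^ 2 ≤ F ^ 2) :
    |AA v e x₀ ρ| ≤ 12 * c1 * (F * ρ ^ (-(5 / 2) : ℝ)) := by
  have h1 := A_le (a := 0) (x₀ := x₀) hv he hρ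
  have h2 := M_le (a := 0) (x₀ := x₀) hv.continuous hρ le_rfl hF (by simpa using hE)
  have h3 : 0 < ∫ z, P 1 z := P_int_pos 0
  have hc : (1 + ∫ z, P 1 z) / 2 ≤ 2 * c1 := by
    unfold c1
    linarith
  have h4 : 6 * M v x₀ 0 ρ / ρ ≤ 6 * (2 * c1 * (F * ρ ^ (-(3 / 2) : ℝ))) / ρ := by
    refine div_le_div_of_nonneg_right ?_ hρ.le
    refine mul_le_mul_of_nonneg_left (h2.trans ?_) (by norm_num)
    exact mul_le_mul_of_nonneg_right hc (by positivity)
  refine (h1.trans h4).trans (le_of_eq ?_)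
  have e1 : ρ ^ (-(5 / 2) : ℝ) = ρ ^ (-(3 / 2) : ℝ) / ρ := by
    rw [show (-(5 / 2) : ℝ) = -(3 / 2) - 1 by norm_num, Real.rpow_sub hρ, Real.rpow_one]
  rw [e1]
  field_simp
  ring

/-- **The stretching rate at a point where the kernel is bounded from above.** -/
theorem rate_line1 (hv : ContDiff ℝ 2 v) (hdiv : ∀ x, divergence v x = 0) (he : nrm e ≤ 1)
    {G β K Ω W F ρ r₁ Q : ℝ} (hβ : 0 < β) (hβ1 : β ≤ 1) (hG : 0 < G) (hK : 0 ≤ K) (hΩ0 : 0 < Ω)
    (hr₁ : 0 < r₁) (hr₁ρ : r₁ ≤ ρ)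
    (hc : ∀ y, nrm (y - x₀) < ρ → K < nrm (vort v y) →
      -(((y - x₀) ⬝ᵥ e) * (vort v y ⬝ᵥ cross (y - x₀) e)) ≤
        nrm (y - x₀) ^ 2 * ((G * nrm (y - x₀)) ^ β * nrm (vort v y)))
    (hQ : |AA v e x₀ r₁ - AA v e x₀ 0| ≤ c1 * Q)
    (hΩ : ∀ y, nrm (y - x₀) < ρ → nrm (vort v y) ≤ Ω)
    (hW : 0 < W) (hE : ∫ y in B x₀ ρ, nrm (vort v y) ^ 2 ≤ W ^ 2)
    (hF : 0 < F) (hE2 : ∫ y in B x₀ ρ, nrm (v y) ^ 2 ≤ F ^ 2) :
    rate v e x₀ ≤ Kn β * (G ^ β * (Ω ^ (1 - 2 * β / 3) * W ^ (2 * β / 3)) +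
      F * ρ ^ (-(5 / 2) : ℝ) + K * (Real.log ρ - Real.log r₁) + Q) := by
  have c2 : 0 < ∫ z, P 2 z := P_int_pos 1
  have c3 : 0 < ∫ z, P 3 z := P_int_pos 2
  have hc1 := c1_pos
  have hρ : 0 < ρ := hr₁.trans_le hr₁ρ
  unfold Kn
  rw [div_mul_eq_mul_div, le_div_iff₀ c3, mul_comm]
  set I2 := ∫ z, P 2 z with hI2
  set I3 := ∫ z, P 3 z with hI3
  set s := (W / Ω) ^ (2 / 3 : ℝ) with hs
  have hs0 : 0 < s := by positivity
  set X := G ^ β * (Ω ^ (1 - 2 * β / 3) * W ^ (2 * β / 3)) with hX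
  set Z := K * (Real.log ρ - Real.log r₁) with hZ
  have hGβ : 0 < G ^ β := Real.rpow_pos_of_pos hG _
  have hX0 : 0 ≤ X := by positivity
  have hQ0 : 0 ≤ Q := by
    have h := (abs_nonneg _).trans hQ
    exact nonneg_of_mul_nonneg_right h hc1
  have hlog : 0 ≤ Real.log ρ - Real.log r₁ := sub_nonneg.2 (Real.log_le_log hr₁ hr₁ρ)
  have hZ0 : 0 ≤ Z := mul_nonneg hK hlog
  have e1 : Ω * G ^ β * s ^ β = X := by
    rw [hX, hs, ← Real.rpow_mul (by positivity), Real.div_rpow hW.le hΩ0.le,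
      Real.rpow_sub hΩ0, Real.rpow_one, show (2 / 3 * β : ℝ) = 2 * β / 3 by ring]
    field_simp
  have e2 : W * G ^ β * s ^ (β - 3 / 2) = X := by
    rw [hX, hs, ← Real.rpow_mul (by positivity), Real.div_rpow hW.le hΩ0.le,
      show (2 / 3 * (β - 3 / 2) : ℝ) = 2 * β / 3 - 1 by ring,
      show (1 - 2 * β / 3 : ℝ) = -(2 * β / 3 - 1) by ring, Real.rpow_neg hΩ0.le,
      Real.rpow_sub hW, Real.rpow_one]
    field_simp
  have hcK : ∀ y, nrm (y - x₀) < ρ →
      -(((y - x₀) ⬝ᵥ e) * (vort v y ⬝ᵥ cross (y - x₀) e)) ≤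
        nrm (y - x₀) ^ 2 * ((G * nrm (y - x₀)) ^ β * nrm (vort v y) + K) := by
    intro y hy
    have hw := nrm_nonneg (y - x₀)
    have h2 : 0 ≤ (G * nrm (y - x₀)) ^ β * nrm (vort v y) :=
      mul_nonneg (Real.rpow_nonneg (mul_nonneg hG.le hw) _) (nrm_nonneg _)
    rcases lt_or_ge K (nrm (vort v y)) with h | h
    · refine (hc y hy h).trans (mul_le_mul_of_nonneg_left (by linarith) (sq_nonneg _))
    · refine (kern_le he (y - x₀) (vort v y)).trans (mul_le_mul_of_nonneg_left ?_ (sq_nonneg _))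
      linarith
  have key : AA v e x₀ r₁ - AA v e x₀ ρ ≤ 6 * I2 / β * X + 12 * c1 * X + 6 * I2 * Z := by
    rcases le_or_gt s r₁ with hle | hgt
    · have t3 := seg_far1 (x₀ := x₀) (K := K) (a := r₁) (b := ρ) hv hdiv he hβ hβ1 hG hK hr₁ hr₁ρ
        le_rfl hcK hW hE
      rw [← hI2, mul_sub] at t3
      have hmono : r₁ ^ (β - 3 / 2) ≤ s ^ (β - 3 / 2) :=
        Real.rpow_le_rpow_of_nonpos hs0 hle (by linarith)
      have hm2 : 12 * c1 * W * G ^ β * r₁ ^ (β - 3 / 2) ≤ 12 * c1 * X := by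
        rw [← e2]
        calc 12 * c1 * W * G ^ β * r₁ ^ (β - 3 / 2)
            ≤ 12 * c1 * W * G ^ β * s ^ (β - 3 / 2) := by gcongr
          _ = _ := by ring
      have hρp : 0 ≤ 12 * c1 * W * G ^ β * ρ ^ (β - 3 / 2) := by positivity
      have hXp : 0 ≤ 6 * I2 / β * X := by positivity
      have hZe : 6 * I2 * K * (Real.log ρ - Real.log r₁) = 6 * I2 * Z := by rw [hZ]; ring
      linarith
    · rcases le_or_gt s ρ with hle2 | hgt2
      · have t2 := seg_near1 (x₀ := x₀) (K := K) (a := r₁) (b := s) hv hdiv he hβ hG hr₁.le hgt.le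
          (Or.inl hr₁) hK (fun y hy => hcK y (hy.trans_le hle2)) (fun y hy => hΩ y (hy.trans_le hle2))
        have t3 := seg_far1 (x₀ := x₀) (K := K) (a := s) (b := ρ) hv hdiv he hβ hβ1 hG hK hs0 hle2
          le_rfl hcK hW hE
        rw [← hI2, mul_sub] at t3
        rw [← hI2, mul_sub] at t2
        have hm2 : 12 * c1 * W * G ^ β * s ^ (β - 3 / 2) = 12 * c1 * X := by
          rw [← e2]
          ring
        have hm1 : 6 * I2 * Ω * G ^ β / β * s ^ β = 6 * I2 / β * X := by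
          rw [← e1]
          ring
        have hρp : 0 ≤ 12 * c1 * W * G ^ β * ρ ^ (β - 3 / 2) := by positivity
        have hrp : 0 ≤ 6 * I2 * Ω * G ^ β / β * r₁ ^ β := by positivity
        have hZe : 6 * I2 * K * (Real.log ρ - Real.log s) + 6 * I2 * K * (Real.log s - Real.log r₁)
          = 6 * I2 * Z := by rw [hZ]; ring
        linarith
      · have t2 := seg_near1 (x₀ := x₀) (K := K) (a := r₁) (b := ρ) hv hdiv he hβ hG hr₁.le hr₁ρ
          (Or.inl hr₁) hK hcK hΩ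
        rw [← hI2, mul_sub] at t2
        have hmono : ρ ^ β ≤ s ^ β := Real.rpow_le_rpow hρ.le hgt2.le hβ.le
        have hm1 : 6 * I2 * Ω * G ^ β / β * ρ ^ β ≤ 6 * I2 / β * X := by
          rw [← e1]
          calc 6 * I2 * Ω * G ^ β / β * ρ ^ β ≤ 6 * I2 * Ω * G ^ β / β * s ^ β := by gcongr
            _ = _ := by ring
        have hrp : 0 ≤ 6 * I2 * Ω * G ^ β / β * r₁ ^ β := by positivity
        have hXp : 0 ≤ 12 * c1 * X := by positivity
        have hZe : 6 * I2 * K * (Real.log ρ - Real.log r₁) = 6 * I2 * Z := by rw [hZ]; ring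
        linarith
  have h0 : AA v e x₀ 0 = I3 * rate v e x₀ := AA_zero
  have s3 := (le_abs_self _).trans (A_out (x₀ := x₀) hv he hρ hF hE2)
  have s4 := (abs_le.1 hQ).1
  set Y := F * ρ ^ (-(5 / 2) : ℝ) with hY
  have hY0 : 0 ≤ Y := by positivity
  have hβ' : 0 ≤ 6 * I2 / β := by positivity
  have hexp : (6 * I2 / β + 12 * c1 + 6 * I2) * (X + Y + Z + Q) =
      6 * I2 / β * X + 6 * I2 / β * Y + 6 * I2 / β * Z + 6 * I2 / β * Q +
      12 * c1 * X + 12 * c1 * Y + 12 * c1 * Z + 12 * (c1 * Q) +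
      6 * (I2 * X) + 6 * (I2 * Y) + 6 * I2 * Z + 6 * (I2 * Q) := by ring
  rw [hexp, ← h0]
  have p2 := mul_nonneg hβ' hY0
  have p3 := mul_nonneg hβ' hZ0
  have p4 := mul_nonneg hβ' hQ0
  have p6 := mul_nonneg hc1.le hZ0
  have p7 := mul_nonneg hc1.le hQ0
  have p8 := mul_nonneg c2.le hX0
  have p9 := mul_nonneg c2.le hY0
  have p10 := mul_nonneg c2.le hQ0
  linarith

end Pool.Agent.N245.NS
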