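import Pool.Agent.N245.NsCube
import Pool.Agent.N245.NsLoc1

/-!
# The stretching rate at a point of maximal vorticity
-/

set_option autoImplicit false

open MeasureTheory Set Filter
open scoped ENNReal NNReal Topology ContDiff

namespace Pool.Agent.N245.NS

open Pool.Agent.H708R2.EulerSign (grad divergence)
open Pool.Agent.H708R2.EulerTypeI (nrm vort)
open Pool.Agent.H708R2.EulerTypeI Pool.Agent.W786.Dir Pool.Agent.N245.EulerLoc
open H459R3.NS hiding nrm nrm_sq nrm_nonneg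

variable {v : V → V} (hv : ∀ i, SP (fun y => v y i)) {e : V}

include hv in
lemma vort_sup (x : V) : nrm (vort v x) ^ 2 ≤ 324 * c2 ^ 2 * ((1 + enstrophy v) ^ (1 / 4 : ℝ) *
      (1 + enstrophy v + third v) ^ (3 / 4 : ℝ)) := by
  refine (vort_sq_le v x).trans ?_
  rw [gsq_eq hv]
  set B := 18 * c2 ^ 2 * ((1 + enstrophy v) ^ (1 / 4 : ℝ) *
      (1 + enstrophy v + third v) ^ (3 / 4 : ℝ)) with hB
  have h1 : ∑ i, ∑ j, pd j (fun y => v y i) x ^ 2 ≤ ∑ _i : Fin 3, ∑ _j : Fin 3, B :=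
    Finset.sum_le_sum fun i _ => Finset.sum_le_sum fun j _ => grad_sq hv x i j
  simp only [Finset.sum_const, Finset.card_univ, Fintype.card_fin, nsmul_eq_mul] at h1
  push_cast at h1
  have e : 324 * c2 ^ 2 * ((1 + enstrophy v) ^ (1 / 4 : ℝ) *
      (1 + enstrophy v + third v) ^ (3 / 4 : ℝ)) = 18 * B := by rw [hB]; ring
  rw [e]
  linarith

include hv in
lemma rate_fun (e : V) : rate v e = fun y => ∑ i, ∑ j, (e i * e j) * pd j (fun y => v y i) y := by
  funext y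
  unfold rate
  simp only [dotProduct, Matrix.mulVec, grad_eq hv, Finset.mul_sum]
  refine Finset.sum_congr rfl fun i _ => Finset.sum_congr rfl fun j _ => ?_
  ring

lemma sp_const_mul {f : V → ℝ} (hf : SP f) (c : ℝ) : SP (fun y => c * f y) where
  smooth := contDiff_const.mul hf.smooth
  per := fun i x => by simp only [hf.per i x]

include hv in
lemma rate_sp (e : V) : SP (rate v e) := by
  rw [rate_fun hv]
  exact SP.sum fun i _ => SP.sum fun j _ => sp_const_mul ((hv i).pd j) _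

lemma pd_cmul {f : V → ℝ} (hf : SP f) (c : ℝ) (j : Fin 3) (x : V) :
    pd j (fun y => c * f y) x = c * pd j f x := by
  unfold H459R3.NS.pd
  have h : HasFDerivAt (fun y => c * f y) _ x := (hf.diff x).hasFDerivAt.const_mul c
  rw [h.fderiv]
  rfl

lemma lap_cmul {f : V → ℝ} (hf : SP f) (c : ℝ) (x : V) :
    lap (fun y => c * f y) x = c * lap f x := by
  unfold H459R3.NS.lap
  rw [Finset.mul_sum]
  refine Finset.sum_congr rfl fun j _ => ?_
  have h1 : pd j (fun y => c * f y) = fun y => c * pd j f y := funext fun y => pd_cmul hf c j y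
  rw [h1, pd_cmul (hf.pd j)]

lemma lap_fsum {ι : Type*} {s : Finset ι} {f : ι → V → ℝ} (hf : ∀ i ∈ s, SP (f i)) (x : V) :
    lap (fun y => ∑ i ∈ s, f i y) x = ∑ i ∈ s, lap (f i) x := by
  unfold H459R3.NS.lap
  rw [Finset.sum_comm]
  refine Finset.sum_congr rfl fun j _ => ?_
  have h1 : pd j (fun y => ∑ i ∈ s, f i y) = fun y => ∑ i ∈ s, pd j (f i) y :=
    funext fun y => pd_sum hf j y
  rw [h1, pd_sum fun i hi => (hf i hi).pd j]

include hv in
lemma lap_rate (e : V) (x : V) :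
    lap (rate v e) x = ∑ i, ∑ j, (e i * e j) * pd j (lap (fun y => v y i)) x := by
  rw [rate_fun hv, lap_fsum fun i _ => SP.sum fun j _ => sp_const_mul ((hv i).pd j) _]
  refine Finset.sum_congr rfl fun i _ => ?_
  rw [lap_fsum fun j _ => sp_const_mul ((hv i).pd j) _]
  refine Finset.sum_congr rfl fun j _ => ?_
  rw [lap_cmul ((hv i).pd j), lap_pd (hv i)]

include hv in
lemma int_lap_rate (he : nrm e ≤ 1) : ∫ y in cube, lap (rate v e) y ^ 2 ≤ third v := by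
  have hee : ∑ i, e i ^ 2 ≤ 1 := by
    have h1 : ∑ i, e i ^ 2 = nrm e ^ 2 := by
      rw [nrm_sq]
      simp only [dotProduct, sq]
    rw [h1]
    have := nrm_nonneg e
    nlinarith
  have hee0 : 0 ≤ ∑ i, e i ^ 2 := Finset.sum_nonneg fun _ _ => sq_nonneg _
  have hpt : ∀ y, lap (rate v e) y ^ 2 ≤ ∑ i, ∑ j, pd j (lap (fun y => v y i)) y ^ 2 := by
    intro y
    rw [lap_rate hv]
    have h1 : ∑ i, ∑ j, (e i * e j) * pd j (lap (fun y => v y i)) y =
        ∑ i, e i * ∑ j, e j * pd j (lap (fun y => v y i)) y := by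
      refine Finset.sum_congr rfl fun i _ => ?_
      rw [Finset.mul_sum]
      exact Finset.sum_congr rfl fun j _ => by ring
    rw [h1]
    have h2 := Finset.sum_mul_sq_le_sq_mul_sq Finset.univ e
      (fun i => ∑ j, e j * pd j (lap (fun y => v y i)) y)
    refine h2.trans ?_
    have h3 : ∀ i, (∑ j, e j * pd j (lap (fun y => v y i)) y) ^ 2 ≤
        ∑ j, pd j (lap (fun y => v y i)) y ^ 2 := by
      intro i
      have h4 := Finset.sum_mul_sq_le_sq_mul_sq Finset.univ e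
        (fun j => pd j (lap (fun y => v y i)) y)
      refine h4.trans ?_
      have h5 : 0 ≤ ∑ j, pd j (lap (fun y => v y i)) y ^ 2 :=
        Finset.sum_nonneg fun _ _ => sq_nonneg _
      nlinarith
    have h6 : 0 ≤ ∑ i, (∑ j, e j * pd j (lap (fun y => v y i)) y) ^ 2 :=
      Finset.sum_nonneg fun _ _ => sq_nonneg _
    calc (∑ i, e i ^ 2) * ∑ i, (∑ j, e j * pd j (lap (fun y => v y i)) y) ^ 2
        ≤ 1 * ∑ i, (∑ j, e j * pd j (lap (fun y => v y i)) y) ^ 2 :=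
          mul_le_mul_of_nonneg_right hee h6
      _ = ∑ i, (∑ j, e j * pd j (lap (fun y => v y i)) y) ^ 2 := one_mul _
      _ ≤ _ := Finset.sum_le_sum fun i _ => h3 i
  have hi : ∀ i j, IntegrableOn (fun y => pd j (lap (fun y => v y i)) y ^ 2) cube := fun i j =>
    integrableOn_cube (((hv i).lap.pd j).cont.pow 2)
  have h1 : ∫ y in cube, lap (rate v e) y ^ 2 ≤
      ∫ y in cube, ∑ i, ∑ j, pd j (lap (fun y => v y i)) y ^ 2 :=
    setIntegral_mono (integrableOn_cube ((rate_sp hv e).lap.cont.pow 2))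
      (integrable_finsetSum _ fun i _ => integrable_finsetSum _ fun j _ => hi i j) hpt
  refine h1.trans (le_of_eq ?_)
  unfold H459R3.NS.third
  rw [integral_finsetSum (f := fun i y => ∑ j, pd j (lap (fun y => v y i)) y ^ 2) _
    fun i _ => integrable_finsetSum _ fun j _ => hi i j]
  refine Finset.sum_congr rfl fun i _ => ?_
  rw [integral_finsetSum (f := fun j y => pd j (lap (fun y => v y i)) y ^ 2) _ fun j _ => hi i j]

include hv in
lemma rate_small (he : nrm e ≤ 1) (x₀ : V) {L r : ℝ} (hr : 0 < r) (hr1 : r ≤ 1 / 2) (hL : 0 < L)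
    (hz : third v ≤ L ^ 2) :
    |AA v e x₀ r - AA v e x₀ 0| ≤ c1 * (L * r ^ (1 / 2 : ℝ)) := by
  have hsp := rate_sp hv e
  exact mn_small 1 (f := rate v e) (x := x₀) (hsp.smooth.of_le (by norm_cast)) hr hr1 hL
    ((ball_cube (hsp.lap.cont.pow 2) (per_sq hsp.lap) (fun _ => sq_nonneg _) x₀ le_rfl).trans
      ((int_lap_rate hv he).trans hz))

/-- the constant of the threshold -/
noncomputable def Ct (τ : ℝ) : ℝ := 1 + (5 / (1 - τ)) ^ (1 / (1 - τ))

lemma Ct_pos {τ : ℝ} (hτ : τ < 1) : 0 < Ct τ := by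
  unfold Ct
  have : 0 < 1 - τ := by linarith
  positivity

/-- the threshold -/
lemma thr_est {Ω s θ Z : ℝ} (hΩ : 0 ≤ Ω) (hs0 : 0 < s) (hs1 : s ≤ 1) (hθ : 0 ≤ θ) (hθs : θ < s)
    (hZ : 1 ≤ Z) :
    (1 + Ω) ^ θ * Real.log Z ≤ Ct (θ / s) * (Ω ^ s + 1 + Z ^ (1 / 5 : ℝ)) := by
  set τ := θ / s with hτ
  have hτ0 : 0 ≤ τ := by positivity
  have hτ1 : τ < 1 := by rw [hτ, div_lt_one hs0]; exact hθs
  have h1τ : 0 < 1 - τ := by linarith
  have hZ0 : 0 < Z := by linarith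
  set A := (1 + Ω) ^ s with hA
  have hA0 : 0 < A := by positivity
  have hL0 : 0 ≤ Real.log Z := Real.log_nonneg hZ
  set L := Real.log Z with hL
  have e1 : (1 + Ω) ^ θ = A ^ τ := by
    rw [hA, ← Real.rpow_mul (by linarith)]
    congr 1
    rw [hτ]
    field_simp
  have e2 : (L ^ (1 / (1 - τ))) ^ (1 - τ) = L := by
    rw [← Real.rpow_mul hL0, one_div, inv_mul_cancel₀ h1τ.ne', Real.rpow_one]
  have hLp : 0 ≤ L ^ (1 / (1 - τ)) := by positivity
  have k1 := Real.geom_mean_le_arith_mean2_weighted (w₁ := τ) (w₂ := 1 - τ)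
    (p₁ := A) (p₂ := L ^ (1 / (1 - τ))) hτ0 h1τ.le hA0.le hLp (by ring)
  rw [e2, ← e1] at k1
  have k2 : L ≤ 5 / (1 - τ) * Z ^ ((1 - τ) / 5) := by
    have h := Real.log_le_rpow_div hZ0.le (ε := (1 - τ) / 5) (by positivity)
    refine h.trans (le_of_eq ?_)
    field_simp
  have k3 : L ^ (1 / (1 - τ)) ≤ (5 / (1 - τ)) ^ (1 / (1 - τ)) * Z ^ (1 / 5 : ℝ) := by
    refine (Real.rpow_le_rpow hL0 k2 (by positivity)).trans (le_of_eq ?_)
    rw [Real.mul_rpow (by positivity) (by positivity), ← Real.rpow_mul hZ0.le]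
    congr 2
    field_simp
  have k4 : A ≤ 1 + Ω ^ s := by
    have h := Real.rpow_add_le_add_rpow (zero_le_one' ℝ) hΩ hs0.le hs1
    rwa [Real.one_rpow] at h
  set M := (5 / (1 - τ)) ^ (1 / (1 - τ)) with hM
  have hM0 : 0 < M := by positivity
  have hΩs : 0 ≤ Ω ^ s := by positivity
  have hZ5 : 0 ≤ Z ^ (1 / 5 : ℝ) := by positivity
  have k5 : τ * A ≤ 1 * A := mul_le_mul_of_nonneg_right hτ1.le hA0.le
  have k6 : (1 - τ) * L ^ (1 / (1 - τ)) ≤ 1 * L ^ (1 / (1 - τ)) :=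
    mul_le_mul_of_nonneg_right (by linarith) hLp
  have k7 := mul_nonneg hM0.le hΩs
  unfold Ct
  rw [← hM]
  linarith

/-- the constant of the estimate of the stretching rate -/
noncomputable def Cr (β θ G K E : ℝ) : ℝ :=
  Kn β * (2 * G ^ β + Real.sqrt (1 + E) + 1 + K * Ct (θ / ((3 - 2 * β) / (3 - β))))

lemma Cr_pos {β θ G K E : ℝ} (hβ : 0 < β) (hβ1 : β ≤ 1) (hθ : θ < (3 - 2 * β) / (3 - β))
    (hG : 0 < G) (hK : 0 ≤ K) : 0 < Cr β θ G K E := by
  have := Kn_pos hβ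
  have h1 : 0 < 3 - β := by linarith
  have h2 : 0 < 3 - 2 * β := by linarith
  have h3 := Ct_pos (τ := θ / ((3 - 2 * β) / (3 - β))) (by
    rw [div_lt_one (by positivity)]
    exact hθ)
  unfold Cr
  positivity

lemma vel_int (hv : ∀ i, SP (fun y => v y i)) {E : ℝ} (hE : energy v ≤ E) (x : V) {ρ : ℝ}
    (hρ : ρ ≤ 1 / 2) : ∫ y in B x ρ, nrm (v y) ^ 2 ≤ E := by
  have e : (fun y => nrm (v y) ^ 2) = fun y => ∑ i, v y i ^ 2 := by
    funext y
    rw [nrm_sq]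
    simp only [dotProduct, sq]
  have hsp : SP (fun y => ∑ i, v y i ^ 2) := SP.sum fun i _ => by
    have := (hv i).mul (hv i)
    simpa only [sq] using this
  rw [e]
  refine (ball_cube hsp.cont hsp.per (fun y => Finset.sum_nonneg fun _ _ => sq_nonneg _) x
    hρ).trans (le_trans (le_of_eq ?_) hE)
  unfold H459R3.NS.energy
  exact integral_finsetSum (f := fun i y => v y i ^ 2) _ fun i _ =>
    integrableOn_cube ((hv i).cont.pow 2)

include hv in
/-- The stretching rate at a point where the vorticity is maximal. -/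
theorem rate_fix (hdiv : ∀ x, ∑ i, pd i (fun y => v y i) x = 0) (he : nrm e ≤ 1)
    {G β θ K Ω E ρ : ℝ} {x₀ : V} (hβ : 0 < β) (hβ1 : β ≤ 1) (hθ0 : 0 ≤ θ)
    (hθ : θ < (3 - 2 * β) / (3 - β)) (hG : 0 < G) (hK : 0 ≤ K) (hΩ0 : 0 < Ω) (hE : energy v ≤ E)
    (hρ : 0 < ρ) (hρ1 : ρ ≤ 1 / 2)
    (hc : ∀ y, nrm (y - x₀) < ρ → K * (1 + Ω) ^ θ < nrm (vort v y) →
      -(((y - x₀) ⬝ᵥ e) * (vort v y ⬝ᵥ cross (y - x₀) e)) ≤
        nrm (y - x₀) ^ 2 * ((G * nrm (y - x₀)) ^ β * nrm (vort v y)))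
    (hΩ : ∀ y, nrm (vort v y) ≤ Ω) :
    rate v e x₀ ≤ Cr β θ G K E * (Ω ^ ((3 - 2 * β) / (3 - β)) + ((1 + enstrophy v) +
      (1 + enstrophy v + third v) ^ (1 / 5 : ℝ)) + ρ ^ (-(5 / 2) : ℝ)) := by
  set y := enstrophy v with hy
  set z := third v with hz
  have hy0 : 0 ≤ y := enstrophy_nonneg _
  have hz0 : 0 ≤ z := third_nonneg _
  have hE0 : 0 ≤ E := (energy_nonneg v).trans hE
  set Z := 1 + y + z with hZ
  have hZ1 : 1 ≤ Z := by linarith
  have hZ0 : 0 < Z := by linarith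
  set r₁ := ρ / Z with hr₁
  have hr₁0 : 0 < r₁ := by positivity
  have hr₁ρ : r₁ ≤ ρ := div_le_self hρ.le hZ1
  set L := Real.sqrt Z with hL
  have hL0 : 0 < L := Real.sqrt_pos.2 hZ0
  have hL2 : L ^ 2 = Z := Real.sq_sqrt hZ0.le
  set W := Real.sqrt (2 * (1 + y)) with hW
  have hW0 : 0 < W := Real.sqrt_pos.2 (by linarith)
  have hW2 : W ^ 2 = 2 * (1 + y) := Real.sq_sqrt (by linarith)
  set F := Real.sqrt (1 + E) with hF
  have hF0 : 0 < F := Real.sqrt_pos.2 (by linarith)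
  have hF2 : F ^ 2 = 1 + E := Real.sq_sqrt (by linarith)
  have hΩθ : 0 < (1 + Ω) ^ θ := by positivity
  have hQ := rate_small hv he x₀ hr₁0 (hr₁ρ.trans hρ1) hL0 (by rw [hL2]; linarith)
  have h1 := rate_line1 (v_two hv) (div_eq hv hdiv) he hβ hβ1 hG (mul_nonneg hK hΩθ.le) hΩ0 hr₁0
    hr₁ρ hc hQ (fun y _ => hΩ y) hW0
    ((loc_vort hv x₀ hρ1).trans (by rw [hW2]; linarith)) hF0
    ((vel_int hv hE x₀ hρ1).trans (by rw [hF2]; linarith))
  refine h1.trans ?_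
  have hKn := Kn_pos hβ
  unfold Cr
  rw [mul_assoc (Kn β) (_ + _)]
  refine mul_le_mul_of_nonneg_left ?_ hKn.le
  have hGβ : 0 < G ^ β := by positivity
  have hρ52 : 0 < ρ ^ (-(5 / 2) : ℝ) := by positivity
  have h3β : 0 < 3 - β := by linarith
  have h32β : 0 < 3 - 2 * β := by linarith
  set s := (3 - 2 * β) / (3 - β) with hs
  have hs0 : 0 < s := by positivity
  have hs1 : s ≤ 1 := by rw [hs, div_le_one h3β]; linarith
  have hΩs : 0 ≤ Ω ^ s := by positivity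
  have hZ5 : 0 < Z ^ (1 / 5 : ℝ) := by positivity
  -- first term
  have t1 : Ω ^ (1 - 2 * β / 3) * W ^ (2 * β / 3) ≤ Ω ^ s + 2 * (1 + y) := by
    have k1 := Real.geom_mean_le_arith_mean2_weighted (w₁ := (3 - β) / 3) (w₂ := β / 3)
      (p₁ := Ω ^ s) (p₂ := W ^ 2) (by positivity) (by positivity) hΩs (sq_nonneg _) (by ring)
    have k2 : (Ω ^ s) ^ ((3 - β) / 3) = Ω ^ (1 - 2 * β / 3) := by
      rw [← Real.rpow_mul hΩ0.le]
      congr 1
      rw [hs]
      field_simp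
    have k3 : (W ^ 2) ^ (β / 3) = W ^ (2 * β / 3) := by
      rw [← Real.rpow_natCast, ← Real.rpow_mul hW0.le]
      congr 1
      push_cast
      ring
    rw [k2, k3] at k1
    refine k1.trans ?_
    rw [hW2]
    have k4 : (3 - β) / 3 * Ω ^ s ≤ 1 * Ω ^ s :=
      mul_le_mul_of_nonneg_right (by linarith) hΩs
    have k5 : β / 3 * (2 * (1 + y)) ≤ 1 * (2 * (1 + y)) :=
      mul_le_mul_of_nonneg_right (by linarith) (by linarith)
    linarith
  have t3 : (1 + Ω) ^ θ * (Real.log ρ - Real.log r₁) ≤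
      Ct (θ / s) * (Ω ^ s + 1 + Z ^ (1 / 5 : ℝ)) := by
    have k1 : Real.log ρ - Real.log r₁ = Real.log Z := by
      rw [hr₁, Real.log_div hρ.ne' hZ0.ne']
      ring
    rw [k1]
    exact thr_est hΩ0.le hs0 hs1 hθ0 hθ hZ1
  have t4 : L * r₁ ^ (1 / 2 : ℝ) ≤ 1 := by
    have k0 : 0 ≤ L * r₁ ^ (1 / 2 : ℝ) := by positivity
    have k1 : (L * r₁ ^ (1 / 2 : ℝ)) ^ 2 ≤ 1 ^ 2 := by
      rw [mul_pow, sq_rpow_half hr₁0.le, hL2, hr₁, mul_div_cancel₀ _ hZ0.ne', one_pow]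
      linarith
    exact (pow_le_pow_iff_left₀ k0 zero_le_one (by norm_num)).1 k1
  have hCt : 0 < Ct (θ / s) := Ct_pos (by rw [div_lt_one hs0]; exact hθ)
  set M := Ct (θ / s) with hM
  set R := ρ ^ (-(5 / 2) : ℝ) with hR
  have u1 := mul_le_mul_of_nonneg_left t1 hGβ.le
  have u3 := mul_le_mul_of_nonneg_left t3 hK
  have w1 : 0 ≤ G ^ β * (Ω ^ s) := by positivity
  have w2 : 0 ≤ G ^ β * Z ^ (1 / 5 : ℝ) := by positivity
  have w3 : 0 ≤ F * (Ω ^ s) := by positivity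
  have w4 : 0 ≤ F * Z ^ (1 / 5 : ℝ) := by positivity
  have w5 : 0 ≤ F * (1 + y) := by positivity
  have w6 : 0 ≤ K * M * y := by positivity
  have w7 : 0 ≤ Z ^ (1 / 5 : ℝ) := hZ5.le
  have w8 : 0 ≤ G ^ β * R := by positivity
  have w9 : 0 ≤ K * M * R := by positivity
  have w10 : 0 ≤ R := hρ52.le
  rw [← mul_assoc] at u3
  linarith

end Pool.Agent.N245.NS
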