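import Pool.Agent.N245.EulerLoc

/-!
# The stretching rate at a point relative to which the vorticity line is coherent
-/

set_option autoImplicit false

open MeasureTheory Set Filter
open scoped ENNReal NNReal Topology

namespace Pool.Agent.N245.NS

open Pool.Agent.H708R2.EulerSign Pool.Agent.H708R2.EulerTypeI Pool.Agent.W786.Dir
  Pool.Agent.N245.EulerLoc

variable {v : V → V} {x₀ e : V} {r : ℝ}

/-- increments and a bound of the derivative -/
lemma incr_le {A A' g g' : ℝ → ℝ} {a b : ℝ} (hab : a ≤ b)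
    (hA : ∀ r, HasDerivAt A (A' r) r) (hgc : ContinuousOn g (Icc a b))
    (hg : ∀ r ∈ Ioo a b, HasDerivAt g (g' r) r) (hle : ∀ r ∈ Ioo a b, |A' r| ≤ g' r) :
    |A b - A a| ≤ g b - g a := by
  have hAc : ContinuousOn A (Icc a b) := fun r _ => (hA r).continuousAt.continuousWithinAt
  have ha : a ∈ Icc a b := ⟨le_rfl, hab⟩
  have hb : b ∈ Icc a b := ⟨hab, le_rfl⟩
  have h1 : MonotoneOn (fun r => g r - A r) (Icc a b) := by
    refine monotoneOn_of_deriv_nonneg (convex_Icc a b) (hgc.sub hAc) ?_ ?_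
    · intro r hr
      rw [interior_Icc] at hr
      exact ((hg r hr).sub (hA r)).differentiableAt.differentiableWithinAt
    · intro r hr
      rw [interior_Icc] at hr
      rw [((hg r hr).fun_sub (hA r)).deriv]
      have := (abs_le.1 (hle r hr)).2
      linarith
  have h2 : MonotoneOn (fun r => g r + A r) (Icc a b) := by
    refine monotoneOn_of_deriv_nonneg (convex_Icc a b) (hgc.add hAc) ?_ ?_
    · intro r hr
      rw [interior_Icc] at hr
      exact ((hg r hr).add (hA r)).differentiableAt.differentiableWithinAt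
    · intro r hr
      rw [interior_Icc] at hr
      rw [((hg r hr).fun_add (hA r)).deriv]
      have := (abs_le.1 (hle r hr)).1
      linarith
  have h3 := h1 ha hb hab
  have h4 := h2 ha hb hab
  simp only [] at h3 h4
  rw [abs_le]
  constructor <;> linarith

/-- `1 + ∫ P 1` -/
noncomputable def c1 : ℝ := 1 + ∫ z, P 1 z

lemma c1_pos : 0 < c1 := by
  have : 0 < ∫ z, P 1 z := P_int_pos 0
  unfold c1
  linarith

/-- means and `L²` norms -/
lemma mean_le {f : V → ℝ} (hf : Continuous f) {ρ F : ℝ} (hr : 0 < r)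
    (hρ : r ≤ ρ) (hF : 0 < F) (hE : ∫ y in B x₀ ρ, f y ^ 2 ≤ F ^ 2) :
    ∫ z, P 1 z * |f (x₀ + r • z)| ≤ c1 * (F * r ^ (-(3 / 2) : ℝ)) := by
  set l := F * r ^ (-(3 / 2) : ℝ) with hl
  have hl0 : 0 < l := by positivity
  have hl2 : l * l = F ^ 2 * (r ^ 3)⁻¹ := by
    have e : r ^ (-(3 / 2) : ℝ) * r ^ (-(3 / 2) : ℝ) = (r ^ 3)⁻¹ := by
      rw [← Real.rpow_add hr, ← Real.rpow_natCast r 3, ← Real.rpow_neg hr.le]
      norm_num
    calc l * l = F ^ 2 * (r ^ (-(3 / 2) : ℝ) * r ^ (-(3 / 2) : ℝ)) := by rw [hl]; ring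
      _ = _ := by rw [e]
  have h1 := ball_int (x₀ := x₀) (f := fun y => f y ^ 2) (hf.pow 2) (fun y => sq_nonneg _) hr hρ
  have hfz : Continuous fun z : V => f (x₀ + r • z) := hf.comp (by fun_prop)
  have hPf : Integrable fun z => P 1 z * f (x₀ + r • z) ^ 2 :=
    ((P_cont 1).mul (hfz.pow 2)).integrable_of_hasCompactSupport (P_supp 0).mul_right
  have hPa : Integrable fun z => P 1 z * |f (x₀ + r • z)| :=
    ((P_cont 1).mul hfz.abs).integrable_of_hasCompactSupport (P_supp 0).mul_right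
  have h2 : ∫ z, P 1 z * |f (x₀ + r • z)| ≤
      ∫ z, (l / 2 * P 1 z + 1 / (2 * l) * (P 1 z * f (x₀ + r • z) ^ 2)) := by
    refine integral_mono hPa (((P_integrable 0).const_mul _).add (hPf.const_mul _))
      fun z => ?_
    show P 1 z * |f (x₀ + r • z)| ≤ l / 2 * P 1 z +
      1 / (2 * l) * (P 1 z * f (x₀ + r • z) ^ 2)
    set n := |f (x₀ + r • z)| with hn
    have hnn : f (x₀ + r • z) ^ 2 = n ^ 2 := by rw [hn, sq_abs]
    rw [hnn]
    have hp := P_nonneg 1 z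
    have h3 : n ≤ l / 2 + 1 / (2 * l) * n ^ 2 := by
      have h4 : l / 2 + 1 / (2 * l) * n ^ 2 - n = (l - n) ^ 2 / (2 * l) := by
        field_simp
        ring
      have h5 : 0 ≤ (l - n) ^ 2 / (2 * l) := by positivity
      linarith
    calc P 1 z * n ≤ P 1 z * (l / 2 + 1 / (2 * l) * n ^ 2) := by gcongr
      _ = _ := by ring
  refine h2.trans ?_
  rw [integral_add ((P_integrable 0).const_mul _) (hPf.const_mul _), integral_const_mul,
    integral_const_mul]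
  have h3 : 1 / (2 * l) * ∫ z, P 1 z * f (x₀ + r • z) ^ 2 ≤ l / 2 := by
    calc 1 / (2 * l) * ∫ z, P 1 z * f (x₀ + r • z) ^ 2
        ≤ 1 / (2 * l) * ((r ^ 3)⁻¹ * F ^ 2) := by
          refine mul_le_mul_of_nonneg_left (h1.trans ?_) (by positivity)
          exact mul_le_mul_of_nonneg_left hE (by positivity)
      _ = 1 / (2 * l) * (l * l) := by rw [hl2]; ring
      _ = l / 2 := by field_simp
  have h4 : l / 2 * ∫ z, P (0 + 1) z = l / 2 * ∫ z, P 1 z := rfl
  have h5 : 0 < ∫ z, P 1 z := P_int_pos 0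
  rw [h4]
  unfold c1
  nlinarith

/-- The sum of the squares of the entries of the gradient. -/
noncomputable def gsq (v : V → V) (y : V) : ℝ := ∑ i, ∑ j, grad v y i j ^ 2

lemma gsq_nonneg (v : V → V) (y : V) : 0 ≤ gsq v y :=
  Finset.sum_nonneg fun _ _ => Finset.sum_nonneg fun _ _ => sq_nonneg _

lemma gsq_cont (hv : ContDiff ℝ 2 v) : Continuous (gsq v) := by
  unfold gsq
  exact continuous_finsetSum _ fun i _ => continuous_finsetSum _ fun j _ =>
    ((grad_contDiff hv i j).continuous).pow 2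

lemma rate_le (he : nrm e ≤ 1) (y : V) : |rate v e y| ≤ Real.sqrt (gsq v y) := by
  unfold rate
  refine (dot_le _ _).trans ?_
  have h1 : nrm ((grad v y).mulVec e) ≤ Real.sqrt (gsq v y) := by
    unfold nrm
    refine Real.sqrt_le_sqrt ?_
    have hee : e ⬝ᵥ e ≤ 1 := by
      rw [← nrm_sq]
      have := nrm_nonneg e
      nlinarith
    have h2 : ∀ i, (grad v y).mulVec e i * (grad v y).mulVec e i ≤ ∑ j, grad v y i j ^ 2 := by
      intro i
      have h3 : ((grad v y).mulVec e i) ^ 2 ≤ (∑ j, grad v y i j ^ 2) * ∑ j, e j ^ 2 := by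
        simp only [Matrix.mulVec, dotProduct]
        exact Finset.sum_mul_sq_le_sq_mul_sq _ _ _
      have h4 : ∑ j, e j ^ 2 = e ⬝ᵥ e := by
        simp only [dotProduct, sq]
      rw [h4] at h3
      have h5 : 0 ≤ ∑ j, grad v y i j ^ 2 := Finset.sum_nonneg fun _ _ => sq_nonneg _
      nlinarith
    simp only [dotProduct]
    exact Finset.sum_le_sum fun i _ => h2 i
  have h2 := nrm_nonneg ((grad v y).mulVec e)
  calc nrm e * nrm ((grad v y).mulVec e) ≤ 1 * nrm ((grad v y).mulVec e) := by gcongr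
    _ ≤ _ := by rw [one_mul]; exact h1

/-- The mean of the stretching rate and the `L²` norm of the gradient. -/
lemma A_le2 (hv : ContDiff ℝ 2 v) (he : nrm e ≤ 1) {ρ D : ℝ} (hρ : 0 < ρ) (hD : 0 < D)
    (hE : ∫ y in B x₀ ρ, gsq v y ≤ D ^ 2) :
    |∫ z, P 3 z * rate v e (x₀ + ρ • z)| ≤ c1 * (D * ρ ^ (-(3 / 2) : ℝ)) := by
  have hc : Continuous fun y => Real.sqrt (gsq v y) := Real.continuous_sqrt.comp (gsq_cont hv)
  have h1 := mean_le (x₀ := x₀) (f := fun y => Real.sqrt (gsq v y)) hc hρ le_rfl hD (by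
    refine le_trans (le_of_eq ?_) hE
    refine setIntegral_congr_fun (B_open x₀ ρ).measurableSet fun y _ => ?_
    exact Real.sq_sqrt (gsq_nonneg v y))
  refine le_trans ?_ h1
  rw [← Real.norm_eq_abs]
  have hcz : Continuous fun z : V => |Real.sqrt (gsq v (x₀ + ρ • z))| :=
    (hc.comp (by fun_prop)).abs
  refine norm_integral_le_of_norm_le
    (((P_cont 1).mul hcz).integrable_of_hasCompactSupport (P_supp 0).mul_right)
    (Eventually.of_forall fun z => ?_)
  rw [Real.norm_eq_abs, abs_mul, abs_of_nonneg (P_nonneg 3 z)]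
  have h2 : P 3 z ≤ P 1 z := (P_le (n := 2) z).trans (P_le (n := 1) z)
  have h3 := rate_le (v := v) he (x₀ + ρ • z)
  have h4 := le_abs_self (Real.sqrt (gsq v (x₀ + ρ • z)))
  exact mul_le_mul h2 (h3.trans h4) (abs_nonneg _) (P_nonneg 1 z)

/-- The derivative of the mean rate with an additive error. -/
lemma dA_gen (hv : ContDiff ℝ 2 v) (hdiv : ∀ x, divergence v x = 0) (he : nrm e ≤ 1) {κ K : ℝ}
    (hr : 0 < r)
    (hc : ∀ y, nrm (y - x₀) < r → nrm (cross e (vort v y)) ≤ κ * nrm (vort v y) + K) :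
    r * |∫ z, P 3 z * fderiv ℝ (rate v e) (x₀ + r • z) z| ≤
      6 * (κ * J v x₀ r + K * ∫ z, P 2 z) := by
  have h1 := rate_formula hv hdiv e x₀ r
  have h2 : |∫ z, (z ⬝ᵥ e) * P 2 z * (vort v (x₀ + r • z) ⬝ᵥ cross z e)| ≤
      κ * J v x₀ r + K * ∫ z, P 2 z := by
    unfold J
    rw [← integral_const_mul, ← integral_const_mul,
      ← integral_add ((J_cont hv 1 r).const_mul _) ((P_integrable 1).const_mul _),
      ← Real.norm_eq_abs]
    refine norm_integral_le_of_norm_le (((J_cont hv 1 r).const_mul _).add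
      ((P_integrable 1).const_mul _)) (Eventually.of_forall fun z => ?_)
    rw [Real.norm_eq_abs]
    show |z ⬝ᵥ e * P 2 z * vort v (x₀ + r • z) ⬝ᵥ cross z e| ≤
      κ * (P 2 z * nrm (vort v (x₀ + r • z))) + K * P 2 z
    rcases lt_or_ge (z ⬝ᵥ z) 1 with hz | hz
    · have hz1 := nrm_lt_one hz
      have hyr : nrm (x₀ + r • z - x₀) < r := by
        rw [add_sub_cancel_left, nrm_smul, abs_of_pos hr]
        exact mul_lt_of_lt_one_right hr hz1
      have hb1 := hc _ hyr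
      have b1 : |z ⬝ᵥ e| ≤ 1 := (dot_le _ _).trans (mul_le_one₀ hz1.le (nrm_nonneg _) he)
      have b4 : |vort v (x₀ + r • z) ⬝ᵥ cross z e| ≤ κ * nrm (vort v (x₀ + r • z)) + K := by
        rw [triple]
        refine (dot_le _ _).trans ?_
        have h5 := nrm_nonneg (cross e (vort v (x₀ + r • z)))
        calc nrm z * nrm (cross e (vort v (x₀ + r • z)))
            ≤ 1 * nrm (cross e (vort v (x₀ + r • z))) := by gcongr
          _ ≤ _ := by rw [one_mul]; exact hb1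
      rw [abs_mul, abs_mul, abs_of_nonneg (P_nonneg 2 z)]
      have hp := P_nonneg 2 z
      calc |z ⬝ᵥ e| * P 2 z * |vort v (x₀ + r • z) ⬝ᵥ cross z e|
          ≤ 1 * P 2 z * (κ * nrm (vort v (x₀ + r • z)) + K) := by gcongr
        _ = _ := by ring
    · have e2 : P 2 z = 0 := P_zero_of hz
      rw [e2]
      simp
  have h3 : |r * ∫ z, P 3 z * fderiv ℝ (rate v e) (x₀ + r • z) z| ≤
      6 * (κ * J v x₀ r + K * ∫ z, P 2 z) := by
    rw [h1, abs_mul, abs_of_pos (by norm_num : (0 : ℝ) < 6)]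
    gcongr
  rwa [abs_mul, abs_of_pos hr] at h3

lemma J_sup (hv : ContDiff ℝ 2 v) {Ω : ℝ} (hr : 0 < r)
    (hΩ : ∀ y, nrm (y - x₀) < r → nrm (vort v y) ≤ Ω) : J v x₀ r ≤ Ω * ∫ z, P 2 z := by
  refine J_le_sup (G := 1 / r) hv hr (by rw [one_div_one_div]) fun y hy => hΩ y ?_
  rwa [one_div_one_div] at hy

lemma J_L2 (hv : ContDiff ℝ 2 v) {ρ W : ℝ} (hr : 0 < r) (hρ : r ≤ ρ) (hW : 0 < W)
    (hE : ∫ y in B x₀ ρ, nrm (vort v y) ^ 2 ≤ W ^ 2) :
    J v x₀ r ≤ c1 * (W * r ^ (-(3 / 2) : ℝ)) := by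
  have hc : Continuous fun y => nrm (vort v y) := nrm_cont.comp (vort_cont hv)
  refine le_trans ?_ (mean_le (x₀ := x₀) (f := fun y => nrm (vort v y)) hc hr hρ hW hE)
  unfold J
  have hcz : Continuous fun z : V => |nrm (vort v (x₀ + r • z))| := (hc.comp (by fun_prop)).abs
  refine integral_mono (J_cont hv 1 r)
    (((P_cont 1).mul hcz).integrable_of_hasCompactSupport (P_supp 0).mul_right) fun z => ?_
  exact mul_le_mul (P_le (n := 1) z) (le_abs_self _) (nrm_nonneg _) (P_nonneg 1 z)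

/-- the mean rate and its derivative -/
noncomputable def AA (v : V → V) (e x₀ : V) (r : ℝ) : ℝ := ∫ z, P 3 z * rate v e (x₀ + r • z)

noncomputable def AA' (v : V → V) (e x₀ : V) (r : ℝ) : ℝ :=
  ∫ z, P 3 z * fderiv ℝ (rate v e) (x₀ + r • z) z

lemma AA_deriv (hv : ContDiff ℝ 2 v) (e x₀ : V) (r : ℝ) :
    HasDerivAt (AA v e x₀) (AA' v e x₀ r) r :=
  param_deriv (P_cont 3) (P_supp 2) (rate_contDiff hv e) x₀ r

lemma AA_zero : AA v e x₀ 0 = (∫ z, P 3 z) * rate v e x₀ := by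
  simp only [AA, zero_smul, add_zero]
  rw [integral_mul_const]

/-- increments, small radii -/
lemma seg_near (hv : ContDiff ℝ 2 v) (hdiv : ∀ x, divergence v x = 0) (he : nrm e ≤ 1)
    {G β K Ω a b : ℝ} (hβ : 0 < β) (hG : 0 < G) (ha : 0 ≤ a) (hab : a ≤ b)
    (haK : 0 < a ∨ K = 0)
    (hc : ∀ y, nrm (y - x₀) < b →
      nrm (cross e (vort v y)) ≤ (G * nrm (y - x₀)) ^ β * nrm (vort v y) + K)
    (hΩ : ∀ y, nrm (y - x₀) < b → nrm (vort v y) ≤ Ω) :
    |AA v e x₀ b - AA v e x₀ a| ≤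
      6 * (∫ z, P 2 z) * Ω * G ^ β / β * (b ^ β - a ^ β) +
        6 * (∫ z, P 2 z) * K * (Real.log b - Real.log a) := by
  set I2 := ∫ z, P 2 z with hI2
  have hI2p : 0 < I2 := P_int_pos 1
  set g : ℝ → ℝ := fun r => 6 * I2 * Ω * G ^ β / β * r ^ β + 6 * I2 * K * Real.log r with hg
  set g' : ℝ → ℝ := fun r => 6 * I2 * Ω * G ^ β / β * (β * r ^ (β - 1)) + 6 * I2 * K * r⁻¹ with hg'
  have h1 : |AA v e x₀ b - AA v e x₀ a| ≤ g b - g a := by
    refine incr_le (g' := g') hab (fun r => AA_deriv hv e x₀ r) ?_ ?_ ?_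
    · refine (continuousOn_const.mul (Real.continuous_rpow_const hβ.le).continuousOn).add ?_
      rcases haK with h | h
      · refine continuousOn_const.mul (Real.continuousOn_log.mono fun r hr => ?_)
        exact (h.trans_le hr.1).ne'
      · rw [h]
        simp only [mul_zero, zero_mul]
        exact continuousOn_const
    · intro r hr
      have hr0 : 0 < r := ha.trans_lt hr.1
      exact ((Real.hasDerivAt_rpow_const (Or.inl hr0.ne')).const_mul _).add
        ((Real.hasDerivAt_log hr0.ne').const_mul _)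
    · intro r hr
      have hr0 : 0 < r := ha.trans_lt hr.1
      have h2 := dA_gen (x₀ := x₀) hv hdiv he (κ := (G * r) ^ β) hr0
        (fun y hy => by
          refine (hc y (hy.trans hr.2)).trans ?_
          have h6 : (G * nrm (y - x₀)) ^ β ≤ (G * r) ^ β :=
            Real.rpow_le_rpow (mul_nonneg hG.le (nrm_nonneg _)) (by gcongr) hβ.le
          have := nrm_nonneg (vort v y)
          gcongr)
      have h3 := J_sup (x₀ := x₀) hv hr0 (fun y hy => hΩ y (hy.trans hr.2))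
      have e1 : r * g' r = 6 * ((G * r) ^ β * (Ω * I2) + K * I2) := by
        have e2 : r * r ^ (β - 1) = r ^ β := by
          conv_lhs => rw [← Real.rpow_one r, ← Real.rpow_mul hr0.le, one_mul, ← Real.rpow_add hr0]
          congr 1
          ring
        simp only [hg']
        rw [Real.mul_rpow hG.le hr0.le, ← e2]
        field_simp
      have h4 : r * |AA' v e x₀ r| ≤ r * g' r := by
        rw [e1]
        refine h2.trans ?_
        gcongr
      exact le_of_mul_le_mul_left h4 hr0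
  refine h1.trans (le_of_eq ?_)
  simp only [hg]
  ring

/-- increments, large radii -/
lemma seg_far (hv : ContDiff ℝ 2 v) (hdiv : ∀ x, divergence v x = 0) (he : nrm e ≤ 1)
    {G β K W a b ρ : ℝ} (hβ : 0 < β) (hβ1 : β ≤ 1) (hG : 0 < G) (ha : 0 < a)
    (hab : a ≤ b) (hb : b ≤ ρ)
    (hc : ∀ y, nrm (y - x₀) < b →
      nrm (cross e (vort v y)) ≤ (G * nrm (y - x₀)) ^ β * nrm (vort v y) + K)
    (hW : 0 < W) (hE : ∫ y in B x₀ ρ, nrm (vort v y) ^ 2 ≤ W ^ 2) :
    |AA v e x₀ b - AA v e x₀ a| ≤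
      12 * c1 * W * G ^ β * (a ^ (β - 3 / 2) - b ^ (β - 3 / 2)) +
        6 * (∫ z, P 2 z) * K * (Real.log b - Real.log a) := by
  set I2 := ∫ z, P 2 z with hI2
  have hI2p : 0 < I2 := P_int_pos 1
  have hc1 := c1_pos
  have hγ : β - 3 / 2 ≠ 0 := by intro h; linarith
  set C := 6 * c1 * W * G ^ β with hC
  set g : ℝ → ℝ := fun r => C / (β - 3 / 2) * r ^ (β - 3 / 2) + 6 * I2 * K * Real.log r with hg
  set g' : ℝ → ℝ := fun r =>
    C / (β - 3 / 2) * ((β - 3 / 2) * r ^ (β - 3 / 2 - 1)) + 6 * I2 * K * r⁻¹ with hg'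
  have h1 : |AA v e x₀ b - AA v e x₀ a| ≤ g b - g a := by
    refine incr_le (g' := g') hab (fun r => AA_deriv hv e x₀ r) ?_ ?_ ?_
    · have hne : ∀ r ∈ Icc a b, r ≠ 0 := fun r hr => (ha.trans_le hr.1).ne'
      refine ContinuousOn.add (continuousOn_const.mul fun r hr =>
        (Real.continuousAt_rpow_const _ _ (Or.inl (hne r hr))).continuousWithinAt) ?_
      exact continuousOn_const.mul (Real.continuousOn_log.mono fun r hr => hne r hr)
    · intro r hr
      have hr0 : 0 < r := ha.trans hr.1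
      exact ((Real.hasDerivAt_rpow_const (Or.inl hr0.ne')).const_mul _).add
        ((Real.hasDerivAt_log hr0.ne').const_mul _)
    · intro r hr
      have hr0 : 0 < r := ha.trans hr.1
      have h2 := dA_gen (x₀ := x₀) hv hdiv he (κ := (G * r) ^ β) hr0
        (fun y hy => by
          refine (hc y (hy.trans hr.2)).trans ?_
          have h6 : (G * nrm (y - x₀)) ^ β ≤ (G * r) ^ β :=
            Real.rpow_le_rpow (mul_nonneg hG.le (nrm_nonneg _)) (by gcongr) hβ.le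
          have := nrm_nonneg (vort v y)
          gcongr)
      have h3 := J_L2 (x₀ := x₀) hv hr0 (hr.2.le.trans hb) hW hE
      have e1 : r * g' r = 6 * ((G * r) ^ β * (c1 * (W * r ^ (-(3 / 2) : ℝ))) + K * I2) := by
        have e2 : r * r ^ (β - 3 / 2 - 1) = r ^ β * r ^ (-(3 / 2) : ℝ) := by
          rw [← Real.rpow_add hr0]
          conv_lhs => rw [← Real.rpow_one r, ← Real.rpow_mul hr0.le, one_mul, ← Real.rpow_add hr0]
          congr 1
          ring
        simp only [hg']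
        rw [Real.mul_rpow hG.le hr0.le]
        have e3 : C / (β - 3 / 2) * ((β - 3 / 2) * r ^ (β - 3 / 2 - 1)) =
            C * r ^ (β - 3 / 2 - 1) := by
          rw [← mul_assoc, div_mul_cancel₀ _ hγ]
        have e4 : r * (6 * I2 * K * r⁻¹) = 6 * I2 * K := by field_simp
        calc r * (C / (β - 3 / 2) * ((β - 3 / 2) * r ^ (β - 3 / 2 - 1)) + 6 * I2 * K * r⁻¹)
            = C * (r * r ^ (β - 3 / 2 - 1)) + 6 * I2 * K := by rw [e3, mul_add, e4]; ring
          _ = _ := by rw [e2, hC]; ring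
      have h4 : r * |AA' v e x₀ r| ≤ r * g' r := by
        rw [e1]
        refine h2.trans ?_
        gcongr
      exact le_of_mul_le_mul_left h4 hr0
  refine h1.trans ?_
  have hb0 : 0 < b := ha.trans_le hab
  have hmono : b ^ (β - 3 / 2) ≤ a ^ (β - 3 / 2) :=
    Real.rpow_le_rpow_of_nonpos ha hab (by linarith)
  have h6 : C / (3 / 2 - β) ≤ 12 * c1 * W * G ^ β := by
    rw [div_le_iff₀ (by linarith), hC]
    have : 0 ≤ 12 * c1 * W * G ^ β := by positivity
    nlinarith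
  have h7 : C / (β - 3 / 2) = -(C / (3 / 2 - β)) := by
    rw [← div_neg, neg_sub]
  have h8 := mul_le_mul_of_nonneg_right h6 (sub_nonneg.2 hmono)
  simp only [hg, h7]
  linarith

/-- The constant of the estimate of the stretching rate. -/
noncomputable def Kn (β : ℝ) : ℝ := (6 * (∫ z, P 2 z) / β + 12 * c1 + 6 * ∫ z, P 2 z) / ∫ z, P 3 z

lemma Kn_pos {β : ℝ} (hβ : 0 < β) : 0 < Kn β := by
  have h2 : 0 < ∫ z, P 2 z := P_int_pos 1
  have h3 : 0 < ∫ z, P 3 z := P_int_pos 2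
  have := c1_pos
  unfold Kn
  positivity

/-- The estimate with free intermediate radii. -/
lemma rate_split (hv : ContDiff ℝ 2 v) (hdiv : ∀ x, divergence v x = 0) (he : nrm e ≤ 1)
    {G β K Ω W D r₁ r₀ Q : ℝ} (hβ : 0 < β) (hβ1 : β ≤ 1) (hG : 0 < G) (hK : 0 ≤ K) (hΩ0 : 0 ≤ Ω)
    (hr₁ : 0 < r₁) (hr₁G : r₁ ≤ 1 / G) (hr₀ : 0 < r₀) (hr₀G : r₀ ≤ 1 / G)
    (hc : ∀ y, nrm (y - x₀) < 1 / G → K < nrm (vort v y) →
      nrm (cross e (vort v y)) ≤ (G * nrm (y - x₀)) ^ β * nrm (vort v y))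
    (hQ : |AA v e x₀ r₁ - AA v e x₀ 0| ≤ Q)
    (hΩ : ∀ y, nrm (y - x₀) < 1 / G → nrm (vort v y) ≤ Ω)
    (hW : 0 < W) (hE : ∫ y in B x₀ (1 / G), nrm (vort v y) ^ 2 ≤ W ^ 2)
    (hD : 0 < D) (hE2 : ∫ y in B x₀ (1 / G), gsq v y ≤ D ^ 2) :
    (∫ z, P 3 z) * |rate v e x₀| ≤
      6 * (∫ z, P 2 z) / β * (Ω * G ^ β * r₀ ^ β) + 12 * c1 * (W * G ^ β * r₀ ^ (β - 3 / 2)) +
        c1 * (D * G ^ (3 / 2 : ℝ)) + 6 * (∫ z, P 2 z) * (K * Real.log (1 / (G * r₁))) + Q := by
  have c2 : 0 < ∫ z, P 2 z := P_int_pos 1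
  have c3 : 0 < ∫ z, P 3 z := P_int_pos 2
  have hc1 := c1_pos
  set I2 := ∫ z, P 2 z with hI2
  set I3 := ∫ z, P 3 z with hI3
  set ρ := 1 / G with hρ'
  have hρ : 0 < ρ := by positivity
  have hcross : ∀ y, nrm (cross e (vort v y)) ≤ nrm (vort v y) := by
    intro y
    refine (nrm_cross_le _ _).trans ?_
    have := nrm_nonneg (vort v y)
    calc nrm e * nrm (vort v y) ≤ 1 * nrm (vort v y) := by gcongr
      _ = _ := one_mul _
  have hcK : ∀ y, nrm (y - x₀) < ρ →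
      nrm (cross e (vort v y)) ≤ (G * nrm (y - x₀)) ^ β * nrm (vort v y) + K := by
    intro y hy
    rcases lt_or_ge K (nrm (vort v y)) with h | h
    · have := hc y hy h
      linarith
    · have h1 := (hcross y).trans h
      have h2 : 0 ≤ (G * nrm (y - x₀)) ^ β * nrm (vort v y) :=
        mul_nonneg (Real.rpow_nonneg (mul_nonneg hG.le (nrm_nonneg _)) _) (nrm_nonneg _)
      linarith
  have hlogρ : Real.log (1 / (G * r₁)) = Real.log ρ - Real.log r₁ := by
    rw [hρ', ← Real.log_div (by positivity) hr₁.ne']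
    congr 1
    field_simp
  have s3 : |AA v e x₀ ρ| ≤ c1 * (D * G ^ (3 / 2 : ℝ)) := by
    have h1 := A_le2 (x₀ := x₀) hv he hρ hD hE2
    have e1 : ρ ^ (-(3 / 2) : ℝ) = G ^ (3 / 2 : ℝ) := by
      rw [hρ', one_div, Real.inv_rpow hG.le, ← Real.rpow_neg hG.le, neg_neg]
    rw [e1] at h1
    exact h1
  have key : |AA v e x₀ ρ - AA v e x₀ r₁| ≤ 6 * I2 / β * (Ω * G ^ β * r₀ ^ β) +
      12 * c1 * (W * G ^ β * r₀ ^ (β - 3 / 2)) + 6 * I2 * (K * Real.log (1 / (G * r₁))) := by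
    rw [hlogρ]
    have hGβ : 0 < G ^ β := Real.rpow_pos_of_pos hG _
    have hρp : 0 ≤ 12 * c1 * W * G ^ β * ρ ^ (β - 3 / 2) := by positivity
    rcases le_total r₁ r₀ with hle | hle
    · -- `r₁ ≤ r₀ ≤ ρ`
      have t2 := seg_near (x₀ := x₀) (K := K) (a := r₁) (b := r₀) hv hdiv he hβ hG hr₁.le hle
        (Or.inl hr₁) (fun y hy => hcK y (hy.trans_le hr₀G)) (fun y hy => hΩ y (hy.trans_le hr₀G))
      have t3 := seg_far (x₀ := x₀) (K := K) (a := r₀) (b := ρ) hv hdiv he hβ hβ1 hG hr₀ hr₀G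
        le_rfl hcK hW hE
      rw [← hI2] at t2 t3
      rw [mul_sub] at t3
      have hrp : 0 ≤ 6 * I2 * Ω * G ^ β / β * r₁ ^ β := by positivity
      have h := abs_sub_le (AA v e x₀ ρ) (AA v e x₀ r₀) (AA v e x₀ r₁)
      refine h.trans ?_
      calc |AA v e x₀ ρ - AA v e x₀ r₀| + |AA v e x₀ r₀ - AA v e x₀ r₁|
          ≤ (12 * c1 * W * G ^ β * r₀ ^ (β - 3 / 2) + 6 * I2 * K * (Real.log ρ - Real.log r₀)) +
            (6 * I2 * Ω * G ^ β / β * (r₀ ^ β - r₁ ^ β) +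
              6 * I2 * K * (Real.log r₀ - Real.log r₁)) := by linarith
        _ = 6 * I2 / β * (Ω * G ^ β * r₀ ^ β) +
            12 * c1 * (W * G ^ β * r₀ ^ (β - 3 / 2)) +
            6 * I2 * (K * (Real.log ρ - Real.log r₁)) - 6 * I2 * Ω * G ^ β / β * r₁ ^ β := by ring
        _ ≤ _ := by linarith
    · -- `r₀ ≤ r₁ ≤ ρ`
      have t3 := seg_far (x₀ := x₀) (K := K) (a := r₁) (b := ρ) hv hdiv he hβ hβ1 hG hr₁ hr₁G
        le_rfl hcK hW hE
      rw [← hI2] at t3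
      rw [mul_sub] at t3
      have hmono : r₁ ^ (β - 3 / 2) ≤ r₀ ^ (β - 3 / 2) :=
        Real.rpow_le_rpow_of_nonpos hr₀ hle (by linarith)
      have hXr : 0 ≤ 6 * I2 / β * (Ω * G ^ β * r₀ ^ β) := by positivity
      have hm2 : 12 * c1 * W * G ^ β * r₁ ^ (β - 3 / 2) ≤
          12 * c1 * W * G ^ β * r₀ ^ (β - 3 / 2) := by gcongr
      calc |AA v e x₀ ρ - AA v e x₀ r₁|
          ≤ 12 * c1 * W * G ^ β * r₀ ^ (β - 3 / 2) +
              6 * I2 * K * (Real.log ρ - Real.log r₁) := by linarith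
        _ = 12 * c1 * (W * G ^ β * r₀ ^ (β - 3 / 2)) +
            6 * I2 * (K * (Real.log ρ - Real.log r₁)) := by ring
        _ ≤ _ := by linarith
  have h0 : AA v e x₀ 0 = I3 * rate v e x₀ := AA_zero
  rw [← abs_of_pos c3, ← abs_mul, ← h0]
  have h2 : |AA v e x₀ 0| ≤ |AA v e x₀ ρ| + |AA v e x₀ ρ - AA v e x₀ r₁| +
      |AA v e x₀ r₁ - AA v e x₀ 0| := by
    have e' : AA v e x₀ 0 = AA v e x₀ ρ - (AA v e x₀ ρ - AA v e x₀ r₁) -
      (AA v e x₀ r₁ - AA v e x₀ 0) := by ring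
    calc |AA v e x₀ 0| = |AA v e x₀ ρ - (AA v e x₀ ρ - AA v e x₀ r₁) -
          (AA v e x₀ r₁ - AA v e x₀ 0)| := by rw [← e']
      _ ≤ |AA v e x₀ ρ - (AA v e x₀ ρ - AA v e x₀ r₁)| + |AA v e x₀ r₁ - AA v e x₀ 0| :=
        abs_sub _ _
      _ ≤ _ := by
        have := abs_sub (AA v e x₀ ρ) (AA v e x₀ ρ - AA v e x₀ r₁)
        linarith
  linarith

/-- **The stretching rate at a point of coherent vorticity line.** -/
theorem rate_line (hv : ContDiff ℝ 2 v) (hdiv : ∀ x, divergence v x = 0) (he : nrm e ≤ 1)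
    {G β K Ω W D r₁ Q : ℝ} (hβ : 0 < β) (hβ1 : β ≤ 1) (hG : 0 < G) (hK : 0 ≤ K) (hΩ0 : 0 < Ω)
    (hr₁ : 0 < r₁) (hr₁G : r₁ ≤ 1 / G)
    (hc : ∀ y, nrm (y - x₀) < 1 / G → K < nrm (vort v y) →
      nrm (cross e (vort v y)) ≤ (G * nrm (y - x₀)) ^ β * nrm (vort v y))
    (hQ : |AA v e x₀ r₁ - AA v e x₀ 0| ≤ c1 * Q)
    (hΩ : ∀ y, nrm (y - x₀) < 1 / G → nrm (vort v y) ≤ Ω)
    (hW : 0 < W) (hE : ∫ y in B x₀ (1 / G), nrm (vort v y) ^ 2 ≤ W ^ 2)
    (hD : 0 < D) (hE2 : ∫ y in B x₀ (1 / G), gsq v y ≤ D ^ 2) :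
    |rate v e x₀| ≤ Kn β * (G ^ β * (Ω ^ (1 - 2 * β / 3) * W ^ (2 * β / 3)) +
      (W + D) * G ^ (3 / 2 : ℝ) + K * Real.log (1 / (G * r₁)) + Q) := by
  have c2 : 0 < ∫ z, P 2 z := P_int_pos 1
  have c3 : 0 < ∫ z, P 3 z := P_int_pos 2
  have hc1 := c1_pos
  unfold Kn
  rw [div_mul_eq_mul_div, le_div_iff₀ c3, mul_comm]
  set I2 := ∫ z, P 2 z with hI2
  set s := (W / Ω) ^ (2 / 3 : ℝ) with hs
  have hs0 : 0 < s := by positivity
  set X := G ^ β * (Ω ^ (1 - 2 * β / 3) * W ^ (2 * β / 3)) with hX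
  set Y := (W + D) * G ^ (3 / 2 : ℝ) with hY
  set Z := K * Real.log (1 / (G * r₁)) with hZ
  have hX0 : 0 ≤ X := by positivity
  have hY0 : 0 ≤ Y := by positivity
  have hQ0 : 0 ≤ Q := by
    have h := (abs_nonneg _).trans hQ
    exact nonneg_of_mul_nonneg_right h hc1
  have hZ0 : 0 ≤ Z := by
    refine mul_nonneg hK (Real.log_nonneg ?_)
    rw [le_div_iff₀ (by positivity), one_mul]
    rwa [le_div_iff₀ hG, mul_comm] at hr₁G
  have hβ' : 0 ≤ 6 * I2 / β := by positivity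
  have hexp : (6 * I2 / β + 12 * c1 + 6 * I2) * (X + Y + Z + Q) =
      6 * I2 / β * X + 6 * I2 / β * Y + 6 * I2 / β * Z + 6 * I2 / β * Q +
      12 * c1 * X + 12 * c1 * Y + 12 * c1 * Z + 12 * (c1 * Q) +
      6 * (I2 * X) + 6 * (I2 * Y) + 6 * I2 * Z + 6 * (I2 * Q) := by ring
  rw [hexp]
  have p1 := mul_nonneg hβ' hX0
  have p2 := mul_nonneg hβ' hY0
  have p3 := mul_nonneg hβ' hZ0
  have p4 := mul_nonneg hβ' hQ0
  have p5 := mul_nonneg hc1.le hX0
  have p6 := mul_nonneg hc1.le hZ0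
  have p7 := mul_nonneg hc1.le hQ0
  have p8 := mul_nonneg c2.le hX0
  have p9 := mul_nonneg c2.le hY0
  have p10 := mul_nonneg c2.le hQ0
  rcases le_or_gt s (1 / G) with hle | hgt
  · have h1 := rate_split hv hdiv he hβ hβ1 hG hK hΩ0.le hr₁ hr₁G hs0 hle hc hQ hΩ hW hE hD hE2
    have e1 : Ω * G ^ β * s ^ β = X := by
      rw [hX, hs, ← Real.rpow_mul (by positivity), Real.div_rpow hW.le hΩ0.le,
        Real.rpow_sub hΩ0, Real.rpow_one, show (2 / 3 * β : ℝ) = 2 * β / 3 by ring]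
      field_simp
    have e2 : W * G ^ β * s ^ (β - 3 / 2) = X := by
      rw [hX, hs, ← Real.rpow_mul (by positivity), Real.div_rpow hW.le hΩ0.le,
        show (2 / 3 * (β - 3 / 2) : ℝ) = 2 * β / 3 - 1 by ring,
        show (1 - 2 * β / 3 : ℝ) = -(2 * β / 3 - 1) by ring, Real.rpow_neg hΩ0.le,
        Real.rpow_sub hW, Real.rpow_one]
      field_simp
    rw [e1, e2] at h1
    refine h1.trans ?_
    have h2 : c1 * (D * G ^ (3 / 2 : ℝ)) ≤ 12 * c1 * Y := by
      have : 0 < G ^ (3 / 2 : ℝ) := by positivity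
      rw [hY]
      nlinarith [mul_pos hc1 (mul_pos hW this), mul_pos hc1 (mul_pos hD this)]
    linarith
  · have h1 := rate_split hv hdiv he hβ hβ1 hG hK hΩ0.le hr₁ hr₁G (show (0 : ℝ) < 1 / G by positivity)
      le_rfl hc hQ hΩ hW hE hD hE2
    have e1 : G ^ β * (1 / G) ^ β = 1 := by
      rw [← Real.mul_rpow hG.le (by positivity), mul_one_div_cancel hG.ne', Real.one_rpow]
    have e2 : G ^ β * (1 / G) ^ (β - 3 / 2) = G ^ (3 / 2 : ℝ) := by
      rw [one_div, Real.inv_rpow hG.le, ← Real.rpow_neg hG.le, ← Real.rpow_add hG]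
      congr 1
      ring
    have h2 : Ω ≤ W * G ^ (3 / 2 : ℝ) := by
      have h3 : (1 / G) ^ (3 / 2 : ℝ) ≤ s ^ (3 / 2 : ℝ) :=
        Real.rpow_le_rpow (by positivity) hgt.le (by norm_num)
      have hs32 : s ^ (3 / 2 : ℝ) = W / Ω := by
        rw [hs, ← Real.rpow_mul (by positivity)]
        norm_num
      rw [hs32, one_div, Real.inv_rpow hG.le, le_div_iff₀ hΩ0] at h3
      have hGp : 0 < G ^ (3 / 2 : ℝ) := by positivity
      rw [inv_mul_le_iff₀ hGp] at h3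
      linarith
    rw [mul_assoc Ω, e1, mul_assoc W, e2, mul_one] at h1
    refine h1.trans ?_
    have hGp : 0 < G ^ (3 / 2 : ℝ) := by positivity
    have hWY : W * G ^ (3 / 2 : ℝ) ≤ Y := by
      rw [hY, add_mul]
      have := mul_pos hD hGp
      linarith
    have hWDY : W * G ^ (3 / 2 : ℝ) + D * G ^ (3 / 2 : ℝ) = Y := by rw [hY]; ring
    have h5 : 6 * I2 / β * Ω ≤ 6 * I2 / β * Y :=
      mul_le_mul_of_nonneg_left (h2.trans hWY) hβ'
    have h6 : 12 * c1 * (W * G ^ (3 / 2 : ℝ)) + c1 * (D * G ^ (3 / 2 : ℝ)) ≤ 12 * c1 * Y := by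
      rw [← hWDY, mul_add]
      have h7 := mul_pos hc1 (mul_pos hD hGp)
      have h8 : 12 * c1 * (D * G ^ (3 / 2 : ℝ)) = 12 * (c1 * (D * G ^ (3 / 2 : ℝ))) := by ring
      linarith
    linarith

end Pool.Agent.N245.NS
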