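import Pool.Agent.N245.NsMax

/-!
# The criterion with one point of maximal vorticity
-/

set_option autoImplicit false

open MeasureTheory Set Filter
open scoped ENNReal NNReal Topology ContDiff

namespace Pool.Agent.N245.NS

open Pool.Agent.H708R2.EulerSign (grad divergence)
open Pool.Agent.H708R2.EulerTypeI (nrm vort)
open Pool.Agent.H708R2.EulerTypeI Pool.Agent.W786.Dir Pool.Agent.N245.EulerLoc
open Pool.Agent.R210 (cu sp_cu smooth_cu vort_eq)
open H459R3.NS hiding nrm nrm_sq nrm_nonneg

section

variable {v : V → V} (hv : ∀ i, SP (fun y => v y i))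

include hv in
lemma vort_cu : vort v = cu v := by
  funext y
  funext i
  exact vort_i hv y i

/-- the square of the vorticity -/
noncomputable def om (v : V → V) (x : V) : ℝ := ∑ i, cu v x i * cu v x i

lemma om_nonneg (v : V → V) (x : V) : 0 ≤ om v x :=
  Finset.sum_nonneg fun _ _ => mul_self_nonneg _

include hv in
lemma om_sp : SP (om v) := SP.sum fun i _ => (sp_cu hv i).mul (sp_cu hv i)

include hv in
lemma om_eq (x : V) : om v x = nrm (vort v x) ^ 2 := by
  rw [nrm_sq, vort_cu hv]
  rfl

include hv in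
/-- At a maximum point of the vorticity. -/
lemma om_max {x : V} (hmax : ∀ y, om v y ≤ om v x) :
    (∀ j, ∑ i, cu v x i * pd j (fun y => cu v y i) x = 0) ∧
      ∑ i, cu v x i * lap (fun y => cu v y i) x ≤ 0 := by
  have hs := sp_cu hv
  have e1 : ∀ j y, pd j (om v) y = 2 * ∑ i, cu v y i * pd j (fun y => cu v y i) y := by
    intro j y
    unfold om
    rw [pd_sum fun i _ => (hs i).mul (hs i), Finset.mul_sum]
    refine Finset.sum_congr rfl fun i _ => ?_
    rw [pd_mul (hs i) (hs i)]
    ring
  have e2 : ∀ j y, pd j (pd j (om v)) y = 2 * ∑ i, (cu v y i * pd j (pd j (fun y => cu v y i)) y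
      + pd j (fun y => cu v y i) y * pd j (fun y => cu v y i) y) := by
    intro j y
    have h1 : pd j (om v) = fun y => 2 * ∑ i, cu v y i * pd j (fun y => cu v y i) y :=
      funext fun y => e1 j y
    rw [h1, pd_cmul (SP.sum fun i _ => (hs i).mul ((hs i).pd j)),
      pd_sum fun i _ => (hs i).mul ((hs i).pd j)]
    congr 1
    refine Finset.sum_congr rfl fun i _ => ?_
    rw [pd_mul (hs i) ((hs i).pd j)]
  constructor
  · intro j
    have := (max_pd (om_sp hv) hmax j).1
    rw [e1] at this
    linarith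
  · have h1 : ∀ j, ∑ i, cu v x i * pd j (pd j (fun y => cu v y i)) x ≤ 0 := by
      intro j
      have h2 := (max_pd (om_sp hv) hmax j).2
      rw [e2, Finset.sum_add_distrib] at h2
      have h3 : 0 ≤ ∑ i, pd j (fun y => cu v y i) x * pd j (fun y => cu v y i) x :=
        Finset.sum_nonneg fun _ _ => mul_self_nonneg _
      linarith
    have e : ∑ i, cu v x i * lap (fun y => cu v y i) x =
        ∑ j, ∑ i, cu v x i * pd j (pd j (fun y => cu v y i)) x := by
      unfold H459R3.NS.lap
      rw [Finset.sum_comm]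
      refine Finset.sum_congr rfl fun i _ => ?_
      rw [Finset.mul_sum]
    rw [e]
    exact Finset.sum_nonpos fun j _ => h1 j

include hv in
/-- the integral of the square of the vorticity is the enstrophy -/
lemma int_om (hdiv : ∀ x, ∑ i, pd i (fun y => v y i) x = 0) :
    ∫ x in cube, om v x = enstrophy v := by
  have hs := sp_cu hv
  have hcross : ∀ i, ∑ j, ∫ x in cube, pd i (fun y => v y j) x * pd j (fun y => v y i) x = 0 := by
    intro i
    refine int_press (v := fun j => pd i (fun y => v y j)) (fun j => (hv j).pd i) (fun x => ?_)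
      (hv i)
    have h1 : ∀ j, pd j (pd i (fun y => v y j)) x = pd i (pd j (fun y => v y j)) x := fun j => by
      rw [pd_comm (hv j)]
    simp_rw [h1]
    rw [← pd_sum fun j _ => (hv j).pd j]
    have h2 : (fun y => ∑ j, pd j (fun y => v y j) y) = fun _ => (0 : ℝ) := funext hdiv
    rw [h2]
    unfold H459R3.NS.pd
    simp
  have hpt : ∀ x, om v x = (∑ i, ∑ j, pd j (fun y => v y i) x ^ 2)
      - ∑ i, ∑ j, pd i (fun y => v y j) x * pd j (fun y => v y i) x := by
    intro x
    unfold om Pool.Agent.R210.cu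
    simp only [Fin.sum_univ_three, Matrix.cons_val_zero, Matrix.cons_val_one, Matrix.cons_val]
    ring
  have i1 : ∀ i j, IntegrableOn (fun x => pd j (fun y => v y i) x ^ 2) cube := fun i j =>
    integrableOn_cube (((hv i).pd j).cont.pow 2)
  have i2 : ∀ i j, IntegrableOn (fun x => pd i (fun y => v y j) x * pd j (fun y => v y i) x)
    cube := fun i j => (((hv j).pd i).mul ((hv i).pd j)).int
  simp_rw [hpt]
  rw [integral_sub (integrable_finsetSum _ fun i _ => integrable_finsetSum _ fun j _ => i1 i j)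
    (integrable_finsetSum _ fun i _ => integrable_finsetSum _ fun j _ => i2 i j),
    Pool.Agent.R210.int_grad hv,
    integral_finsetSum (f := fun i x => ∑ j, pd i (fun y => v y j) x * pd j (fun y => v y i) x) _
      fun i _ => integrable_finsetSum _ fun j _ => i2 i j]
  have h0 : ∑ i, ∫ x in cube, ∑ j, pd i (fun y => v y j) x * pd j (fun y => v y i) x = 0 := by
    refine Finset.sum_eq_zero fun i _ => ?_
    rw [integral_finsetSum (f := fun j x => pd i (fun y => v y j) x * pd j (fun y => v y i) x) _
      fun j _ => i2 i j]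
    exact hcross i
  rw [h0, sub_zero]

include hv in
lemma enstrophy_le_of_om (hdiv : ∀ x, ∑ i, pd i (fun y => v y i) x = 0) {B : ℝ}
    (hB : ∀ x, om v x ≤ B) : enstrophy v ≤ B := by
  rw [← int_om hv hdiv]
  have h1 : ∫ x in cube, om v x ≤ ∫ _x in cube, B :=
    setIntegral_mono (om_sp hv).int (integrableOn_cube continuous_const) hB
  refine h1.trans (le_of_eq ?_)
  rw [setIntegral_const]
  have : volume.real (cube : Set V) = 1 := by
    unfold H459R3.NS.cube Measure.real
    rw [Real.volume_Icc_pi]
    simp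
  rw [this, one_smul]

end

variable {ν T : ℝ} {u : ℝ → V → V} {p : ℝ → V → ℝ}

lemma om_smooth (h : IsSol ν T u p) :
    ContDiffOn ℝ ∞ (fun z : ℝ × V => om (u z.1) z.2) (Ico 0 T ×ˢ univ) := by
  unfold om
  exact ContDiffOn.sum fun i _ => (smooth_cu h i).mul (smooth_cu h i)

/-- The time derivative at a maximum point. -/
lemma om_deriv (h : IsSol ν T u p) (hν : 0 < ν) {t : ℝ} (ht : t ∈ Ioo 0 T) {x : V}
    (hmax : ∀ y, om (u t) y ≤ om (u t) x) {e : V} {m : ℝ}
    (he : cu (u t) x = m • e) :
    deriv (fun s => om (u s) x) t ≤ 2 * rate (u t) e x * m ^ 2 := by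
  have hI : t ∈ Ico 0 T := ⟨ht.1.le, ht.2⟩
  have hsp : ∀ i, SP (fun y => u t y i) := fun i => h.sp hI i
  obtain ⟨hg, hl⟩ := om_max hsp hmax
  have h1 : HasDerivAt (fun s => om (u s) x) _ t :=
    HasDerivAt.fun_sum fun i _ => (vort_eq h ht i x).mul (vort_eq h ht i x)
  rw [h1.deriv]
  set c := cu (u t) x with hc
  have e1 : ∑ i, ((ν * lap (fun y => cu (u t) y i) x
      - (∑ j, u t x j * pd j (fun y => cu (u t) y i) x)
        + ∑ j, c j * pd j (fun y => u t y i) x) * c i
        + c i * (ν * lap (fun y => cu (u t) y i) x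
        - (∑ j, u t x j * pd j (fun y => cu (u t) y i) x)
        + ∑ j, c j * pd j (fun y => u t y i) x)) =
      2 * (ν * ∑ i, c i * lap (fun y => cu (u t) y i) x)
        - 2 * (∑ j, u t x j * ∑ i, c i * pd j (fun y => cu (u t) y i) x)
        + 2 * ∑ i, ∑ j, c i * c j * pd j (fun y => u t y i) x := by
    simp only [Fin.sum_univ_three]
    ring
  rw [e1]
  have e2 : ∑ j, u t x j * ∑ i, c i * pd j (fun y => cu (u t) y i) x = 0 :=
    Finset.sum_eq_zero fun j _ => by rw [hg j, mul_zero]
  rw [e2]
  have e3 : ∑ i, ∑ j, c i * c j * pd j (fun y => u t y i) x = m ^ 2 * rate (u t) e x := by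
    rw [rate_fun hsp, Finset.mul_sum]
    refine Finset.sum_congr rfl fun i _ => ?_
    rw [Finset.mul_sum]
    refine Finset.sum_congr rfl fun j _ => ?_
    rw [he]
    simp only [Pi.smul_apply, smul_eq_mul]
    ring
  rw [e3]
  have h2 : ν * ∑ i, c i * lap (fun y => cu (u t) y i) x ≤ 0 :=
    mul_nonpos_of_nonneg_of_nonpos hν.le hl
  linarith

end Pool.Agent.N245.NS
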