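import Pool.Agent.N245.NsFgt
import Pool.Agent.W786.Max1

/-!
# Growth of the running maximum
-/

set_option autoImplicit false

open MeasureTheory Set Filter
open scoped ENNReal NNReal Topology ContDiff

namespace Pool.Agent.N245.NS

open H459R3.NS
open Pool.Agent.W786.Max (growth_of_ae)

lemma cube_shift (x : V) : ∃ m : Fin 3 → ℤ, x + (fun i => (m i : ℝ)) ∈ cube := by
  refine ⟨fun i => -⌊x i⌋, fun i => ?_, fun i => ?_⟩
  · have := Int.floor_le (x i)
    simp only [Pi.add_apply, Pi.zero_apply]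
    push_cast
    linarith
  · have := Int.lt_floor_add_one (x i)
    simp only [Pi.add_apply, Pi.one_apply]
    push_cast
    linarith

variable {T : ℝ} {W : ℝ → V → ℝ}

/-- The running maximum. -/
noncomputable def Rm (W : ℝ → V → ℝ) (t : ℝ) : ℝ :=
  sSup ((fun z : ℝ × V => W z.1 z.2) '' (Icc 0 t ×ˢ cube))

section

variable (hW : ContDiffOn ℝ ∞ (fun z : ℝ × V => W z.1 z.2) (Ico 0 T ×ˢ univ))
  (hp : ∀ t ∈ Ico 0 T, Per (W t))

include hW in
lemma Rm_cont {t : ℝ} (ht : t ∈ Ico 0 T) :
    ContinuousOn (fun z : ℝ × V => W z.1 z.2) (Icc 0 t ×ˢ cube) :=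
  hW.continuousOn.mono (prod_mono (fun _ hs => ⟨hs.1, hs.2.trans_lt ht.2⟩) (subset_univ _))

include hW in
lemma Rm_bdd {t : ℝ} (ht : t ∈ Ico 0 T) :
    BddAbove ((fun z : ℝ × V => W z.1 z.2) '' (Icc 0 t ×ˢ cube)) :=
  (isCompact_Icc.prod isCompact_Icc).bddAbove_image (Rm_cont hW ht)

include hW hp in
lemma Rm_ge {t : ℝ} (ht : t ∈ Ico 0 T) {s : ℝ} (hs : s ∈ Icc 0 t) (x : V) : W s x ≤ Rm W t := by
  obtain ⟨m, hm⟩ := cube_shift x
  have h1 := (hp s ⟨hs.1, hs.2.trans_lt ht.2⟩).int m x
  rw [← h1]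
  exact le_csSup (Rm_bdd hW ht) ⟨(s, _), ⟨hs, hm⟩, rfl⟩

include hW in
lemma Rm_att {t : ℝ} (ht : t ∈ Ico 0 T) : ∃ s ∈ Icc 0 t, ∃ x : V, W s x = Rm W t := by
  have hne : (Icc (0 : ℝ) t ×ˢ cube).Nonempty := ⟨(0, 0), ⟨⟨le_rfl, ht.1⟩, ⟨le_rfl, zero_le_one⟩⟩⟩
  obtain ⟨z, hz, hzm⟩ := (isCompact_Icc.prod isCompact_Icc).exists_isMaxOn hne (Rm_cont hW ht)
  refine ⟨z.1, hz.1, z.2, le_antisymm (le_csSup (Rm_bdd hW ht) ⟨z, hz, rfl⟩) ?_⟩
  refine csSup_le (hne.image _) ?_
  rintro _ ⟨w, hw, rfl⟩
  exact hzm hw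

include hW hp in
lemma Rm_le {t B : ℝ} (ht : t ∈ Ico 0 T) (hB : ∀ s ∈ Icc 0 t, ∀ x, W s x ≤ B) : Rm W t ≤ B := by
  obtain ⟨s, hs, x, hx⟩ := Rm_att hW ht
  rw [← hx]
  exact hB s hs x

include hW hp in
lemma Rm_mono {s t : ℝ} (hs : 0 ≤ s) (hst : s ≤ t) (ht : t < T) : Rm W s ≤ Rm W t := by
  obtain ⟨r, hr, x, hx⟩ := Rm_att hW ⟨hs, hst.trans_lt ht⟩
  rw [← hx]
  exact Rm_ge hW hp ⟨hs.trans hst, ht⟩ ⟨hr.1, hr.2.trans hst⟩ x

include hW hp in
lemma W_growth {a b : ℝ} (ha : 0 < a) (hb : b < T) : ∃ C : ℝ, 0 ≤ C ∧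
    ∀ s ∈ Icc a b, ∀ t ∈ Icc a b, s ≤ t → ∀ x, W t x ≤ W s x + C * (t - s) := by
  set F : ℝ × V → ℝ := fun z => W z.1 z.2 with hF
  have hO : IsOpen (Ioo 0 T ×ˢ (univ : Set V)) := isOpen_Ioo.prod isOpen_univ
  have h1 : ContDiffOn ℝ 1 (fderiv ℝ F) (Ioo 0 T ×ˢ univ) :=
    (mono_Ioo (f := W) (n := 2) hW (by norm_cast)).fderiv_of_isOpen hO (by norm_num)
  have h2 : ContinuousOn (fun z => fderiv ℝ F z (1, 0)) (Ioo 0 T ×ˢ univ) :=
    h1.continuousOn.clm_apply continuousOn_const
  obtain ⟨C, hC⟩ := ((isCompact_Icc (a := a) (b := b)).prod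
    (isCompact_Icc : IsCompact cube)).exists_bound_of_continuousOn
    (h2.mono (prod_mono (fun s hs => ⟨ha.trans_le hs.1, hs.2.trans_lt hb⟩) (subset_univ _)))
  refine ⟨max C 0, le_max_right _ _, fun s hs t ht hst x => ?_⟩
  obtain ⟨m, hm⟩ := cube_shift x
  set x' := x + (fun i => (m i : ℝ)) with hx'
  have hIco : ∀ r ∈ Icc a b, r ∈ Ico 0 T := fun r hr => ⟨ha.le.trans hr.1, hr.2.trans_lt hb⟩
  have e1 : W t x' = W t x := (hp t (hIco t ht)).int m x
  have e2 : W s x' = W s x := (hp s (hIco s hs)).int m x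
  have h3 : ‖W t x' - W s x'‖ ≤ max C 0 * ‖t - s‖ := by
    refine (convex_Icc a b).norm_image_sub_le_of_norm_hasDerivWithin_le
      (f := fun r => W r x') (f' := fun r => fderiv ℝ F (r, x') (1, 0)) ?_ ?_ hs ht
    · intro r hr
      exact (hasDerivAt_slice (F := W) (mono_Ioo (f := W) hW (by norm_cast))
        ⟨ha.trans_le hr.1, hr.2.trans_lt hb⟩ x').hasDerivWithinAt
    · intro r hr
      exact (hC (r, x') ⟨hr, hm⟩).trans (le_max_left _ _)
  rw [Real.norm_eq_abs, Real.norm_eq_abs, abs_of_nonneg (by linarith : (0 : ℝ) ≤ t - s), e1, e2]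
    at h3
  linarith [(abs_le.1 h3).2]

include hW hp in
lemma Rm_growth {a b C : ℝ} (ha : 0 < a) (hb : b < T) (hC0 : 0 ≤ C)
    (hC : ∀ s ∈ Icc a b, ∀ t ∈ Icc a b, s ≤ t → ∀ x, W t x ≤ W s x + C * (t - s)) :
    ∀ s ∈ Icc a b, ∀ t ∈ Icc a b, s ≤ t → Rm W t ≤ Rm W s + C * (t - s) := by
  intro s hs t ht hst
  have htI : t ∈ Ico 0 T := ⟨ha.le.trans ht.1, ht.2.trans_lt hb⟩
  have hsI : s ∈ Ico 0 T := ⟨ha.le.trans hs.1, hs.2.trans_lt hb⟩
  refine Rm_le hW hp htI fun r hr x => ?_
  have h0 : 0 ≤ C * (t - s) := mul_nonneg hC0 (by linarith)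
  rcases le_or_gt r s with h | h
  · have := Rm_ge hW hp hsI ⟨hr.1, h⟩ x
    linarith
  · have h1 := hC s hs r ⟨hs.1.trans h.le, hr.2.trans ht.2⟩ h.le x
    have h2 := Rm_ge hW hp hsI ⟨hsI.1, le_rfl⟩ x
    have h3 : C * (r - s) ≤ C * (t - s) := mul_le_mul_of_nonneg_left (by linarith [hr.2]) hC0
    linarith

include hW hp in
/-- The running maximum grows at most like the maximum at those points and times where it is
attained. -/
theorem max_growth {κ : ℝ} (hκ : 0 < κ) {a b : ℝ} (ha : 0 < a) (hab : a ≤ b) (hb : b < T)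
    {ρ : ℝ → ℝ} (hρ0 : ∀ t ∈ Ioo a b, 0 ≤ ρ t) (hρi : IntervalIntegrable ρ volume a b)
    (hrec : ∀ᵐ t, t ∈ Ioo a b → (∃ z, ∀ s ∈ Icc 0 t, ∀ y, W s y ≤ W t z) →
      ∃ x, (∀ s ∈ Icc 0 t, ∀ y, W s y ≤ W t x) ∧
        (κ < W t x → deriv (fun s => W s x) t ≤ ρ t * W t x)) :
    max (Rm W b) κ ≤ max (Rm W a) κ * Real.exp (∫ t in a..b, ρ t) := by
  obtain ⟨C, hC0, hC⟩ := W_growth hW hp ha hb
  have hR := Rm_growth hW hp ha hb hC0 hC
  set m : ℝ → ℝ := fun t => max (Rm W t) κ with hm
  have hm0 : ∀ t, 0 < m t := fun t => hκ.trans_le (le_max_right _ _)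
  have hmκ : ∀ t, κ ≤ m t := fun t => le_max_right _ _
  set L : ℝ → ℝ := fun t => Real.log (m t) with hL
  have key : L b - L a ≤ ∫ t in a..b, ρ t := by
    refine growth_of_ae (C := C / κ) hab ?_ hρi ?_
    · intro s hs t ht hst
      have h1 : m t ≤ m s + C * (t - s) := by
        refine max_le ?_ ?_
        · exact (hR s hs t ht hst).trans (by have := le_max_left (Rm W s) κ; linarith)
        · have : 0 ≤ C * (t - s) := mul_nonneg hC0 (by linarith)
          have := hmκ s
          linarith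
      have h2 : L t - L s = Real.log (m t / m s) := (Real.log_div (hm0 t).ne' (hm0 s).ne').symm
      rw [h2]
      have h3 := Real.log_le_sub_one_of_pos (div_pos (hm0 t) (hm0 s))
      refine h3.trans ?_
      have h4 : m t / m s - 1 = (m t - m s) / m s := by
        rw [sub_div, div_self (hm0 s).ne']
      rw [h4]
      have h5 : (m t - m s) / m s ≤ C * (t - s) / m s :=
        div_le_div_of_nonneg_right (by linarith) (hm0 s).le
      refine h5.trans ?_
      rw [div_mul_eq_mul_div]
      exact div_le_div_of_nonneg_left (mul_nonneg hC0 (by linarith)) hκ (hmκ s)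
    · filter_upwards [hrec] with t ht htI d hd
      have htT : t ∈ Ioo 0 T := ⟨ha.trans htI.1, htI.2.trans hb⟩
      have htI' : t ∈ Ico 0 T := ⟨htT.1.le, htT.2⟩
      rcases le_or_gt (Rm W t) κ with hcase | hcase
      · -- minimum of L
        have hmin : IsLocalMin L t := by
          refine Eventually.of_forall fun s => ?_
          show L t ≤ L s
          have e : m t = κ := max_eq_right hcase
          show Real.log (m t) ≤ Real.log (m s)
          rw [e]
          exact Real.log_le_log hκ (hmκ s)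
        have := hmin.hasDerivAt_eq_zero hd
        rw [this]
        exact hρ0 t htI
      · have emt : m t = Rm W t := max_eq_left hcase.le
        by_cases hz : ∃ z, ∀ s ∈ Icc 0 t, ∀ y, W s y ≤ W t z
        · obtain ⟨x, hx1, hx2⟩ := ht htI hz
          have ex : W t x = Rm W t := le_antisymm (Rm_ge hW hp htI' ⟨htI'.1, le_rfl⟩ x)
            (Rm_le hW hp htI' hx1)
          have hκx : κ < W t x := by rw [ex]; exact hcase
          have hWx0 : 0 < W t x := hκ.trans hκx
          have hdW := hasDerivAt_slice (F := W) (mono_Ioo (f := W) hW (by norm_cast)) htT x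
          have hdW' : HasDerivAt (fun s => W s x) (deriv (fun s => W s x) t) t := by
            rw [hdW.deriv]
            exact hdW
          have hlog := hdW'.log hWx0.ne'
          have hsub := hd.sub hlog
          have hmin : IsLocalMin (L - fun s => Real.log (W s x)) t := by
            have hc : ContinuousAt (fun s => W s x) t := hdW.continuousAt
            have hev : ∀ᶠ s in 𝓝 t, 0 < W s x := hc.eventually_const_lt hWx0
            have hev2 : ∀ᶠ s in 𝓝 t, s ∈ Ioo 0 T := isOpen_Ioo.mem_nhds htT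
            filter_upwards [hev, hev2] with s hs hsT
            show L t - Real.log (W t x) ≤ L s - Real.log (W s x)
            have e1 : L t = Real.log (W t x) := by
              show Real.log (m t) = _
              rw [emt, ex]
            rw [e1, sub_self, sub_nonneg]
            show Real.log (W s x) ≤ Real.log (m s)
            refine Real.log_le_log hs ?_
            exact (Rm_ge hW hp ⟨hsT.1.le, hsT.2⟩ ⟨hsT.1.le, le_rfl⟩ x).trans (le_max_left _ _)
          have h0 := hmin.hasDerivAt_eq_zero hsub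
          have h1 : d = deriv (fun s => W s x) t / W t x := by linarith
          rw [h1, div_le_iff₀ hWx0]
          exact hx2 hκx
        · -- no growth
          have hcomp : IsCompact cube := isCompact_Icc
          have hct : ContinuousOn (W t) cube := by
            have : ContinuousOn (fun y : V => ((t, y) : ℝ × V)) cube := by fun_prop
            exact hW.continuousOn.comp this fun y _ => ⟨htI', mem_univ _⟩
          obtain ⟨z, _, hzm⟩ := hcomp.exists_isMaxOn ⟨0, ⟨le_rfl, zero_le_one⟩⟩ hct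
          have hzm' : ∀ y, W t y ≤ W t z := by
            intro y
            obtain ⟨n, hn⟩ := cube_shift y
            have := (hp t htI').int n y
            rw [← this]
            exact hzm hn
          push Not at hz
          obtain ⟨s, hs, y, hy⟩ := hz z
          have hlt : W t z < Rm W t := hy.trans_le (Rm_ge hW hp htI' hs y)
          have hev : ∀ᶠ r in 𝓝[>] t, L r = L t := by
            have h1 : 0 < (Rm W t - W t z) / (C + 1) := div_pos (by linarith) (by linarith)
            have h2 : Ioo t (min b (t + (Rm W t - W t z) / (C + 1))) ∈ 𝓝[>] t :=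
              Ioo_mem_nhdsGT (lt_min htI.2 (by linarith))
            filter_upwards [h2] with r hr
            have hrb : r < b := hr.2.trans_le (min_le_left _ _)
            have hrI : r ∈ Ico 0 T := ⟨htT.1.le.trans hr.1.le, hrb.trans hb⟩
            have hrδ : r - t < (Rm W t - W t z) / (C + 1) := by
              have := hr.2.trans_le (min_le_right _ _)
              linarith
            have h3 : C * (r - t) ≤ Rm W t - W t z := by
              have h4 : (r - t) * (C + 1) < Rm W t - W t z := by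
                rwa [lt_div_iff₀ (by linarith)] at hrδ
              have h5 : 0 < r - t := by linarith [hr.1]
              nlinarith
            have h6 : Rm W r ≤ Rm W t := by
              refine Rm_le hW hp hrI fun q hq x => ?_
              rcases le_or_gt q t with h | h
              · exact Rm_ge hW hp htI' ⟨hq.1, h⟩ x
              · have a1 := hC t ⟨htI.1.le, htI.2.le⟩ q ⟨htI.1.le.trans h.le, hq.2.trans hrb.le⟩ h.le x
                have a2 := hzm' x
                have a3 : C * (q - t) ≤ C * (r - t) :=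
                  mul_le_mul_of_nonneg_left (by linarith [hq.2]) hC0
                linarith
            have h7 : Rm W t ≤ Rm W r := Rm_mono hW hp htT.1.le hr.1.le hrI.2
            show Real.log (max (Rm W r) κ) = Real.log (max (Rm W t) κ)
            rw [le_antisymm h6 h7]
          have hd0 : d = 0 := by
            have h1 : HasDerivWithinAt L d (Ioi t) t := hd.hasDerivWithinAt
            have h2 : HasDerivWithinAt L 0 (Ioi t) t :=
              (hasDerivWithinAt_const t (Ioi t) (L t)).congr_of_eventuallyEq hev rfl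
            exact (uniqueDiffWithinAt_Ioi t).eq_deriv _ h1 h2
          rw [hd0]
          exact hρ0 t htI
  have h1 : L b ≤ L a + ∫ t in a..b, ρ t := by linarith
  have h2 := Real.exp_le_exp.2 h1
  rw [Real.exp_add] at h2
  simpa only [hL, Real.exp_log (hm0 b), Real.exp_log (hm0 a)] using h2

end

/-! ### Second derivative test -/

lemma second_le {g : ℝ → ℝ} (hg : Continuous g) (hmax : ∀ s, g s ≤ g 0) :
    deriv (deriv g) 0 ≤ 0 := by
  by_contra h
  push Not at h
  have h1 : IsLocalMax g 0 := Eventually.of_forall hmax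
  have h2 : IsLocalMin g 0 := isLocalMin_of_deriv_deriv_pos h h1.deriv_eq_zero hg.continuousAt
  have h3 : g =ᶠ[𝓝 0] fun _ => g 0 := by
    filter_upwards [h2] with s hs
    exact le_antisymm (hmax s) hs
  have h4 : deriv g =ᶠ[𝓝 0] fun _ => 0 := by
    refine h3.deriv.trans (Eventually.of_forall fun s => ?_)
    simp
  have h5 := h4.deriv_eq
  rw [deriv_const] at h5
  linarith

lemma pd_line {f : V → ℝ} (hf : SP f) (x : V) (j : Fin 3) (s : ℝ) :
    HasDerivAt (fun s : ℝ => f (x + s • Pi.single j 1)) (pd j f (x + s • Pi.single j 1)) s := by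
  have h1 : HasFDerivAt f (fderiv ℝ f (x + s • Pi.single j 1)) (x + s • Pi.single j 1) :=
    (hf.diff _).hasFDerivAt
  have h2 : HasDerivAt (fun s : ℝ => x + s • (Pi.single j 1 : V)) (Pi.single j 1) s := by
    have := ((hasDerivAt_id s).smul_const (Pi.single j 1 : V)).const_add x
    simpa using this
  exact h1.comp_hasDerivAt s h2

lemma max_pd {f : V → ℝ} (hf : SP f) {x : V} (hmax : ∀ y, f y ≤ f x) (j : Fin 3) :
    pd j f x = 0 ∧ pd j (pd j f) x ≤ 0 := by
  have h1 : ∀ s, deriv (fun s : ℝ => f (x + s • Pi.single j 1)) s = pd j f (x + s • Pi.single j 1) :=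
    fun s => (pd_line hf x j s).deriv
  have h2 : deriv (fun s : ℝ => f (x + s • Pi.single j 1)) =
      fun s => pd j f (x + s • Pi.single j 1) := funext h1
  have hm : ∀ s : ℝ, f (x + s • Pi.single j 1) ≤ f (x + (0 : ℝ) • Pi.single j 1) := by
    intro s
    rw [zero_smul, add_zero]
    exact hmax _
  constructor
  · have h3 : IsLocalMax (fun s : ℝ => f (x + s • Pi.single j 1)) 0 := Eventually.of_forall hm
    have h4 := h3.deriv_eq_zero
    rw [h1, zero_smul, add_zero] at h4
    exact h4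
  · have hc : Continuous fun s : ℝ => f (x + s • Pi.single j 1) :=
      hf.cont.comp (by fun_prop)
    have h3 := second_le hc hm
    rw [h2, (pd_line (hf.pd j) x j 0).deriv, zero_smul, add_zero] at h3
    exact h3

end Pool.Agent.N245.NS
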