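import Pool.Agent.N245.NsMain

/-!
# The criterion with one point of maximal vorticity: conclusion
-/

set_option autoImplicit false

open MeasureTheory Set Filter
open scoped ENNReal NNReal Topology ContDiff

namespace Pool.Agent.N245.NS

open Pool.Agent.H708R2.EulerSign (grad divergence)
open Pool.Agent.H708R2.EulerTypeI (nrm vort)
open Pool.Agent.H708R2.EulerTypeI Pool.Agent.W786.Dir Pool.Agent.N245.EulerLoc
open Pool.Agent.R210 (cu sp_cu smooth_cu vort_eq)
open H459R3.NS hiding nrm nrm_sq nrm_nonneg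

variable {ν T : ℝ} {u : ℝ → V → V} {p : ℝ → V → ℝ}

lemma kern_left (c : ℝ) (w a b : V) :
    -((w ⬝ᵥ (c • b)) * (a ⬝ᵥ cross w (c • b))) = c ^ 2 * -((w ⬝ᵥ b) * (a ⬝ᵥ cross w b)) := by
  unfold cross
  simp only [dotProduct, Fin.sum_univ_three, Pi.smul_apply, smul_eq_mul, Matrix.cons_val_zero,
    Matrix.cons_val_one, Matrix.cons_val]
  ring

/-- The growth rate at a maximum point. -/
lemma rate_max (h : IsSol ν T u p) (hν : 0 < ν) {β θ G K ρ : ℝ} (hβ : 0 < β) (hβ1 : β ≤ 1)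
    (hθ0 : 0 ≤ θ) (hθ : θ < (3 - 2 * β) / (3 - β))
    (hG : 0 < G) (hK : 0 ≤ K) (hρ : 0 < ρ) (hρ1 : ρ ≤ 1 / 2) {t : ℝ} (ht : t ∈ Ioo 0 T) {x : V}
    (hmax : ∀ y, nrm (vort (u t) y) ≤ nrm (vort (u t) x)) (hpos : 0 < nrm (vort (u t) x))
    (hc : ∀ y, nrm (y - x) < ρ → K * (1 + nrm (vort (u t) x)) ^ θ < nrm (vort (u t) y) →
      -(((y - x) ⬝ᵥ vort (u t) x) * (vort (u t) y ⬝ᵥ cross (y - x) (vort (u t) x))) ≤
        nrm (y - x) ^ 2 * ((G * nrm (y - x)) ^ β *
          (nrm (vort (u t) x) ^ 2 * nrm (vort (u t) y)))) :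
    deriv (fun s => om (u s) x) t ≤ 2 * (Cr β θ G K (energy (u 0)) *
      (nrm (vort (u t) x) ^ ((3 - 2 * β) / (3 - β)) + ((1 + enstrophy (u t)) +
      (1 + enstrophy (u t) + third (u t)) ^ (1 / 5 : ℝ)) + ρ ^ (-(5 / 2) : ℝ))) * om (u t) x := by
  have hI : t ∈ Ico 0 T := ⟨ht.1.le, ht.2⟩
  have hsp : ∀ i, SP (fun y => u t y i) := fun i => h.sp hI i
  set m := nrm (vort (u t) x) with hm
  set e : V := (1 / m) • vort (u t) x with he
  have hmi : 0 < 1 / m := by positivity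
  have hne : nrm e = 1 := by
    rw [he, nrm_smul, abs_of_pos hmi, ← hm]
    field_simp
  have hce : cu (u t) x = m • e := by
    rw [he, smul_smul, mul_one_div_cancel hpos.ne', one_smul, vort_cu hsp]
  have hmaxom : ∀ y, om (u t) y ≤ om (u t) x := by
    intro y
    rw [om_eq hsp, om_eq hsp]
    exact pow_le_pow_left₀ (nrm_nonneg _) (hmax y) 2
  have h1 := om_deriv h hν ht hmaxom hce
  have h2 := rate_fix hsp (h.divfree t hI) hne.le hβ hβ1 hθ0 hθ hG hK hpos (h.energy_le hν hI)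
    hρ hρ1 (x₀ := x)
    (fun y hy hKy => by
      rw [he, kern_left]
      have h3 := mul_le_mul_of_nonneg_left (hc y hy hKy) (sq_nonneg (1 / m))
      refine h3.trans (le_of_eq ?_)
      field_simp) hmax
  rw [om_eq hsp]
  refine h1.trans ?_
  refine mul_le_mul_of_nonneg_right ?_ (sq_nonneg _)
  exact mul_le_mul_of_nonneg_left h2 (by norm_num)

lemma cont_base (h : IsSol ν T u p) {b : ℝ} (hb : b < T) :
    ContinuousOn (fun t => (1 + enstrophy (u t)) +
      (1 + enstrophy (u t) + third (u t)) ^ (1 / 5 : ℝ)) (Icc 0 b) := by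
  have hsub : Icc 0 b ⊆ Ico 0 T := fun s hs => ⟨hs.1, hs.2.trans_lt hb⟩
  have hyc := h.enstrophy_continuousOn.mono hsub
  have hZc := (third_continuousOn h).mono hsub
  exact (continuousOn_const.add hyc).add
    (((continuousOn_const.add hyc).add hZc).rpow_const fun s _ => Or.inr (by norm_num))

lemma base_nonneg (v : V → V) : 0 ≤ (1 + enstrophy v) +
      (1 + enstrophy v + third v) ^ (1 / 5 : ℝ) := by
  have := enstrophy_nonneg v
  have := third_nonneg v
  positivity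

/-- The power of the maximum of the vorticity is controlled: by assumption if `β < 1`, by the
theorem of Foias, Guillope and Temam if `β = 1`. -/
lemma power_int (h : IsSol ν T u p) (hν : 0 < ν) {β : ℝ} (hβ : 0 < β) (hβ1 : β ≤ 1)
    (hint : β < 1 → IntegrableOn
      (fun t => (⨆ x, nrm (vort (u t) x)) ^ ((3 - 2 * β) / (3 - β))) (Ioo 0 T)) :
    ∃ q : ℝ → ℝ, ∃ Q : ℝ, (∀ t ∈ Ioo 0 T, 0 ≤ q t) ∧
      (∀ a b, 0 < a → a ≤ b → b < T → IntervalIntegrable q volume a b ∧ ∫ t in a..b, q t ≤ Q) ∧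
      ∀ t ∈ Ioo 0 T, ∀ x, (∀ y, nrm (vort (u t) y) ≤ nrm (vort (u t) x)) →
        nrm (vort (u t) x) ^ ((3 - 2 * β) / (3 - β)) ≤ q t := by
  rcases lt_or_eq_of_le hβ1 with hlt | heq
  · have hi := hint hlt
    set q : ℝ → ℝ := fun t => (⨆ x, nrm (vort (u t) x)) ^ ((3 - 2 * β) / (3 - β)) with hq
    have hq0 : ∀ t, 0 ≤ q t := fun t =>
      Real.rpow_nonneg (Real.iSup_nonneg fun x => nrm_nonneg _) _
    refine ⟨q, ∫ t in Ioo 0 T, q t, fun t _ => hq0 t, fun a b ha hab hb => ?_, fun t ht x hx => ?_⟩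
    · have hi2 : IntegrableOn q (Ioc a b) := hi.mono_set fun t ht => ⟨ha.trans ht.1, ht.2.trans_lt hb⟩
      refine ⟨(intervalIntegrable_iff_integrableOn_Ioc_of_le hab).2 hi2, ?_⟩
      rw [intervalIntegral.integral_of_le hab]
      refine setIntegral_mono_set hi (Eventually.of_forall fun t => hq0 t) ?_
      have hss : Ioc a b ⊆ Ioo 0 T := fun t ht => ⟨ha.trans ht.1, ht.2.trans_lt hb⟩
      exact hss.eventuallyLE
    · have hbdd : BddAbove (range fun y => nrm (vort (u t) y)) := by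
        refine ⟨nrm (vort (u t) x), ?_⟩
        rintro _ ⟨y, rfl⟩
        exact hx y
      refine Real.rpow_le_rpow (nrm_nonneg _) (le_ciSup hbdd x) ?_
      have h1 : 0 < 3 - β := by linarith
      have h2 : 0 < 3 - 2 * β := by linarith
      positivity
  · obtain ⟨C, hC0, hC⟩ := fgt h hν
    set A := (324 * c2 ^ 2 : ℝ) ^ (1 / 4 : ℝ) with hA
    have hc2 := c2_pos
    have hA0 : 0 < A := by positivity
    refine ⟨fun t => A * ((1 + enstrophy (u t)) +
      (1 + enstrophy (u t) + third (u t)) ^ (1 / 5 : ℝ)), A * C,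
      fun t _ => mul_nonneg hA0.le (base_nonneg _), fun a b ha hab hb => ?_, fun t ht x hx => ?_⟩
    · have hc := cont_base h hb
      have hc' := hc.mono (Icc_subset_Icc_left ha.le)
      have i1 := hc'.intervalIntegrable_of_Icc (μ := volume) hab
      refine ⟨i1.const_mul A, ?_⟩
      rw [intervalIntegral.integral_const_mul]
      refine mul_le_mul_of_nonneg_left ?_ hA0.le
      refine le_trans ?_ (hC b ⟨ha.le.trans hab, hb⟩)
      rw [intervalIntegral.integral_of_le hab, intervalIntegral.integral_of_le (ha.le.trans hab)]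
      refine setIntegral_mono_set (hc.integrableOn_Icc.mono_set Ioc_subset_Icc_self)
        (Eventually.of_forall fun t => base_nonneg _)
        (Ioc_subset_Ioc_left ha.le).eventuallyLE
    · have hI : t ∈ Ico 0 T := ⟨ht.1.le, ht.2⟩
      have hsp : ∀ i, SP (fun y => u t y i) := fun i => h.sp hI i
      have h1 := vort_sup hsp x
      have hy0 := enstrophy_nonneg (u t)
      have hz0 := third_nonneg (u t)
      set Y := 1 + enstrophy (u t) with hY
      set Z := Y + third (u t) with hZ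
      have hY0 : 0 < Y := by linarith
      have hZ0 : 0 < Z := by linarith
      set m := nrm (vort (u t) x) with hm
      have hm0 : 0 ≤ m := nrm_nonneg _
      have e1 : ((3 - 2 * β) / (3 - β) : ℝ) = 1 / 2 := by rw [heq]; norm_num
      rw [e1]
      have h2 : m ^ (1 / 2 : ℝ) = (m ^ 2) ^ (1 / 4 : ℝ) := by
        rw [← Real.rpow_natCast, ← Real.rpow_mul hm0]
        norm_num
      rw [h2]
      have h3 : (m ^ 2) ^ (1 / 4 : ℝ) ≤
          (324 * c2 ^ 2 * (Y ^ (1 / 4 : ℝ) * Z ^ (3 / 4 : ℝ))) ^ (1 / 4 : ℝ) :=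
        Real.rpow_le_rpow (sq_nonneg _) h1 (by norm_num)
      refine h3.trans ?_
      have e2 : (1 / 4 * (1 / 4) : ℝ) = 1 / 16 := by norm_num
      have e3 : (3 / 4 * (1 / 4) : ℝ) = 1 / 5 * (15 / 16) := by norm_num
      have e4 : (324 * c2 ^ 2 * (Y ^ (1 / 4 : ℝ) * Z ^ (3 / 4 : ℝ))) ^ (1 / 4 : ℝ) =
          A * (Y ^ (1 / 16 : ℝ) * Z ^ (1 / 5 * (15 / 16) : ℝ)) := by
        have p1 : 0 ≤ Y ^ (1 / 4 : ℝ) := by positivity
        have p2 : 0 ≤ Z ^ (3 / 4 : ℝ) := by positivity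
        rw [Real.mul_rpow (x := 324 * c2 ^ 2) (by positivity) (mul_nonneg p1 p2),
          Real.mul_rpow p1 p2, ← Real.rpow_mul hY0.le, ← Real.rpow_mul hZ0.le, e2, e3]
      rw [e4]
      refine mul_le_mul_of_nonneg_left ?_ hA0.le
      have k1 := Real.geom_mean_le_arith_mean2_weighted (w₁ := 1 / 16) (w₂ := 15 / 16)
        (p₁ := Y) (p₂ := Z ^ (1 / 5 : ℝ)) (by norm_num) (by norm_num) hY0.le (by positivity)
        (by norm_num)
      rw [← Real.rpow_mul hZ0.le] at k1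
      refine k1.trans ?_
      have k2 : 0 ≤ Z ^ (1 / 5 : ℝ) := by positivity
      linarith

/-- The vorticity is bounded. -/
theorem om_bounded (h : IsSol ν T u p) (hν : 0 < ν) (hT : 0 < T) {β θ G K : ℝ} (hβ : 0 < β)
    (hβ1 : β ≤ 1) (hθ0 : 0 ≤ θ) (hθ : θ < (3 - 2 * β) / (3 - β)) (hG : 0 < G) (hK : 0 ≤ K)
    (hint : β < 1 → IntegrableOn
      (fun t => (⨆ x, nrm (vort (u t) x)) ^ ((3 - 2 * β) / (3 - β))) (Ioo 0 T))
    {r : ℝ → ℝ} (hr : ∀ t ∈ Ioo 0 T, 0 < r t ∧ r t ≤ 1 / 2)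
    (hri : IntegrableOn (fun t => r t ^ (-(5 / 2) : ℝ)) (Ioo 0 T))
    (hcoh : ∀ᵐ t, t ∈ Ioo 0 T →
      (∃ z, ∀ s ∈ Icc 0 t, ∀ y, nrm (vort (u s) y) ≤ nrm (vort (u t) z)) →
      ∃ x, (∀ s ∈ Icc 0 t, ∀ y, nrm (vort (u s) y) ≤ nrm (vort (u t) x)) ∧
        ∀ y, nrm (y - x) < r t → K * (1 + nrm (vort (u t) x)) ^ θ < nrm (vort (u t) y) →
          -(((y - x) ⬝ᵥ vort (u t) x) * (vort (u t) y ⬝ᵥ cross (y - x) (vort (u t) x))) ≤
            nrm (y - x) ^ 2 * ((G * nrm (y - x)) ^ β *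
              (nrm (vort (u t) x) ^ 2 * nrm (vort (u t) y)))) :
    ∃ B, ∀ t ∈ Ico 0 T, ∀ x, om (u t) x ≤ B := by
  obtain ⟨q, Q, hq0, hqi, hqx⟩ := power_int h hν hβ hβ1 hint
  obtain ⟨C, hC0, hC⟩ := fgt h hν
  have hsp : ∀ t ∈ Ico 0 T, ∀ i, SP (fun y => u t y i) := fun t ht i => h.sp ht i
  have hW := om_smooth h
  have hp : ∀ t ∈ Ico 0 T, Per (om (u t)) := fun t ht => (om_sp (hsp t ht)).per
  have hCr := Cr_pos (E := energy (u 0)) hβ hβ1 hθ hG hK
  set D := Cr β θ G K (energy (u 0)) with hD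
  have ha : 0 < T / 2 := by linarith
  set a := T / 2 with haT
  have haT' : a < T := by linarith
  set ρ : ℝ → ℝ := fun t => 2 * (D * (q t + ((1 + enstrophy (u t)) +
      (1 + enstrophy (u t) + third (u t)) ^ (1 / 5 : ℝ)) + r t ^ (-(5 / 2) : ℝ))) with hρ
  have hρ0 : ∀ t ∈ Ioo 0 T, 0 ≤ ρ t := fun t ht => by
    have := hq0 t ht
    have := base_nonneg (u t)
    have : 0 ≤ r t ^ (-(5 / 2) : ℝ) := Real.rpow_nonneg (hr t ht).1.le _
    positivity
  have hsq : ∀ s ∈ Ico 0 T, ∀ t ∈ Ico 0 T, ∀ x y, om (u s) y ≤ om (u t) x ↔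
      nrm (vort (u s) y) ≤ nrm (vort (u t) x) := by
    intro s hs t ht x y
    rw [om_eq (hsp s hs), om_eq (hsp t ht)]
    exact pow_le_pow_iff_left₀ (nrm_nonneg _) (nrm_nonneg _) two_ne_zero
  set Rr := ∫ t in Ioo 0 T, r t ^ (-(5 / 2) : ℝ) with hRr
  set Bd := 2 * (D * (Q + C + Rr)) with hBd
  set R := max (Rm (fun t => om (u t)) a) 1 with hR
  have hR1 : 1 ≤ R := le_max_right _ _
  refine ⟨R * Real.exp (max Bd 0), fun t ht x => ?_⟩
  have hexp : 1 ≤ Real.exp (max Bd 0) := Real.one_le_exp (le_max_right _ _)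
  rcases le_or_gt t a with hta | hta
  · have h1 := Rm_ge hW hp ⟨ha.le, haT'⟩ (s := t) ⟨ht.1, hta⟩ x
    have h2 : om (u t) x ≤ R := h1.trans (le_max_left _ _)
    nlinarith
  · have i2 : IntervalIntegrable (fun t => (1 + enstrophy (u t)) +
        (1 + enstrophy (u t) + third (u t)) ^ (1 / 5 : ℝ)) volume a t :=
      ((cont_base h ht.2).mono (Icc_subset_Icc_left ha.le)).intervalIntegrable_of_Icc hta.le
    have hss : Ioc a t ⊆ Ioo 0 T := fun s hs => ⟨ha.trans hs.1, hs.2.trans_lt ht.2⟩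
    have i3 : IntervalIntegrable (fun t => r t ^ (-(5 / 2) : ℝ)) volume a t :=
      (intervalIntegrable_iff_integrableOn_Ioc_of_le hta.le).2 (hri.mono_set hss)
    have hρi : IntervalIntegrable ρ volume a t := by
      have i1 := (hqi a t ha hta.le ht.2).1
      exact (((i1.add i2).add i3).const_mul D).const_mul 2
    have h1 := max_growth hW hp (κ := 1) one_pos ha hta.le ht.2 (ρ := ρ)
      (fun s hs => hρ0 s ⟨ha.trans hs.1, hs.2.trans ht.2⟩) hρi (by
        filter_upwards [hcoh] with s hs hsI hz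
        have hsT : s ∈ Ioo 0 T := ⟨ha.trans hsI.1, hsI.2.trans ht.2⟩
        have hsT' : s ∈ Ico 0 T := ⟨hsT.1.le, hsT.2⟩
        obtain ⟨z, hz⟩ := hz
        have hIco : ∀ r ∈ Icc 0 s, r ∈ Ico 0 T := fun r hr => ⟨hr.1, hr.2.trans_lt hsT.2⟩
        obtain ⟨x, hx1, hx2⟩ := hs hsT ⟨z, fun r hr y => (hsq r (hIco r hr) s hsT' z y).1 (hz r hr y)⟩
        refine ⟨x, fun r hr y => (hsq r (hIco r hr) s hsT' x y).2 (hx1 r hr y), fun h1x => ?_⟩
        have hmax : ∀ y, nrm (vort (u s) y) ≤ nrm (vort (u s) x) := fun y =>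
          hx1 s ⟨hsT'.1, le_rfl⟩ y
        have hpos : 0 < nrm (vort (u s) x) := by
          refine lt_of_le_of_ne (nrm_nonneg _) fun h0 => ?_
          rw [om_eq (hsp s hsT'), ← h0] at h1x
          norm_num at h1x
        refine (rate_max h hν hβ hβ1 hθ0 hθ hG hK (hr s hsT).1 (hr s hsT).2 hsT hmax hpos
          hx2).trans ?_
        refine mul_le_mul_of_nonneg_right ?_ (om_nonneg _ _)
        refine mul_le_mul_of_nonneg_left ?_ (by norm_num)
        refine mul_le_mul_of_nonneg_left ?_ hCr.le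
        have := hqx s hsT x hmax
        linarith)
    have h2 : ∫ s in a..t, ρ s ≤ Bd := by
      have i1 := hqi a t ha hta.le ht.2
      rw [hρ]
      rw [intervalIntegral.integral_const_mul, intervalIntegral.integral_const_mul,
        intervalIntegral.integral_add (i1.1.add i2) i3, intervalIntegral.integral_add i1.1 i2]
      refine mul_le_mul_of_nonneg_left ?_ (by norm_num)
      refine mul_le_mul_of_nonneg_left ?_ hCr.le
      have h3 : ∫ s in a..t, ((1 + enstrophy (u s)) +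
        (1 + enstrophy (u s) + third (u s)) ^ (1 / 5 : ℝ)) ≤ C := by
        refine le_trans ?_ (hC t ht)
        rw [intervalIntegral.integral_of_le hta.le, intervalIntegral.integral_of_le ht.1]
        exact setIntegral_mono_set ((cont_base h ht.2).integrableOn_Icc.mono_set Ioc_subset_Icc_self)
          (Eventually.of_forall fun t => base_nonneg _)
          (Ioc_subset_Ioc_left ha.le).eventuallyLE
      have h4 : ∫ s in a..t, r s ^ (-(5 / 2) : ℝ) ≤ Rr := by
        rw [intervalIntegral.integral_of_le hta.le]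
        refine setIntegral_mono_set hri ?_ hss.eventuallyLE
        refine (ae_restrict_iff' measurableSet_Ioo).2 (Eventually.of_forall fun s hs => ?_)
        exact Real.rpow_nonneg (hr s hs).1.le _
      linarith [i1.2]
    have h3 := Rm_ge hW hp ht (s := t) ⟨ht.1, le_rfl⟩ x
    calc om (u t) x ≤ Rm (fun t => om (u t)) t := h3
      _ ≤ max (Rm (fun t => om (u t)) t) 1 := le_max_left _ _
      _ ≤ R * Real.exp (∫ s in a..t, ρ s) := h1
      _ ≤ R * Real.exp (max Bd 0) := by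
          have := Real.exp_le_exp.2 (h2.trans (le_max_left Bd 0))
          have h0 : 0 ≤ R := by linarith
          exact mul_le_mul_of_nonneg_left this h0

/-- Bounded vorticity: bounded enstrophy and velocity. -/
theorem bounded_of_om (h : IsSol ν T u p) (hν : 0 < ν) {B : ℝ}
    (hB : ∀ t ∈ Ico 0 T, ∀ x, om (u t) x ≤ B) :
    (∃ A, ∀ t ∈ Ico 0 T, enstrophy (u t) ≤ A) ∧ ∃ M, ∀ t ∈ Ico 0 T, ∀ x i, |u t x i| ≤ M := by
  have hen : ∀ t ∈ Ico 0 T, enstrophy (u t) ≤ B := fun t ht =>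
    enstrophy_le_of_om (fun i => h.sp ht i) (h.divfree t ht) (hB t ht)
  refine ⟨⟨B, hen⟩, ?_⟩
  rcases le_or_gt T 0 with hT | hT
  · exact ⟨0, fun t ht => absurd (ht.1.trans_lt ht.2) (by linarith)⟩
  obtain ⟨C, hC0, hC⟩ := cub_est hν (energy_nonneg (u 0))
  have hB0 : 0 ≤ B := (enstrophy_nonneg (u 0)).trans (hen 0 ⟨le_rfl, hT⟩)
  have h1 := h.gron hν (g := fun _ => C * (1 + B) ^ 2) (B := C * (1 + B) ^ 2 * T) (δ := 1) one_pos
    (fun _ _ => by positivity) (fun t _ => integrableOn_const (by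
      rw [Real.volume_Icc]; exact ENNReal.ofReal_ne_top)) (fun t ht => by
      rw [intervalIntegral.integral_const, smul_eq_mul, mul_comm, sub_zero]
      exact mul_le_mul_of_nonneg_left ht.2.le (by positivity)) (fun s hs => by
      have hsI : s ∈ Ico 0 T := ⟨hs.1.le, hs.2⟩
      have h2 := hC (u s) (fun i => h.sp hsI i) (h.energy_le hν hsI)
      have h3 := hen s hsI
      have h4 := enstrophy_nonneg (u s)
      refine h2.trans ?_
      have h5 : (1 + enstrophy (u s)) ^ 2 * enstrophy (u s) ≤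
          (1 + B) ^ 2 * enstrophy (u s) := by gcongr
      have h6 := mul_le_mul_of_nonneg_left h5 hC0.le
      linarith)
  exact h1.2

end Pool.Agent.N245.NS
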