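import Pool.Agent.N245.NsLoc
import Pool.Agent.R210.Diss

/-!
# Local Sobolev estimates by means over balls
-/

set_option autoImplicit false

open MeasureTheory Set Filter
open scoped ENNReal NNReal Topology ContDiff

namespace Pool.Agent.N245.NS

open Pool.Agent.H708R2.EulerSign Pool.Agent.H708R2.EulerTypeI Pool.Agent.W786.Dir
  Pool.Agent.N245.EulerLoc

open H459R3.NS (pd lap)

variable {f : V → ℝ} {x : V} {r : ℝ}

/-- means -/
noncomputable def mn (n : ℕ) (f : V → ℝ) (x : V) (r : ℝ) : ℝ := ∫ z, P (n + 2) z * f (x + r • z)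

noncomputable def mn' (n : ℕ) (f : V → ℝ) (x : V) (r : ℝ) : ℝ :=
  ∫ z, P (n + 2) z * fderiv ℝ f (x + r • z) z

lemma mn_deriv (n : ℕ) (hf : ContDiff ℝ 1 f) (x : V) (r : ℝ) :
    HasDerivAt (mn n f x) (mn' n f x r) r :=
  param_deriv (P_cont (n + 2)) (P_supp (n + 1)) hf x r

lemma mn_zero (n : ℕ) (f : V → ℝ) (x : V) : mn n f x 0 = (∫ z, P (n + 2) z) * f x := by
  simp only [mn, zero_smul, add_zero]
  rw [integral_mul_const]

/-- square of the gradient -/
noncomputable def gs (f : V → ℝ) (y : V) : ℝ := ∑ j, pd j f y ^ 2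

lemma gs_nonneg (f : V → ℝ) (y : V) : 0 ≤ gs f y := Finset.sum_nonneg fun _ _ => sq_nonneg _

lemma pd_contDiff {n : WithTop ℕ∞} (hf : ContDiff ℝ (n + 1) f) (j : Fin 3) :
    ContDiff ℝ n (pd j f) :=
  (hf.fderiv_right le_rfl).clm_apply contDiff_const

lemma pd_cont (hf : ContDiff ℝ 1 f) (j : Fin 3) : Continuous (pd j f) :=
  (hf.continuous_fderiv one_ne_zero).clm_apply continuous_const

lemma gs_cont (hf : ContDiff ℝ 1 f) : Continuous (gs f) :=
  continuous_finsetSum _ fun j _ => (pd_cont hf j).pow 2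

lemma fderiv_le (f : V → ℝ) (y z : V) : |fderiv ℝ f y z| ≤ nrm z * Real.sqrt (gs f y) := by
  rw [fderiv_sum_single]
  have h1 : ∑ k, z k * fderiv ℝ f y (Pi.single k 1) = z ⬝ᵥ (fun k => pd k f y) := rfl
  rw [h1]
  refine (dot_le _ _).trans (le_of_eq ?_)
  congr 1
  unfold nrm gs
  congr 1
  simp only [dotProduct, sq]

/-- The derivative of the mean and the gradient. -/
lemma mn'_grad (n : ℕ) (hf : ContDiff ℝ 1 f) {ρ D : ℝ} (hr : 0 < r) (hρ : r ≤ ρ) (hD : 0 < D)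
    (hE : ∫ y in B x ρ, gs f y ≤ D ^ 2) : |mn' n f x r| ≤ c1 * (D * r ^ (-(3 / 2) : ℝ)) := by
  have hc : Continuous fun y => Real.sqrt (gs f y) := Real.continuous_sqrt.comp (gs_cont hf)
  have h1 := mean_le (x₀ := x) (f := fun y => Real.sqrt (gs f y)) hc hr hρ hD (by
    refine le_trans (le_of_eq ?_) hE
    refine setIntegral_congr_fun (B_open x ρ).measurableSet fun y _ => ?_
    exact Real.sq_sqrt (gs_nonneg f y))
  refine le_trans ?_ h1
  rw [← Real.norm_eq_abs]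
  have hcz : Continuous fun z : V => |Real.sqrt (gs f (x + r • z))| :=
    (hc.comp (by fun_prop)).abs
  refine norm_integral_le_of_norm_le
    (((P_cont 1).mul hcz).integrable_of_hasCompactSupport (P_supp 0).mul_right)
    (Eventually.of_forall fun z => ?_)
  rw [Real.norm_eq_abs, abs_mul, abs_of_nonneg (P_nonneg (n + 2) z)]
  rcases lt_or_ge (z ⬝ᵥ z) 1 with hz | hz
  · have hz1 := (nrm_lt_one hz).le
    have h2 : ∀ m : ℕ, P (m + 1) z ≤ P 1 z := by
      intro m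
      induction m with
      | zero => exact le_rfl
      | succ m ih => exact (P_le (n := m + 1) z).trans ih
    have h3 := fderiv_le f (x + r • z) z
    have h4 : nrm z * Real.sqrt (gs f (x + r • z)) ≤ |Real.sqrt (gs f (x + r • z))| := by
      rw [abs_of_nonneg (Real.sqrt_nonneg _)]
      exact mul_le_of_le_one_left (Real.sqrt_nonneg _) hz1
    exact mul_le_mul (h2 (n + 1)) (h3.trans h4) (abs_nonneg _) (P_nonneg 1 z)
  · have e2 : P (n + 2) z = 0 := P_zero_of (n := n + 1) hz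
    rw [e2, zero_mul]
    exact mul_nonneg (P_nonneg 1 z) (abs_nonneg _)

/-- The derivative of the mean and the Laplacian. -/
lemma mn'_eq (n : ℕ) (hf : ContDiff ℝ 2 f) (x : V) (r : ℝ) :
    mn' n f x r = r / (2 * (n + 3)) * ∫ z, P (n + 3) z * lap f (x + r • z) := by
  have hf1 : ContDiff ℝ 1 f := hf.of_le (by norm_num)
  have hpj : ∀ j, ContDiff ℝ 1 (pd j f) := fun j => pd_contDiff (n := 1) (by simpa using! hf) j
  have hcpj : ∀ j, ContDiff ℝ 1 (fun z : V => pd j f (x + r • z)) := fun j => comp_aff (hpj j) x r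
  have hP : ∀ (z : V) (j : Fin 3), fderiv ℝ (P (n + 3)) z (Pi.single j 1) =
      -(2 * (n + 3)) * (P (n + 2) z * z j) := by
    intro z j
    rw [show P (n + 3) = P (n + 1 + 2) from rfl, P_fderiv (n + 1) z, dotProduct_single]
    push_cast
    ring
  have hn : (2 * ((n : ℝ) + 3)) ≠ 0 := by positivity
  have e1 : ∀ j, ∫ z, P (n + 2) z * z j * pd j f (x + r • z) =
      r / (2 * (n + 3)) * ∫ z, P (n + 3) z * pd j (pd j f) (x + r • z) := by
    intro j
    have h1 := ibp (P_contDiff (n + 1)) (P_supp (n + 2)) (hcpj j) (Pi.single j 1)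
    have h2 : ∀ z : V, fderiv ℝ (fun z : V => pd j f (x + r • z)) z (Pi.single j 1) =
        r * pd j (pd j f) (x + r • z) := by
      intro z
      rw [fderiv_comp_aff (hpj j), smul_eq_mul]
      rfl
    simp only [h2] at h1
    have h3 : ∫ z, P (n + 1 + 2) z * (r * pd j (pd j f) (x + r • z)) =
        r * ∫ z, P (n + 3) z * pd j (pd j f) (x + r • z) := by
      rw [← integral_const_mul]
      refine integral_congr_ae (Eventually.of_forall fun z => ?_)
      simp only []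
      ring
    have h4 : ∫ z, fderiv ℝ (P (n + 1 + 2)) z (Pi.single j 1) * pd j f (x + r • z) =
        -(2 * (n + 3)) * ∫ z, P (n + 2) z * z j * pd j f (x + r • z) := by
      rw [← integral_const_mul]
      refine integral_congr_ae (Eventually.of_forall fun z => ?_)
      simp only []
      rw [show P (n + 1 + 2) = P (n + 3) from rfl, hP z j]
      ring
    rw [h3, h4] at h1
    field_simp
    linarith
  have hint1 : ∀ j, Integrable fun z : V => P (n + 2) z * z j * pd j f (x + r • z) := by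
    intro j
    have h1 : Continuous fun z : V => z j * pd j f (x + r • z) :=
      (continuous_apply j).mul (hcpj j).continuous
    refine (((P_cont (n + 2)).mul h1).integrable_of_hasCompactSupport
      (P_supp (n + 1)).mul_right).congr (Eventually.of_forall fun z => ?_)
    simp only [Pi.mul_apply]
    ring
  have hint2 : ∀ j, Integrable fun z : V => P (n + 3) z * pd j (pd j f) (x + r • z) := by
    intro j
    have h1 : Continuous fun z : V => pd j (pd j f) (x + r • z) :=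
      (pd_cont (hpj j) j).comp (by fun_prop)
    exact ((P_cont (n + 3)).mul h1).integrable_of_hasCompactSupport (P_supp (n + 2)).mul_right
  have e2 : mn' n f x r = ∑ j, ∫ z, P (n + 2) z * z j * pd j f (x + r • z) := by
    unfold mn'
    rw [← integral_finsetSum _ fun j _ => hint1 j]
    refine integral_congr_ae (Eventually.of_forall fun z => ?_)
    simp only []
    rw [fderiv_sum_single, Finset.mul_sum]
    refine Finset.sum_congr rfl fun j _ => ?_
    show P (n + 2) z * (z j * pd j f (x + r • z)) = _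
    ring
  have e3 : ∫ z, P (n + 3) z * lap f (x + r • z) =
      ∑ j, ∫ z, P (n + 3) z * pd j (pd j f) (x + r • z) := by
    rw [← integral_finsetSum _ fun j _ => hint2 j]
    refine integral_congr_ae (Eventually.of_forall fun z => ?_)
    simp only [H459R3.NS.lap, Finset.mul_sum]
  rw [e2, e3, Finset.mul_sum]
  exact Finset.sum_congr rfl fun j _ => e1 j

lemma lap_cont (hf : ContDiff ℝ 2 f) : Continuous (lap f) := by
  unfold H459R3.NS.lap
  exact continuous_finsetSum _ fun j _ =>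
    pd_cont (pd_contDiff (n := 1) (by simpa using! hf) j) j

lemma mn'_lap (n : ℕ) (hf : ContDiff ℝ 2 f) {ρ L : ℝ} (hr : 0 < r) (hρ : r ≤ ρ) (hL : 0 < L)
    (hE : ∫ y in B x ρ, lap f y ^ 2 ≤ L ^ 2) :
    |mn' n f x r| ≤ c1 * L / 6 * r ^ (-(1 / 2) : ℝ) := by
  have hc := lap_cont hf
  have h1 := mean_le (x₀ := x) hc hr hρ hL hE
  have h2 : |∫ z, P (n + 3) z * lap f (x + r • z)| ≤ ∫ z, P 1 z * |lap f (x + r • z)| := by
    rw [← Real.norm_eq_abs]
    have hcz : Continuous fun z : V => |lap f (x + r • z)| := (hc.comp (by fun_prop)).abs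
    refine norm_integral_le_of_norm_le
      (((P_cont 1).mul hcz).integrable_of_hasCompactSupport (P_supp 0).mul_right)
      (Eventually.of_forall fun z => ?_)
    rw [Real.norm_eq_abs, abs_mul, abs_of_nonneg (P_nonneg (n + 3) z)]
    have h3 : ∀ m : ℕ, P (m + 1) z ≤ P 1 z := by
      intro m
      induction m with
      | zero => exact le_rfl
      | succ m ih => exact (P_le (n := m + 1) z).trans ih
    exact mul_le_mul_of_nonneg_right (h3 (n + 2)) (abs_nonneg _)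
  rw [mn'_eq n hf x r, abs_mul, abs_of_nonneg (show 0 ≤ r / (2 * ((n : ℝ) + 3)) by positivity)]
  have h4 : r / (2 * ((n : ℝ) + 3)) ≤ r / 6 := by
    refine div_le_div_of_nonneg_left hr.le (by norm_num) ?_
    have : (0 : ℝ) ≤ n := Nat.cast_nonneg n
    linarith
  have hc1 := c1_pos
  calc r / (2 * ((n : ℝ) + 3)) * |∫ z, P (n + 3) z * lap f (x + r • z)|
      ≤ r / 6 * (c1 * (L * r ^ (-(3 / 2) : ℝ))) := by
        refine mul_le_mul h4 (h2.trans h1) (abs_nonneg _) (by positivity)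
    _ = c1 * L / 6 * (r * r ^ (-(3 / 2) : ℝ)) := by ring
    _ = _ := by
      congr 1
      conv_lhs => rw [← Real.rpow_one r, ← Real.rpow_mul hr.le, one_mul, ← Real.rpow_add hr]
      norm_num

/-- increments at small radii -/
lemma mn_small (n : ℕ) (hf : ContDiff ℝ 2 f) {ρ L r : ℝ} (hr : 0 < r) (hρ : r ≤ ρ) (hL : 0 < L)
    (hE : ∫ y in B x ρ, lap f y ^ 2 ≤ L ^ 2) :
    |mn n f x r - mn n f x 0| ≤ c1 * (L * r ^ (1 / 2 : ℝ)) := by
  have hc1 := c1_pos
  have h1 : |mn n f x r - mn n f x 0| ≤ c1 * L / 3 * r ^ (1 / 2 : ℝ) - c1 * L / 3 * 0 ^ (1 / 2 : ℝ) := by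
    refine incr_le (g := fun r => c1 * L / 3 * r ^ (1 / 2 : ℝ))
      (g' := fun r => c1 * L / 3 * (1 / 2 * r ^ (1 / 2 - 1 : ℝ))) hr.le
      (fun r => mn_deriv n (hf.of_le (by norm_num)) x r) ?_ ?_ ?_
    · exact (continuousOn_const.mul (Real.continuous_rpow_const (by norm_num)).continuousOn)
    · intro s hs
      exact (Real.hasDerivAt_rpow_const (Or.inl hs.1.ne')).const_mul _
    · intro s hs
      refine (mn'_lap n hf hs.1 (hs.2.le.trans hρ) hL hE).trans (le_of_eq ?_)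
      rw [show (1 / 2 - 1 : ℝ) = -(1 / 2) by norm_num]
      ring
  rw [Real.zero_rpow (by norm_num), mul_zero, sub_zero] at h1
  refine h1.trans ?_
  have : 0 ≤ c1 * (L * r ^ (1 / 2 : ℝ)) := by positivity
  calc c1 * L / 3 * r ^ (1 / 2 : ℝ) = c1 * (L * r ^ (1 / 2 : ℝ)) / 3 := by ring
    _ ≤ _ := by linarith

/-- increments at large radii -/
lemma mn_large (n : ℕ) (hf : ContDiff ℝ 1 f) {ρ D r : ℝ} (hr : 0 < r) (hρ : r ≤ ρ) (hD : 0 < D)
    (hE : ∫ y in B x ρ, gs f y ≤ D ^ 2) :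
    |mn n f x ρ - mn n f x r| ≤ 2 * c1 * (D * r ^ (-(1 / 2) : ℝ)) := by
  have hc1 := c1_pos
  have hρ0 : 0 < ρ := hr.trans_le hρ
  have h1 : |mn n f x ρ - mn n f x r| ≤
      -(2 * c1 * D) * ρ ^ (-(1 / 2) : ℝ) - -(2 * c1 * D) * r ^ (-(1 / 2) : ℝ) := by
    refine incr_le (g := fun r => -(2 * c1 * D) * r ^ (-(1 / 2) : ℝ))
      (g' := fun r => -(2 * c1 * D) * (-(1 / 2) * r ^ (-(1 / 2) - 1 : ℝ))) hρ
      (fun r => mn_deriv n hf x r) ?_ ?_ ?_
    · intro s hs
      exact (continuousAt_const.mul (Real.continuousAt_rpow_const _ _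
        (Or.inl (hr.trans_le hs.1).ne'))).continuousWithinAt
    · intro s hs
      exact (Real.hasDerivAt_rpow_const (Or.inl (hr.trans hs.1).ne')).const_mul _
    · intro s hs
      refine (mn'_grad n hf (hr.trans hs.1) hs.2.le hD hE).trans (le_of_eq ?_)
      rw [show (-(1 / 2) - 1 : ℝ) = -(3 / 2) by norm_num]
      ring
  refine h1.trans ?_
  have : 0 ≤ 2 * c1 * D * ρ ^ (-(1 / 2) : ℝ) := by positivity
  calc -(2 * c1 * D) * ρ ^ (-(1 / 2) : ℝ) - -(2 * c1 * D) * r ^ (-(1 / 2) : ℝ)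
      = 2 * c1 * (D * r ^ (-(1 / 2) : ℝ)) - 2 * c1 * D * ρ ^ (-(1 / 2) : ℝ) := by ring
    _ ≤ _ := by linarith

/-- the mean itself -/
lemma mn_top (n : ℕ) (hf : Continuous f) {ρ F : ℝ} (hρ : 0 < ρ) (hF : 0 < F)
    (hE : ∫ y in B x ρ, f y ^ 2 ≤ F ^ 2) : |mn n f x ρ| ≤ c1 * (F * ρ ^ (-(3 / 2) : ℝ)) := by
  refine le_trans ?_ (mean_le (x₀ := x) hf hρ le_rfl hF hE)
  rw [← Real.norm_eq_abs]
  unfold mn
  have hcz : Continuous fun z : V => |f (x + ρ • z)| := (hf.comp (by fun_prop)).abs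
  refine norm_integral_le_of_norm_le
    (((P_cont 1).mul hcz).integrable_of_hasCompactSupport (P_supp 0).mul_right)
    (Eventually.of_forall fun z => ?_)
  rw [Real.norm_eq_abs, abs_mul, abs_of_nonneg (P_nonneg (n + 2) z)]
  have h3 : ∀ m : ℕ, P (m + 1) z ≤ P 1 z := by
    intro m
    induction m with
    | zero => exact le_rfl
    | succ m ih => exact (P_le (n := m + 1) z).trans ih
  exact mul_le_mul_of_nonneg_right (h3 (n + 1)) (abs_nonneg _)

/-- `(1 + ∫ P 1) / ∫ P 2` -/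
noncomputable def c2 : ℝ := c1 / ∫ z, P 2 z

lemma c2_pos : 0 < c2 := div_pos c1_pos (P_int_pos 1)

/-- Sup estimate. -/
lemma sup_loc (hf : ContDiff ℝ 2 f) {ρ F L : ℝ} (hρ : 0 < ρ) (hF : 0 < F) (hL : 0 < L)
    (hE : ∫ y in B x ρ, f y ^ 2 ≤ F ^ 2) (hE2 : ∫ y in B x ρ, lap f y ^ 2 ≤ L ^ 2) :
    |f x| ≤ c2 * (F * ρ ^ (-(3 / 2) : ℝ) + L * ρ ^ (1 / 2 : ℝ)) := by
  have hI : 0 < ∫ z, P 2 z := P_int_pos 1
  have h1 := mn_top 0 hf.continuous hρ hF hE
  have h2 := mn_small 0 hf hρ le_rfl hL hE2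
  have h3 := mn_zero 0 f x
  have h4 : |mn 0 f x 0| ≤ |mn 0 f x ρ| + |mn 0 f x ρ - mn 0 f x 0| := by
    have e' : mn 0 f x 0 = mn 0 f x ρ - (mn 0 f x ρ - mn 0 f x 0) := by ring
    calc |mn 0 f x 0| = |mn 0 f x ρ - (mn 0 f x ρ - mn 0 f x 0)| := by rw [← e']
      _ ≤ _ := abs_sub _ _
  have h6 : |mn 0 f x 0| = (∫ z, P 2 z) * |f x| := by
    rw [h3, abs_mul, abs_of_pos (show 0 < ∫ z, P (0 + 2) z from hI)]
  unfold c2
  rw [div_mul_eq_mul_div, le_div_iff₀ hI, mul_comm, mul_add]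
  rw [← h6]
  linarith

/-- Agmon's estimate with a free radius. -/
lemma agm_loc (hf : ContDiff ℝ 2 f) {ρ r F D L : ℝ} (hr : 0 < r) (hρ : r ≤ ρ) (hF : 0 < F)
    (hD : 0 < D) (hL : 0 < L)
    (hE : ∫ y in B x ρ, f y ^ 2 ≤ F ^ 2) (hE1 : ∫ y in B x ρ, gs f y ≤ D ^ 2)
    (hE2 : ∫ y in B x ρ, lap f y ^ 2 ≤ L ^ 2) :
    |f x| ≤ 2 * c2 * (F * ρ ^ (-(3 / 2) : ℝ) + D * r ^ (-(1 / 2) : ℝ) + L * r ^ (1 / 2 : ℝ)) := by
  have hI : 0 < ∫ z, P 2 z := P_int_pos 1
  have hρ0 := hr.trans_le hρ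
  have h1 := mn_top 0 hf.continuous hρ0 hF hE
  have h2 := mn_small 0 hf hr hρ hL hE2
  have h5 := mn_large 0 (hf.of_le (by norm_num)) hr hρ hD hE1
  have h3 := mn_zero 0 f x
  have h4 : |mn 0 f x 0| ≤ |mn 0 f x ρ| + |mn 0 f x ρ - mn 0 f x r| +
      |mn 0 f x r - mn 0 f x 0| := by
    have e' : mn 0 f x 0 = mn 0 f x ρ - (mn 0 f x ρ - mn 0 f x r) - (mn 0 f x r - mn 0 f x 0) := by
      ring
    calc |mn 0 f x 0| = |mn 0 f x ρ - (mn 0 f x ρ - mn 0 f x r) - (mn 0 f x r - mn 0 f x 0)| := by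
          rw [← e']
      _ ≤ |mn 0 f x ρ - (mn 0 f x ρ - mn 0 f x r)| + |mn 0 f x r - mn 0 f x 0| := abs_sub _ _
      _ ≤ _ := by
        have := abs_sub (mn 0 f x ρ) (mn 0 f x ρ - mn 0 f x r)
        linarith
  have h6 : |mn 0 f x 0| = (∫ z, P 2 z) * |f x| := by
    rw [h3, abs_mul, abs_of_pos (show 0 < ∫ z, P (0 + 2) z from hI)]
  have hc1 := c1_pos
  have p1 : 0 ≤ c1 * (F * ρ ^ (-(3 / 2) : ℝ)) := by positivity
  have p2 : 0 ≤ c1 * (L * r ^ (1 / 2 : ℝ)) := by positivity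
  have e : 2 * c2 * (F * ρ ^ (-(3 / 2) : ℝ) + D * r ^ (-(1 / 2) : ℝ) + L * r ^ (1 / 2 : ℝ)) =
      (2 * (c1 * (F * ρ ^ (-(3 / 2) : ℝ))) + 2 * c1 * (D * r ^ (-(1 / 2) : ℝ)) +
        2 * (c1 * (L * r ^ (1 / 2 : ℝ)))) / ∫ z, P 2 z := by
    unfold c2
    ring
  rw [e, le_div_iff₀ hI, mul_comm]
  rw [← h6]
  linarith

end Pool.Agent.N245.NS
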