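import Pool.Agent.N245.NsTwo

/-!
# The criterion with one point of maximal vorticity: coefficients in `L^q`, conclusion
-/

set_option autoImplicit false

open MeasureTheory Set Filter
open scoped ENNReal NNReal Topology ContDiff

namespace Pool.Agent.N245.NS

open Pool.Agent.H708R2.EulerSign (grad divergence)
open Pool.Agent.H708R2.EulerTypeI (nrm vort)
open Pool.Agent.H708R2.EulerTypeI Pool.Agent.W786.Dir Pool.Agent.N245.EulerLoc
open Pool.Agent.R210 (cu sp_cu smooth_cu vort_eq)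
open H459R3.NS hiding nrm nrm_sq nrm_nonneg

variable {ν T : ℝ} {u : ℝ → V → V} {p : ℝ → V → ℝ}

/-- The inequality of Young for the coefficient. -/
lemma young {β s : ℝ} {q : ℝ≥0∞} {c : ℝ → ℝ} (hβ : 0 < β) (hβ1 : β < 3 / 2) (hs : 0 < s)
    (hq : 1 ≤ q) (hqs : (q⁻¹).toReal + (3 - 2 * β) / (3 * s) + β / 3 ≤ 1)
    (hc : MemLp c q (volume.restrict (Ioo 0 T))) :
    ∃ (D : ℝ) (g : ℝ → ℝ), 0 < D ∧ IntegrableOn g (Ioo 0 T) ∧ (∀ t, 0 ≤ g t) ∧
      ∀ᵐ t, t ∈ Ioo 0 T → ∀ Ω y : ℝ, 0 < Ω → 0 ≤ y →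
        (1 + |c t|) * (Ω ^ (1 - 2 * β / 3) * (2 * (1 + y)) ^ (β / 3)) ≤
          D * (g t + Ω ^ s + (1 + y)) := by
  set b := (3 - 2 * β) / (3 * s) with hb
  have hb0 : 0 ≤ b := by
    have : 0 < 3 - 2 * β := by linarith
    positivity
  have hd0 : 0 ≤ β / 3 := by positivity
  have hbs : s * b = 1 - 2 * β / 3 := by
    rw [hb]
    field_simp
  have hfin : IsFiniteMeasure (volume.restrict (Ioo 0 T)) :=
    ⟨by rw [Measure.restrict_apply_univ, Real.volume_Ioo]; exact ENNReal.ofReal_lt_top⟩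
  have hΩb : ∀ Ω : ℝ, 0 < Ω → Ω ^ (1 - 2 * β / 3) = (Ω ^ s) ^ b := by
    intro Ω hΩ
    rw [← Real.rpow_mul hΩ.le, hbs]
  rcases eq_or_ne q ∞ with hq1 | hq1
  · subst hq1
    obtain ⟨B, hB⟩ : ∃ B : ℝ, ∀ᵐ t ∂(volume.restrict (Ioo 0 T)), ‖c t‖ ≤ B := by
      have h1 := hc.2
      rw [eLpNorm_exponent_top] at h1
      refine ⟨(eLpNormEssSup c (volume.restrict (Ioo 0 T))).toReal, ?_⟩
      filter_upwards [ae_le_eLpNormEssSup (f := c) (μ := volume.restrict (Ioo 0 T))] with t ht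
      rw [← ofReal_norm] at ht
      exact (ENNReal.ofReal_le_iff_le_toReal h1.ne).1 ht
    simp only [ENNReal.inv_top, ENNReal.toReal_zero, zero_add] at hqs
    refine ⟨2 * (1 + |B|), fun _ => 1, by positivity, integrable_const _,
      fun _ => zero_le_one, ?_⟩
    rw [ae_restrict_iff' measurableSet_Ioo] at hB
    filter_upwards [hB] with t ht htI Ω y hΩ hy
    have h1 := ht htI
    rw [Real.norm_eq_abs] at h1
    have h2 : 1 + |c t| ≤ 1 + |B| := by linarith [le_abs_self B]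
    have h3 := Real.geom_mean_le_arith_mean3_weighted (w₁ := b) (w₂ := β / 3)
      (w₃ := 1 - b - β / 3) (p₁ := Ω ^ s) (p₂ := 2 * (1 + y)) (p₃ := 1) hb0 hd0 (by linarith)
      (by positivity) (by positivity) zero_le_one (by ring)
    rw [Real.one_rpow, mul_one, ← hΩb Ω hΩ, mul_one] at h3
    have hΩs : 0 < Ω ^ s := by positivity
    have h4 : b * Ω ^ s ≤ 1 * Ω ^ s := mul_le_mul_of_nonneg_right (by linarith) hΩs.le
    have h5 : β / 3 * (2 * (1 + y)) ≤ 1 * (2 * (1 + y)) :=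
      mul_le_mul_of_nonneg_right (by linarith) (by linarith)
    have h6 : Ω ^ (1 - 2 * β / 3) * (2 * (1 + y)) ^ (β / 3) ≤ 2 * (1 + Ω ^ s + (1 + y)) := by
      linarith
    calc (1 + |c t|) * (Ω ^ (1 - 2 * β / 3) * (2 * (1 + y)) ^ (β / 3))
        ≤ (1 + |B|) * (2 * (1 + Ω ^ s + (1 + y))) := by
          refine mul_le_mul h2 h6 ?_ (by positivity)
          positivity
      _ = _ := by ring
  · set r := q.toReal with hr
    have hr1 : 1 ≤ r := by
      rw [hr, ← ENNReal.toReal_one]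
      exact ENNReal.toReal_mono hq1 hq
    have hr0 : 0 < r := by linarith
    have hqr : (q⁻¹).toReal = 1 / r := by rw [ENNReal.toReal_inv, one_div]
    rw [hqr] at hqs
    have ha0 : 0 ≤ 1 / r := by positivity
    have hm1 : MemLp (fun _ : ℝ => (1 : ℝ)) q (volume.restrict (Ioo 0 T)) := memLp_const 1
    have hm2 : MemLp (fun t : ℝ => ‖c t‖) q (volume.restrict (Ioo 0 T)) := hc.norm
    have hm := hm1.add hm2
    have hi := hm.integrable_norm_rpow (zero_lt_one.trans_le hq).ne' hq1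
    refine ⟨2, fun t => (1 + |c t|) ^ r + 1, by norm_num, ?_, fun t => by positivity, ?_⟩
    · refine Integrable.add ?_ (integrable_const _)
      refine hi.congr (Eventually.of_forall fun t => ?_)
      have e0 : ‖((fun _ : ℝ => (1 : ℝ)) + fun t : ℝ => ‖c t‖) t‖ = 1 + |c t| := by
        rw [Pi.add_apply, Real.norm_eq_abs, Real.norm_eq_abs, abs_of_nonneg]
        positivity
      simp only [e0]
      rfl
    · refine Eventually.of_forall fun t htI Ω y hΩ hy => ?_
      set C := 1 + |c t| with hC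
      have hC0 : 0 < C := by positivity
      have h3 := Real.geom_mean_le_arith_mean4_weighted (w₁ := 1 / r) (w₂ := b) (w₃ := β / 3)
        (w₄ := 1 - 1 / r - b - β / 3) (p₁ := C ^ r) (p₂ := Ω ^ s) (p₃ := 2 * (1 + y)) (p₄ := 1)
        ha0 hb0 hd0 (by linarith)
        (by positivity) (by positivity) (by positivity) zero_le_one (by ring)
      have e1 : (C ^ r) ^ (1 / r) = C := by
        rw [← Real.rpow_mul hC0.le, mul_one_div_cancel hr0.ne', Real.rpow_one]
      rw [Real.one_rpow, mul_one, ← hΩb Ω hΩ, mul_one, e1] at h3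
      have hΩs : 0 < Ω ^ s := by positivity
      have hCr : 0 < C ^ r := by positivity
      have h4 : b * Ω ^ s ≤ 1 * Ω ^ s := mul_le_mul_of_nonneg_right (by linarith) hΩs.le
      have h5 : β / 3 * (2 * (1 + y)) ≤ 1 * (2 * (1 + y)) :=
        mul_le_mul_of_nonneg_right (by linarith) (by linarith)
      have h7 : 1 / r * C ^ r ≤ 1 * C ^ r :=
        mul_le_mul_of_nonneg_right (by linarith) hCr.le
      rw [← mul_assoc]
      linarith

/-- The growth rate at a maximum point. -/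
lemma rate_max2 (h : IsSol ν T u p) (hν : 0 < ν) {β s θ K ρ D g c : ℝ} (hβ : 0 < β)
    (hβ1 : β < 3 / 2) (hs0 : 0 < s) (hs1 : s ≤ 1) (hθ0 : 0 ≤ θ) (hθ : θ < s) (hK : 0 ≤ K)
    (hρ : 0 < ρ) (hρ1 : ρ ≤ 1 / 2) {t : ℝ} (ht : t ∈ Ioo 0 T)
    (hD : ∀ Ω y : ℝ, 0 < Ω → 0 ≤ y →
        (1 + |c|) * (Ω ^ (1 - 2 * β / 3) * (2 * (1 + y)) ^ (β / 3)) ≤ D * (g + Ω ^ s + (1 + y)))
    {x : V}
    (hmax : ∀ y, nrm (vort (u t) y) ≤ nrm (vort (u t) x)) (hpos : 0 < nrm (vort (u t) x))
    (hc : ∀ y, nrm (y - x) < ρ →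
      -(((y - x) ⬝ᵥ vort (u t) x) * (vort (u t) y ⬝ᵥ cross (y - x) (vort (u t) x))) ≤
        nrm (y - x) ^ 2 * nrm (vort (u t) x) ^ 2 * (c * nrm (y - x) ^ β * nrm (vort (u t) y) +
          K * (1 + nrm (vort (u t) x)) ^ θ)) :
    deriv (fun s => om (u s) x) t ≤ 2 * (Cr2 β s θ K (energy (u 0)) *
      (D * (g + nrm (vort (u t) x) ^ s + (1 + enstrophy (u t))) +
      nrm (vort (u t) x) ^ s + ((1 + enstrophy (u t)) +
      (1 + enstrophy (u t) + third (u t)) ^ (1 / 5 : ℝ)) + ρ ^ (-(5 / 2) : ℝ))) * om (u t) x := by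
  have hI : t ∈ Ico 0 T := ⟨ht.1.le, ht.2⟩
  have hsp : ∀ i, SP (fun y => u t y i) := fun i => h.sp hI i
  set m := nrm (vort (u t) x) with hm
  set e : V := (1 / m) • vort (u t) x with he
  have hmi : 0 < 1 / m := by positivity
  have hne : nrm e = 1 := by
    rw [he, nrm_smul, abs_of_pos hmi, ← hm]
    field_simp
  have hce : cu (u t) x = m • e := by
    rw [he, smul_smul, mul_one_div_cancel hpos.ne', one_smul, vort_cu hsp]
  have hmaxom : ∀ y, om (u t) y ≤ om (u t) x := by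
    intro y
    rw [om_eq hsp, om_eq hsp]
    exact pow_le_pow_left₀ (nrm_nonneg _) (hmax y) 2
  set G : ℝ := (1 + |c|) ^ (1 / β) with hG
  have hG0 : 0 < G := by positivity
  have hGβ : G ^ β = 1 + |c| := by
    rw [hG, ← Real.rpow_mul (by positivity), one_div, inv_mul_cancel₀ hβ.ne', Real.rpow_one]
  have h1 := om_deriv h hν ht hmaxom hce
  have h2 := rate_fix2 hsp (h.divfree t hI) hne.le (G := G) (β := β) (s := s) (θ := θ) (K := K)
    (Ω := m) (E := energy (u 0)) (ρ := ρ) (x₀ := x)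
    (X := D * (g + m ^ s + (1 + enstrophy (u t)))) hβ hβ1 hs0 hs1 hθ0 hθ hG0 hK hpos
    (h.energy_le hν hI) hρ hρ1
    (fun y hy => by
      rw [he, kern_left]
      have hw0 := nrm_nonneg (y - x)
      have hv0 := nrm_nonneg (vort (u t) y)
      have h3 := mul_le_mul_of_nonneg_left (hc y hy) (sq_nonneg (1 / m))
      refine h3.trans ?_
      have e1 : (1 / m) ^ 2 * (nrm (y - x) ^ 2 * m ^ 2 * (c * nrm (y - x) ^ β *
          nrm (vort (u t) y) + K * (1 + m) ^ θ)) = nrm (y - x) ^ 2 * (c * nrm (y - x) ^ β *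
          nrm (vort (u t) y) + K * (1 + m) ^ θ) := by
        field_simp
      rw [e1, Real.mul_rpow hG0.le hw0, hGβ]
      refine mul_le_mul_of_nonneg_left ?_ (sq_nonneg _)
      have h4 : 0 ≤ nrm (y - x) ^ β * nrm (vort (u t) y) :=
        mul_nonneg (Real.rpow_nonneg hw0 _) hv0
      have h5 : c ≤ 1 + |c| := by linarith [le_abs_self c]
      have h6 := mul_le_mul_of_nonneg_right h5 h4
      linarith) hmax
    (by rw [hGβ]; exact hD m (enstrophy (u t)) hpos (enstrophy_nonneg _))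
  rw [om_eq hsp]
  refine h1.trans ?_
  refine mul_le_mul_of_nonneg_right ?_ (sq_nonneg _)
  exact mul_le_mul_of_nonneg_left h2 (by norm_num)

/-- The power of the maximum of the vorticity is controlled: by assumption if `1 / 2 < s`, by the
theorem of Foias, Guillope and Temam if `s = 1 / 2`. -/
lemma power_int2 (h : IsSol ν T u p) (hν : 0 < ν) {s : ℝ} (hs : 1 / 2 ≤ s)
    (hint : 1 / 2 < s → IntegrableOn
      (fun t => (⨆ x, nrm (vort (u t) x)) ^ s) (Ioo 0 T)) :
    ∃ q : ℝ → ℝ, ∃ Q : ℝ, (∀ t ∈ Ioo 0 T, 0 ≤ q t) ∧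
      (∀ a b, 0 < a → a ≤ b → b < T → IntervalIntegrable q volume a b ∧ ∫ t in a..b, q t ≤ Q) ∧
      ∀ t ∈ Ioo 0 T, ∀ x, (∀ y, nrm (vort (u t) y) ≤ nrm (vort (u t) x)) →
        nrm (vort (u t) x) ^ s ≤ q t := by
  rcases lt_or_eq_of_le hs with hlt | heq
  · have hi := hint hlt
    set q : ℝ → ℝ := fun t => (⨆ x, nrm (vort (u t) x)) ^ s with hq
    have hq0 : ∀ t, 0 ≤ q t := fun t =>
      Real.rpow_nonneg (Real.iSup_nonneg fun x => nrm_nonneg _) _
    refine ⟨q, ∫ t in Ioo 0 T, q t, fun t _ => hq0 t, fun a b ha hab hb => ?_, fun t ht x hx => ?_⟩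
    · have hi2 : IntegrableOn q (Ioc a b) := hi.mono_set fun t ht => ⟨ha.trans ht.1, ht.2.trans_lt hb⟩
      refine ⟨(intervalIntegrable_iff_integrableOn_Ioc_of_le hab).2 hi2, ?_⟩
      rw [intervalIntegral.integral_of_le hab]
      refine setIntegral_mono_set hi (Eventually.of_forall fun t => hq0 t) ?_
      have hss : Ioc a b ⊆ Ioo 0 T := fun t ht => ⟨ha.trans ht.1, ht.2.trans_lt hb⟩
      exact hss.eventuallyLE
    · have hbdd : BddAbove (range fun y => nrm (vort (u t) y)) := by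
        refine ⟨nrm (vort (u t) x), ?_⟩
        rintro _ ⟨y, rfl⟩
        exact hx y
      exact Real.rpow_le_rpow (nrm_nonneg _) (le_ciSup hbdd x) (by linarith)
  · have h1 := power_int (β := 1) h hν one_pos le_rfl (fun h1 => absurd h1 (lt_irrefl _))
    have e1 : ((3 - 2 * (1 : ℝ)) / (3 - 1) : ℝ) = 1 / 2 := by norm_num
    rw [e1, heq] at h1
    exact h1

/-- The vorticity is bounded. -/
theorem om_bounded2 (h : IsSol ν T u p) (hν : 0 < ν) (hT : 0 < T) {β s θ K : ℝ} {q : ℝ≥0∞}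
    {c : ℝ → ℝ} (hβ : 0 < β) (hβ1 : β < 3 / 2) (hs : 1 / 2 ≤ s) (hs1 : s ≤ 1)
    (hθ0 : 0 ≤ θ) (hθ : θ < s) (hK : 0 ≤ K)
    (hq : 1 ≤ q) (hqs : (q⁻¹).toReal + (3 - 2 * β) / (3 * s) + β / 3 ≤ 1)
    (hcq : MemLp c q (volume.restrict (Ioo 0 T)))
    (hint : 1 / 2 < s → IntegrableOn
      (fun t => (⨆ x, nrm (vort (u t) x)) ^ s) (Ioo 0 T))
    {r : ℝ → ℝ} (hr : ∀ t ∈ Ioo 0 T, 0 < r t ∧ r t ≤ 1 / 2)
    (hri : IntegrableOn (fun t => r t ^ (-(5 / 2) : ℝ)) (Ioo 0 T))
    (hcoh : ∀ᵐ t, t ∈ Ioo 0 T →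
      (∃ z, ∀ s ∈ Icc 0 t, ∀ y, nrm (vort (u s) y) ≤ nrm (vort (u t) z)) →
      ∃ x, (∀ s ∈ Icc 0 t, ∀ y, nrm (vort (u s) y) ≤ nrm (vort (u t) x)) ∧
        ∀ y, nrm (y - x) < r t →
          -(((y - x) ⬝ᵥ vort (u t) x) * (vort (u t) y ⬝ᵥ cross (y - x) (vort (u t) x))) ≤
            nrm (y - x) ^ 2 * nrm (vort (u t) x) ^ 2 *
              (c t * nrm (y - x) ^ β * nrm (vort (u t) y) +
                K * (1 + nrm (vort (u t) x)) ^ θ)) :
    ∃ B, ∀ t ∈ Ico 0 T, ∀ x, om (u t) x ≤ B := by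
  have hs0 : 0 < s := by linarith
  obtain ⟨D, g, hD0, hgi, hg0, hD⟩ := young (T := T) hβ hβ1 hs0 hq hqs hcq
  obtain ⟨q', Q, hq0, hqi, hqx⟩ := power_int2 h hν hs hint
  obtain ⟨C, hC0, hC⟩ := fgt h hν
  have hsp : ∀ t ∈ Ico 0 T, ∀ i, SP (fun y => u t y i) := fun t ht i => h.sp ht i
  have hW := om_smooth h
  have hp : ∀ t ∈ Ico 0 T, Per (om (u t)) := fun t ht => (om_sp (hsp t ht)).per
  have hCr := Cr2_pos (E := energy (u 0)) hβ hβ1 hs0 hθ hK
  set A := Cr2 β s θ K (energy (u 0)) with hA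
  have ha : 0 < T / 2 := by linarith
  set a := T / 2 with haT
  have haT' : a < T := by linarith
  set b : ℝ → ℝ := fun t => (1 + enstrophy (u t)) +
      (1 + enstrophy (u t) + third (u t)) ^ (1 / 5 : ℝ) with hb
  set ρ : ℝ → ℝ := fun t => 2 * (A * ((D * g t + (D + 1) * q' t) + (D + 1) * b t +
    r t ^ (-(5 / 2) : ℝ))) with hρ
  have hρ0 : ∀ t ∈ Ioo 0 T, 0 ≤ ρ t := fun t ht => by
    have := hq0 t ht
    have := hg0 t
    have : 0 ≤ b t := base_nonneg (u t)
    have : 0 ≤ r t ^ (-(5 / 2) : ℝ) := Real.rpow_nonneg (hr t ht).1.le _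
    positivity
  have hsq : ∀ s ∈ Ico 0 T, ∀ t ∈ Ico 0 T, ∀ x y, om (u s) y ≤ om (u t) x ↔
      nrm (vort (u s) y) ≤ nrm (vort (u t) x) := by
    intro s hs t ht x y
    rw [om_eq (hsp s hs), om_eq (hsp t ht)]
    exact pow_le_pow_iff_left₀ (nrm_nonneg _) (nrm_nonneg _) two_ne_zero
  set Rr := ∫ t in Ioo 0 T, r t ^ (-(5 / 2) : ℝ) with hRr
  set Gg := ∫ t in Ioo 0 T, g t with hGg
  set Bd := 2 * (A * ((D * Gg + (D + 1) * Q) + (D + 1) * C + Rr)) with hBd
  set R := max (Rm (fun t => om (u t)) a) 1 with hR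
  have hR1 : 1 ≤ R := le_max_right _ _
  refine ⟨R * Real.exp (max Bd 0), fun t ht x => ?_⟩
  have hexp : 1 ≤ Real.exp (max Bd 0) := Real.one_le_exp (le_max_right _ _)
  rcases le_or_gt t a with hta | hta
  · have h1 := Rm_ge hW hp ⟨ha.le, haT'⟩ (s := t) ⟨ht.1, hta⟩ x
    have h2 : om (u t) x ≤ R := h1.trans (le_max_left _ _)
    nlinarith
  · have i2 : IntervalIntegrable b volume a t :=
      ((cont_base h ht.2).mono (Icc_subset_Icc_left ha.le)).intervalIntegrable_of_Icc hta.le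
    have hss : Ioc a t ⊆ Ioo 0 T := fun s hs => ⟨ha.trans hs.1, hs.2.trans_lt ht.2⟩
    have i3 : IntervalIntegrable (fun t => r t ^ (-(5 / 2) : ℝ)) volume a t :=
      (intervalIntegrable_iff_integrableOn_Ioc_of_le hta.le).2 (hri.mono_set hss)
    have i4 : IntervalIntegrable g volume a t :=
      (intervalIntegrable_iff_integrableOn_Ioc_of_le hta.le).2 (hgi.mono_set hss)
    have i1 := (hqi a t ha hta.le ht.2).1
    have hρi : IntervalIntegrable ρ volume a t :=
      (((((i4.const_mul D).add (i1.const_mul (D + 1))).add (i2.const_mul (D + 1))).add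
        i3).const_mul A).const_mul 2
    have h1 := max_growth hW hp (κ := 1) one_pos ha hta.le ht.2 (ρ := ρ)
      (fun s hs => hρ0 s ⟨ha.trans hs.1, hs.2.trans ht.2⟩) hρi (by
        filter_upwards [hcoh, hD] with s hs hDs hsI hz
        have hsT : s ∈ Ioo 0 T := ⟨ha.trans hsI.1, hsI.2.trans ht.2⟩
        have hsT' : s ∈ Ico 0 T := ⟨hsT.1.le, hsT.2⟩
        obtain ⟨z, hz⟩ := hz
        have hIco : ∀ r ∈ Icc 0 s, r ∈ Ico 0 T := fun r hr => ⟨hr.1, hr.2.trans_lt hsT.2⟩
        obtain ⟨x, hx1, hx2⟩ := hs hsT ⟨z, fun r hr y => (hsq r (hIco r hr) s hsT' z y).1 (hz r hr y)⟩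
        refine ⟨x, fun r hr y => (hsq r (hIco r hr) s hsT' x y).2 (hx1 r hr y), fun h1x => ?_⟩
        have hmax : ∀ y, nrm (vort (u s) y) ≤ nrm (vort (u s) x) := fun y =>
          hx1 s ⟨hsT'.1, le_rfl⟩ y
        have hpos : 0 < nrm (vort (u s) x) := by
          refine lt_of_le_of_ne (nrm_nonneg _) fun h0 => ?_
          rw [om_eq (hsp s hsT'), ← h0] at h1x
          norm_num at h1x
        refine (rate_max2 h hν hβ hβ1 hs0 hs1 hθ0 hθ hK (hr s hsT).1 (hr s hsT).2 hsT (hDs hsT)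
          hmax hpos hx2).trans ?_
        refine mul_le_mul_of_nonneg_right ?_ (om_nonneg _ _)
        refine mul_le_mul_of_nonneg_left ?_ (by norm_num)
        refine mul_le_mul_of_nonneg_left ?_ hCr.le
        have k1 := hqx s hsT x hmax
        have k2 : 0 ≤ (1 + enstrophy (u s) + third (u s)) ^ (1 / 5 : ℝ) := by
          have := enstrophy_nonneg (u s)
          have := third_nonneg (u s)
          positivity
        have k3 := mul_le_mul_of_nonneg_left k1 hD0.le
        have k4 := mul_nonneg hD0.le k2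
        simp only [hb]
        linarith)
    have h2 : ∫ s in a..t, ρ s ≤ Bd := by
      have iq := hqi a t ha hta.le ht.2
      rw [hρ]
      rw [intervalIntegral.integral_const_mul, intervalIntegral.integral_const_mul,
        intervalIntegral.integral_add (((i4.const_mul D).add (i1.const_mul (D + 1))).add
          (i2.const_mul (D + 1))) i3,
        intervalIntegral.integral_add ((i4.const_mul D).add (i1.const_mul (D + 1)))
          (i2.const_mul (D + 1)),
        intervalIntegral.integral_add (i4.const_mul D) (i1.const_mul (D + 1)),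
        intervalIntegral.integral_const_mul, intervalIntegral.integral_const_mul,
        intervalIntegral.integral_const_mul]
      refine mul_le_mul_of_nonneg_left ?_ (by norm_num)
      refine mul_le_mul_of_nonneg_left ?_ hCr.le
      have h3 : ∫ s in a..t, b s ≤ C := by
        refine le_trans ?_ (hC t ht)
        rw [intervalIntegral.integral_of_le hta.le, intervalIntegral.integral_of_le ht.1]
        exact setIntegral_mono_set ((cont_base h ht.2).integrableOn_Icc.mono_set Ioc_subset_Icc_self)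
          (Eventually.of_forall fun t => base_nonneg _)
          (Ioc_subset_Ioc_left ha.le).eventuallyLE
      have h4 : ∫ s in a..t, r s ^ (-(5 / 2) : ℝ) ≤ Rr := by
        rw [intervalIntegral.integral_of_le hta.le]
        refine setIntegral_mono_set hri ?_ hss.eventuallyLE
        refine (ae_restrict_iff' measurableSet_Ioo).2 (Eventually.of_forall fun s hs => ?_)
        exact Real.rpow_nonneg (hr s hs).1.le _
      have h5 : ∫ s in a..t, g s ≤ Gg := by
        rw [intervalIntegral.integral_of_le hta.le]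
        exact setIntegral_mono_set hgi (Eventually.of_forall hg0) hss.eventuallyLE
      have m3 := mul_le_mul_of_nonneg_left h3 (show 0 ≤ D + 1 by linarith)
      have m5 := mul_le_mul_of_nonneg_left h5 hD0.le
      have m1 := mul_le_mul_of_nonneg_left iq.2 (show 0 ≤ D + 1 by linarith)
      linarith
    have h3 := Rm_ge hW hp ht (s := t) ⟨ht.1, le_rfl⟩ x
    calc om (u t) x ≤ Rm (fun t => om (u t)) t := h3
      _ ≤ max (Rm (fun t => om (u t)) t) 1 := le_max_left _ _
      _ ≤ R * Real.exp (∫ s in a..t, ρ s) := h1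
      _ ≤ R * Real.exp (max Bd 0) := by
          have := Real.exp_le_exp.2 (h2.trans (le_max_left Bd 0))
          have h0 : 0 ≤ R := by linarith
          exact mul_le_mul_of_nonneg_left this h0

end Pool.Agent.N245.NS
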