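import Pool.Agent.N245.NsOne

/-!
# The criterion with one point of maximal vorticity: coefficients which depend on time

The estimates of `NsLoc1`, `NsFix`, `NsOne` for exponents `β < 3 / 2`, with an additive term instead
of a threshold and with a coefficient `c(t)` in `L^q`.
-/

set_option autoImplicit false

open MeasureTheory Set Filter
open scoped ENNReal NNReal Topology ContDiff

namespace Pool.Agent.N245.NS

open Pool.Agent.H708R2.EulerSign (grad divergence)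
open Pool.Agent.H708R2.EulerTypeI (nrm vort)
open Pool.Agent.H708R2.EulerTypeI Pool.Agent.W786.Dir Pool.Agent.N245.EulerLoc
open Pool.Agent.R210 (cu sp_cu smooth_cu vort_eq)
open H459R3.NS hiding nrm nrm_sq nrm_nonneg

section

variable {v : V → V} {x₀ e : V} {r : ℝ}

/-- increments, large radii -/
lemma seg_far2 (hv : ContDiff ℝ 2 v) (hdiv : ∀ x, divergence v x = 0)
    {G β K W a b ρ : ℝ} (hβ : 0 < β) (hβ1 : β < 3 / 2) (hG : 0 < G) (hK : 0 ≤ K) (ha : 0 < a)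
    (hab : a ≤ b) (hb : b ≤ ρ)
    (hc : ∀ y, nrm (y - x₀) < b →
      -(((y - x₀) ⬝ᵥ e) * (vort v y ⬝ᵥ cross (y - x₀) e)) ≤
        nrm (y - x₀) ^ 2 * ((G * nrm (y - x₀)) ^ β * nrm (vort v y) + K))
    (hW : 0 < W) (hE : ∫ y in B x₀ ρ, nrm (vort v y) ^ 2 ≤ W ^ 2) :
    AA v e x₀ a - AA v e x₀ b ≤
      6 * c1 / (3 / 2 - β) * W * G ^ β * (a ^ (β - 3 / 2) - b ^ (β - 3 / 2)) +
        6 * (∫ z, P 2 z) * K * (Real.log b - Real.log a) := by
  set I2 := ∫ z, P 2 z with hI2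
  have hI2p : 0 < I2 := P_int_pos 1
  have hc1 := c1_pos
  have hγ : β - 3 / 2 ≠ 0 := by intro h; linarith
  set C := 6 * c1 * W * G ^ β with hC
  set g : ℝ → ℝ := fun r => C / (β - 3 / 2) * r ^ (β - 3 / 2) + 6 * I2 * K * Real.log r with hg
  set g' : ℝ → ℝ := fun r =>
    C / (β - 3 / 2) * ((β - 3 / 2) * r ^ (β - 3 / 2 - 1)) + 6 * I2 * K * r⁻¹ with hg'
  have h1 : AA v e x₀ a - AA v e x₀ b ≤ g b - g a := by
    refine incr_one (g' := g') hab (fun r => AA_deriv hv e x₀ r) ?_ ?_ ?_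
    · have hne : ∀ r ∈ Icc a b, r ≠ 0 := fun r hr => (ha.trans_le hr.1).ne'
      refine ContinuousOn.add (continuousOn_const.mul fun r hr =>
        (Real.continuousAt_rpow_const _ _ (Or.inl (hne r hr))).continuousWithinAt) ?_
      exact continuousOn_const.mul (Real.continuousOn_log.mono fun r hr => hne r hr)
    · intro r hr
      have hr0 : 0 < r := ha.trans hr.1
      exact ((Real.hasDerivAt_rpow_const (Or.inl hr0.ne')).const_mul _).add
        ((Real.hasDerivAt_log hr0.ne').const_mul _)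
    · intro r hr
      have hr0 : 0 < r := ha.trans hr.1
      have h2 := dA_one (x₀ := x₀) hv hdiv (κ := (G * r) ^ β) (K := K) hr0
        (fun z hz => kern_scale hβ hG hK hr0 hr.2 hz hc)
      have h3 := J_L2 (x₀ := x₀) hv hr0 (hr.2.le.trans hb) hW hE
      have e1 : r * g' r = 6 * ((G * r) ^ β * (c1 * (W * r ^ (-(3 / 2) : ℝ))) + K * I2) := by
        have e2 : r * r ^ (β - 3 / 2 - 1) = r ^ β * r ^ (-(3 / 2) : ℝ) := by
          rw [← Real.rpow_add hr0]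
          conv_lhs => rw [← Real.rpow_one r, ← Real.rpow_mul hr0.le, one_mul, ← Real.rpow_add hr0]
          congr 1
          ring
        simp only [hg']
        rw [Real.mul_rpow hG.le hr0.le]
        have e3 : C / (β - 3 / 2) * ((β - 3 / 2) * r ^ (β - 3 / 2 - 1)) =
            C * r ^ (β - 3 / 2 - 1) := by
          rw [← mul_assoc, div_mul_cancel₀ _ hγ]
        have e4 : r * (6 * I2 * K * r⁻¹) = 6 * I2 * K := by field_simp
        calc r * (C / (β - 3 / 2) * ((β - 3 / 2) * r ^ (β - 3 / 2 - 1)) + 6 * I2 * K * r⁻¹)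
            = C * (r * r ^ (β - 3 / 2 - 1)) + 6 * I2 * K := by rw [e3, mul_add, e4]; ring
          _ = _ := by rw [e2, hC]; ring
      have h4 : r * -AA' v e x₀ r ≤ r * g' r := by
        rw [e1]
        refine h2.trans ?_
        gcongr
      exact le_of_mul_le_mul_left h4 hr0
  refine h1.trans (le_of_eq ?_)
  have h7 : C / (β - 3 / 2) = -(6 * c1 / (3 / 2 - β) * W * G ^ β) := by
    rw [hC, ← neg_sub (3 / 2) β, div_neg]
    ring
  simp only [hg, h7]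
  ring

/-- The constant of the estimate of the stretching rate. -/
noncomputable def Kn2 (β : ℝ) : ℝ :=
  (6 * (∫ z, P 2 z) / β + 6 * c1 / (3 / 2 - β) + 12 * c1 + 6 * ∫ z, P 2 z) / ∫ z, P 3 z

lemma Kn2_pos {β : ℝ} (hβ : 0 < β) (hβ1 : β < 3 / 2) : 0 < Kn2 β := by
  have h2 : 0 < ∫ z, P 2 z := P_int_pos 1
  have h3 : 0 < ∫ z, P 3 z := P_int_pos 2
  have := c1_pos
  have : 0 < 3 / 2 - β := by linarith
  unfold Kn2
  positivity

/-- **The stretching rate at a point where the kernel is bounded from above.** -/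
theorem rate_line2 (hv : ContDiff ℝ 2 v) (hdiv : ∀ x, divergence v x = 0) (he : nrm e ≤ 1)
    {G β K Ω W F ρ r₁ Q : ℝ} (hβ : 0 < β) (hβ1 : β < 3 / 2) (hG : 0 < G) (hK : 0 ≤ K)
    (hΩ0 : 0 < Ω) (hr₁ : 0 < r₁) (hr₁ρ : r₁ ≤ ρ)
    (hcK : ∀ y, nrm (y - x₀) < ρ →
      -(((y - x₀) ⬝ᵥ e) * (vort v y ⬝ᵥ cross (y - x₀) e)) ≤
        nrm (y - x₀) ^ 2 * ((G * nrm (y - x₀)) ^ β * nrm (vort v y) + K))
    (hQ : |AA v e x₀ r₁ - AA v e x₀ 0| ≤ c1 * Q)
    (hΩ : ∀ y, nrm (y - x₀) < ρ → nrm (vort v y) ≤ Ω)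
    (hW : 0 < W) (hE : ∫ y in B x₀ ρ, nrm (vort v y) ^ 2 ≤ W ^ 2)
    (hF : 0 < F) (hE2 : ∫ y in B x₀ ρ, nrm (v y) ^ 2 ≤ F ^ 2) :
    rate v e x₀ ≤ Kn2 β * (G ^ β * (Ω ^ (1 - 2 * β / 3) * W ^ (2 * β / 3)) +
      F * ρ ^ (-(5 / 2) : ℝ) + K * (Real.log ρ - Real.log r₁) + Q) := by
  have c2 : 0 < ∫ z, P 2 z := P_int_pos 1
  have c3 : 0 < ∫ z, P 3 z := P_int_pos 2
  have hc1 := c1_pos
  have hρ : 0 < ρ := hr₁.trans_le hr₁ρ
  have h3β : 0 < 3 / 2 - β := by linarith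
  unfold Kn2
  rw [div_mul_eq_mul_div, le_div_iff₀ c3, mul_comm]
  set I2 := ∫ z, P 2 z with hI2
  set I3 := ∫ z, P 3 z with hI3
  set D := 6 * c1 / (3 / 2 - β) with hD
  have hD0 : 0 < D := by positivity
  set s := (W / Ω) ^ (2 / 3 : ℝ) with hs
  have hs0 : 0 < s := by positivity
  set X := G ^ β * (Ω ^ (1 - 2 * β / 3) * W ^ (2 * β / 3)) with hX
  set Z := K * (Real.log ρ - Real.log r₁) with hZ
  have hGβ : 0 < G ^ β := Real.rpow_pos_of_pos hG _
  have hX0 : 0 ≤ X := by positivity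
  have hQ0 : 0 ≤ Q := by
    have h := (abs_nonneg _).trans hQ
    exact nonneg_of_mul_nonneg_right h hc1
  have hlog : 0 ≤ Real.log ρ - Real.log r₁ := sub_nonneg.2 (Real.log_le_log hr₁ hr₁ρ)
  have hZ0 : 0 ≤ Z := mul_nonneg hK hlog
  have e1 : Ω * G ^ β * s ^ β = X := by
    rw [hX, hs, ← Real.rpow_mul (by positivity), Real.div_rpow hW.le hΩ0.le,
      Real.rpow_sub hΩ0, Real.rpow_one, show (2 / 3 * β : ℝ) = 2 * β / 3 by ring]
    field_simp
  have e2 : W * G ^ β * s ^ (β - 3 / 2) = X := by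
    rw [hX, hs, ← Real.rpow_mul (by positivity), Real.div_rpow hW.le hΩ0.le,
      show (2 / 3 * (β - 3 / 2) : ℝ) = 2 * β / 3 - 1 by ring,
      show (1 - 2 * β / 3 : ℝ) = -(2 * β / 3 - 1) by ring, Real.rpow_neg hΩ0.le,
      Real.rpow_sub hW, Real.rpow_one]
    field_simp
  have key : AA v e x₀ r₁ - AA v e x₀ ρ ≤ 6 * I2 / β * X + D * X + 6 * I2 * Z := by
    rcases le_or_gt s r₁ with hle | hgt
    · have t3 := seg_far2 (x₀ := x₀) (e := e) (K := K) (a := r₁) (b := ρ) hv hdiv hβ hβ1 hG hK hr₁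
        hr₁ρ le_rfl hcK hW hE
      rw [← hI2, mul_sub, ← hD] at t3
      have hmono : r₁ ^ (β - 3 / 2) ≤ s ^ (β - 3 / 2) :=
        Real.rpow_le_rpow_of_nonpos hs0 hle (by linarith)
      have hm2 : D * W * G ^ β * r₁ ^ (β - 3 / 2) ≤ D * X := by
        rw [← e2]
        calc D * W * G ^ β * r₁ ^ (β - 3 / 2)
            ≤ D * W * G ^ β * s ^ (β - 3 / 2) := by gcongr
          _ = _ := by ring
      have hρp : 0 ≤ D * W * G ^ β * ρ ^ (β - 3 / 2) := by positivity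
      have hXp : 0 ≤ 6 * I2 / β * X := by positivity
      have hZe : 6 * I2 * K * (Real.log ρ - Real.log r₁) = 6 * I2 * Z := by rw [hZ]; ring
      linarith
    · rcases le_or_gt s ρ with hle2 | hgt2
      · have t2 := seg_near1 (x₀ := x₀) (K := K) (a := r₁) (b := s) hv hdiv he hβ hG hr₁.le hgt.le
          (Or.inl hr₁) hK (fun y hy => hcK y (hy.trans_le hle2)) (fun y hy => hΩ y (hy.trans_le hle2))
        have t3 := seg_far2 (x₀ := x₀) (e := e) (K := K) (a := s) (b := ρ) hv hdiv hβ hβ1 hG hK hs0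
          hle2 le_rfl hcK hW hE
        rw [← hI2, mul_sub, ← hD] at t3
        rw [← hI2, mul_sub] at t2
        have hm2 : D * W * G ^ β * s ^ (β - 3 / 2) = D * X := by
          rw [← e2]
          ring
        have hm1 : 6 * I2 * Ω * G ^ β / β * s ^ β = 6 * I2 / β * X := by
          rw [← e1]
          ring
        have hρp : 0 ≤ D * W * G ^ β * ρ ^ (β - 3 / 2) := by positivity
        have hrp : 0 ≤ 6 * I2 * Ω * G ^ β / β * r₁ ^ β := by positivity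
        have hZe : 6 * I2 * K * (Real.log ρ - Real.log s) + 6 * I2 * K * (Real.log s - Real.log r₁)
          = 6 * I2 * Z := by rw [hZ]; ring
        linarith
      · have t2 := seg_near1 (x₀ := x₀) (K := K) (a := r₁) (b := ρ) hv hdiv he hβ hG hr₁.le hr₁ρ
          (Or.inl hr₁) hK hcK hΩ
        rw [← hI2, mul_sub] at t2
        have hmono : ρ ^ β ≤ s ^ β := Real.rpow_le_rpow hρ.le hgt2.le hβ.le
        have hm1 : 6 * I2 * Ω * G ^ β / β * ρ ^ β ≤ 6 * I2 / β * X := by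
          rw [← e1]
          calc 6 * I2 * Ω * G ^ β / β * ρ ^ β ≤ 6 * I2 * Ω * G ^ β / β * s ^ β := by gcongr
            _ = _ := by ring
        have hrp : 0 ≤ 6 * I2 * Ω * G ^ β / β * r₁ ^ β := by positivity
        have hXp : 0 ≤ D * X := by positivity
        have hZe : 6 * I2 * K * (Real.log ρ - Real.log r₁) = 6 * I2 * Z := by rw [hZ]; ring
        linarith
  have h0 : AA v e x₀ 0 = I3 * rate v e x₀ := AA_zero
  have s3 := (le_abs_self _).trans (A_out (x₀ := x₀) hv he hρ hF hE2)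
  have s4 := (abs_le.1 hQ).1
  set Y := F * ρ ^ (-(5 / 2) : ℝ) with hY
  have hY0 : 0 ≤ Y := by positivity
  have hβ' : 0 ≤ 6 * I2 / β := by positivity
  have hexp : (6 * I2 / β + D + 12 * c1 + 6 * I2) * (X + Y + Z + Q) =
      6 * I2 / β * X + 6 * I2 / β * Y + 6 * I2 / β * Z + 6 * I2 / β * Q +
      (D * X + D * Y + D * Z + D * Q) +
      12 * c1 * X + 12 * c1 * Y + 12 * c1 * Z + 12 * (c1 * Q) +
      6 * (I2 * X) + 6 * (I2 * Y) + 6 * I2 * Z + 6 * (I2 * Q) := by ring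
  rw [hexp, ← h0]
  have p2 := mul_nonneg hβ' hY0
  have p3 := mul_nonneg hβ' hZ0
  have p4 := mul_nonneg hβ' hQ0
  have p5 := mul_nonneg hc1.le hX0
  have p6 := mul_nonneg hc1.le hZ0
  have p7 := mul_nonneg hc1.le hQ0
  have p8 := mul_nonneg c2.le hX0
  have p9 := mul_nonneg c2.le hY0
  have p10 := mul_nonneg c2.le hQ0
  have q1 := mul_nonneg hD0.le hY0
  have q2 := mul_nonneg hD0.le hZ0
  have q3 := mul_nonneg hD0.le hQ0
  linarith

end

/-- the constant of the estimate of the stretching rate -/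
noncomputable def Cr2 (β s θ K E : ℝ) : ℝ :=
  Kn2 β * (2 + Real.sqrt (1 + E) + K * Ct (θ / s))

lemma Cr2_pos {β s θ K E : ℝ} (hβ : 0 < β) (hβ1 : β < 3 / 2) (hs : 0 < s) (hθ : θ < s)
    (hK : 0 ≤ K) : 0 < Cr2 β s θ K E := by
  have := Kn2_pos hβ hβ1
  have h3 := Ct_pos (τ := θ / s) (by rwa [div_lt_one hs])
  unfold Cr2
  positivity

section

variable {v : V → V} (hv : ∀ i, SP (fun y => v y i)) {e : V}

include hv in
/-- The stretching rate at a point where the vorticity is maximal. -/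
theorem rate_fix2 (hdiv : ∀ x, ∑ i, pd i (fun y => v y i) x = 0) (he : nrm e ≤ 1)
    {G β s θ K Ω E ρ X : ℝ} {x₀ : V} (hβ : 0 < β) (hβ1 : β < 3 / 2) (hs0 : 0 < s) (hs1 : s ≤ 1)
    (hθ0 : 0 ≤ θ) (hθ : θ < s) (hG : 0 < G) (hK : 0 ≤ K) (hΩ0 : 0 < Ω) (hE : energy v ≤ E)
    (hρ : 0 < ρ) (hρ1 : ρ ≤ 1 / 2)
    (hc : ∀ y, nrm (y - x₀) < ρ →
      -(((y - x₀) ⬝ᵥ e) * (vort v y ⬝ᵥ cross (y - x₀) e)) ≤
        nrm (y - x₀) ^ 2 * ((G * nrm (y - x₀)) ^ β * nrm (vort v y) + K * (1 + Ω) ^ θ))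
    (hΩ : ∀ y, nrm (vort v y) ≤ Ω)
    (hX : G ^ β * (Ω ^ (1 - 2 * β / 3) * (2 * (1 + enstrophy v)) ^ (β / 3)) ≤ X) :
    rate v e x₀ ≤ Cr2 β s θ K E * (X + Ω ^ s + ((1 + enstrophy v) +
      (1 + enstrophy v + third v) ^ (1 / 5 : ℝ)) + ρ ^ (-(5 / 2) : ℝ)) := by
  set y := enstrophy v with hy
  set z := third v with hz
  have hy0 : 0 ≤ y := enstrophy_nonneg _
  have hz0 : 0 ≤ z := third_nonneg _
  have hE0 : 0 ≤ E := (energy_nonneg v).trans hE
  set Z := 1 + y + z with hZ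
  have hZ1 : 1 ≤ Z := by linarith
  have hZ0 : 0 < Z := by linarith
  set r₁ := ρ / Z with hr₁
  have hr₁0 : 0 < r₁ := by positivity
  have hr₁ρ : r₁ ≤ ρ := div_le_self hρ.le hZ1
  set L := Real.sqrt Z with hL
  have hL0 : 0 < L := Real.sqrt_pos.2 hZ0
  have hL2 : L ^ 2 = Z := Real.sq_sqrt hZ0.le
  set W := Real.sqrt (2 * (1 + y)) with hW
  have hW0 : 0 < W := Real.sqrt_pos.2 (by linarith)
  have hW2 : W ^ 2 = 2 * (1 + y) := Real.sq_sqrt (by linarith)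
  set F := Real.sqrt (1 + E) with hF
  have hF0 : 0 < F := Real.sqrt_pos.2 (by linarith)
  have hF2 : F ^ 2 = 1 + E := Real.sq_sqrt (by linarith)
  have hΩθ : 0 < (1 + Ω) ^ θ := by positivity
  have hQ := rate_small hv he x₀ hr₁0 (hr₁ρ.trans hρ1) hL0 (by rw [hL2]; linarith)
  have h1 := rate_line2 (v_two hv) (div_eq hv hdiv) he hβ hβ1 hG (mul_nonneg hK hΩθ.le) hΩ0 hr₁0
    hr₁ρ hc hQ (fun y _ => hΩ y) hW0
    ((loc_vort hv x₀ hρ1).trans (by rw [hW2]; linarith)) hF0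
    ((vel_int hv hE x₀ hρ1).trans (by rw [hF2]; linarith))
  refine h1.trans ?_
  have hKn := Kn2_pos hβ hβ1
  unfold Cr2
  rw [mul_assoc (Kn2 β)]
  refine mul_le_mul_of_nonneg_left ?_ hKn.le
  have hGβ : 0 < G ^ β := by positivity
  have hρ52 : 0 < ρ ^ (-(5 / 2) : ℝ) := by positivity
  have hΩs : 0 ≤ Ω ^ s := by positivity
  have hZ5 : 0 < Z ^ (1 / 5 : ℝ) := by positivity
  -- first term
  have t1 : G ^ β * (Ω ^ (1 - 2 * β / 3) * W ^ (2 * β / 3)) ≤ X := by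
    have k3 : (W ^ 2) ^ (β / 3) = W ^ (2 * β / 3) := by
      rw [← Real.rpow_natCast, ← Real.rpow_mul hW0.le]
      congr 1
      push_cast
      ring
    rw [← k3, hW2]
    exact hX
  have hX0 : 0 ≤ X := by
    refine le_trans ?_ t1
    positivity
  have t3 : (1 + Ω) ^ θ * (Real.log ρ - Real.log r₁) ≤
      Ct (θ / s) * (Ω ^ s + 1 + Z ^ (1 / 5 : ℝ)) := by
    have k1 : Real.log ρ - Real.log r₁ = Real.log Z := by
      rw [hr₁, Real.log_div hρ.ne' hZ0.ne']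
      ring
    rw [k1]
    exact thr_est hΩ0.le hs0 hs1 hθ0 hθ hZ1
  have t4 : L * r₁ ^ (1 / 2 : ℝ) ≤ 1 := by
    have k0 : 0 ≤ L * r₁ ^ (1 / 2 : ℝ) := by positivity
    have k1 : (L * r₁ ^ (1 / 2 : ℝ)) ^ 2 ≤ 1 ^ 2 := by
      rw [mul_pow, sq_rpow_half hr₁0.le, hL2, hr₁, mul_div_cancel₀ _ hZ0.ne', one_pow]
      linarith
    exact (pow_le_pow_iff_left₀ k0 zero_le_one (by norm_num)).1 k1
  have hCt : 0 < Ct (θ / s) := Ct_pos (by rwa [div_lt_one hs0])
  set M := Ct (θ / s) with hM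
  set R := ρ ^ (-(5 / 2) : ℝ) with hR
  have u3 := mul_le_mul_of_nonneg_left t3 hK
  have w3 : 0 ≤ F * (Ω ^ s) := by positivity
  have w4 : 0 ≤ F * Z ^ (1 / 5 : ℝ) := by positivity
  have w5 : 0 ≤ F * (1 + y) := by positivity
  have w6 : 0 ≤ K * M * y := by positivity
  have w7 : 0 ≤ Z ^ (1 / 5 : ℝ) := hZ5.le
  have w8 : 0 ≤ F * X := by positivity
  have w9 : 0 ≤ K * M * R := by positivity
  have w10 : 0 ≤ R := hρ52.le
  have w11 : 0 ≤ K * M * X := by positivity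
  rw [← mul_assoc] at u3
  have e0 : (2 + F + K * M) * (X + Ω ^ s + ((1 + y) + Z ^ (1 / 5 : ℝ)) + R) =
      2 * X + 2 * Ω ^ s + 2 * (1 + y) + 2 * Z ^ (1 / 5 : ℝ) + 2 * R +
      (F * X + F * Ω ^ s + F * (1 + y) + F * Z ^ (1 / 5 : ℝ) + F * R) +
      (K * M * X + (K * M * Ω ^ s + K * M + K * M * Z ^ (1 / 5 : ℝ)) + K * M * y + K * M * R) := by
    ring
  rw [e0]
  have e3 : K * (M * (Ω ^ s + 1 + Z ^ (1 / 5 : ℝ))) =
      K * M * Ω ^ s + K * M + K * M * Z ^ (1 / 5 : ℝ) := by ring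
  rw [e3] at u3
  linarith

end

end Pool.Agent.N245.NS
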